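import Pool.Agent.Helper79.HG.Defs
import Pool.Agent.Helper79.DD.StatU

/-!
# HG: the equality of the Mumford-Tate conjecture at a point: definitions
-/

namespace Pool.Agent.Helper79.HG

open Matrix Pool.Agent.Helper79.BB Pool.Agent.Helper79.HH Pool.Agent.Helper64.Per
  Pool.Agent.Helper88.MT Pool.Agent.Helper79.DD

/-- The Zariski closure of the set `S` in `GL r` over the field `F` is connected. -/
def IsConn {r : ℕ} {F : Type} [Field F] (S : Set (GL (Fin r) F)) : Prop :=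
  ConnectedSpace (PrimeSpectrum (GLPoly r F ⧸ vanGL F S))

/-- The integral vector `v` as a rational vector. -/
def rv {r : ℕ} (v : Fin r → ℤ) : Fin r → ℚ := fun i => (v i : ℚ)

/-- The integral vector `v` as an `ℓ`-adic vector. -/
noncomputable def lv (ℓ : ℕ) [Fact ℓ.Prime] {r : ℕ} (v : Fin r → ℤ) : Fin r → ℤ_[ℓ] :=
  fun i => (v i : ℤ_[ℓ])

/-- An element of `GL r` over `ℤ_ℓ` as an element over `ℚ_ℓ`. -/
noncomputable def toQl {r ℓ : ℕ} [Fact ℓ.Prime] (g : GL (Fin r) ℤ_[ℓ]) : GL (Fin r) ℚ_[ℓ] :=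
  Matrix.GeneralLinearGroup.map (algebraMap ℤ_[ℓ] ℚ_[ℓ]) g

/-- The equality of the Mumford-Tate conjecture at the prime `ℓ`, for a group `G` acting on `Qbar` (the Galois
group of a number field), the `G`-sets `{y k v : v ∈ (ℤ / ℓ^k)^r}`, and the Hodge structure on `ℤ^r` with period
matrix `P`: let `ρ` be the action of `G` on the `ℓ`-adic lattice, which preserves the form `ψ` and permutes the
integral vectors of `N`. For every subgroup `G'` of finite index of `G` such that the Zariski closure over `ℚ_ℓ` of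
`ρ(G')` is connected, the base change to `ℤ_ℓ` of the Zariski closure over `ℤ` of the Mumford-Tate group is the
Zariski closure over `ℤ_ℓ` of `ρ(G')`, in `GL r` over `ℤ_ℓ`. -/
def EqHolds {r ℓ : ℕ} [Fact ℓ.Prime] {G : Type} [Group G] (act : G → Qbar → Qbar) {n : ℕ → ℕ}
    (y : ∀ k, (Fin r → ZMod (ℓ ^ k)) → Fin (n k) → ℂ) (lev : Fin r → ℤ) (ψ : Matrix (Fin r) (Fin r) ℤ)
    (N : Submodule ℚ (Fin r → ℚ)) (P : Matrix (Fin r) (Fin r) ℂ) : Prop :=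
  ∀ ρ : G →* GL (Fin r) ℤ_[ℓ], IsGalRep act y ρ →
    (∀ σ, (ρ σ : Matrix (Fin r) (Fin r) ℤ_[ℓ])ᵀ * ψ.map (Int.cast : ℤ → ℤ_[ℓ]) * ρ σ =
      ψ.map (Int.cast : ℤ → ℤ_[ℓ])) →
    (∀ σ, ∀ v : Fin r → ℤ, rv v ∈ N → ∃ u : Fin r → ℤ, rv u ∈ N ∧
      (ρ σ : Matrix (Fin r) (Fin r) ℤ_[ℓ]) *ᵥ lv ℓ v = lv ℓ u) →
    ∀ G' : Subgroup G, G'.FiniteIndex → IsConn (toQl '' (G'.map ρ : Set (GL (Fin r) ℤ_[ℓ]))) →
      (vanGL ℤ (MTat lev P : Set (GL (Fin r) ℂ))).map (MvPolynomial.map (Int.castRingHom ℤ_[ℓ])) =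
        vanGL ℤ_[ℓ] (G'.map ρ : Set (GL (Fin r) ℤ_[ℓ]))

/-- The equality of the Mumford-Tate conjecture at the prime `ℓ` holds for the fibre at `(t, w t)`, over the field
`κ(t, w t)`. -/
def MTEq {κ : IntermediateField ℚ Qbar} {m r ℓ : ℕ} [Fact ℓ.Prime] {U : Set (Fin m → ℂ)}
    {w : (Fin m → ℂ) → ℂ} (Y : ∀ k : ℕ, CoverData κ (Fin r → ZMod (ℓ ^ k)) U w) (lev : Fin r → ℤ)
    (ψ : Matrix (Fin r) (Fin r) ℤ) (N : Submodule ℚ (Fin r → ℚ))
    (P : (Fin m → ℂ) → Matrix (Fin r) (Fin r) ℂ) (t : Fin m → ℂ) : Prop :=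
  EqHolds (G := Qbar ≃ₐ[kapM κ t (w t)] Qbar) (fun σ z => σ z) (fun k v i => (Y k).y v i t) lev ψ N (P t)

/-- The integer parameters `a` with coordinates of absolute value at most `X` such that for an algebraic root `θ` of
`F_a` with `G_0(θ) ≠ 0` the point `t = (G_1(θ) / G_0(θ), …, G_m(θ) / G_0(θ))` is in `V`, and the equality of
the Mumford-Tate conjecture at `ℓ` does not hold for the fibre at `t`. -/
def SmallEq {κ : IntermediateField ℚ Qbar} {J : Type} [Fintype J] (ω : Module.Basis J ℚ κ)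
    (N' : Finset (ℕ × J)) {m r ℓ : ℕ} [Fact ℓ.Prime] {U : Set (Fin m → ℂ)} {w : (Fin m → ℂ) → ℂ}
    (V : Set (Fin m → ℂ)) (Y : ∀ k : ℕ, CoverData κ (Fin r → ZMod (ℓ ^ k)) U w) (lev : Fin r → ℤ)
    (ψ : Matrix (Fin r) (Fin r) ℤ) (N : Submodule ℚ (Fin r → ℚ))
    (P : (Fin m → ℂ) → Matrix (Fin r) (Fin r) ℂ) (D e X : ℕ) : Set (DD.Px m D e J N' → ℤ) :=
  {a | (∀ p, |a p| ≤ X) ∧ ∃ θ : Qbar, polyU ω N' a θ = 0 ∧ denU ω N' a θ ≠ 0 ∧
    pointU ω N' a θ ∈ V ∧ ¬ MTEq Y lev ψ N P (pointU ω N' a θ)}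

end Pool.Agent.Helper79.HG
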