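import Pool.Agent.Helper79.HG.Defs

/-!
# HG-19: the monodromy group

Proofs.
* `monoL_one`: reflexivity.
* `monoL_mul`: for an integral matrix `γ'` let `T` be the operation on function elements which keeps `U` and `w` and replaces the functions `f` by
  `f'(inl (i,j)) = ∑_l f(inl (i,l)) γ'_(l,j)` and `f'(inr ⟨k, (v, i)⟩) = f(inr ⟨k, (γ' v, i)⟩)`. It preserves `IsAnalytic` and `Next`, so it maps chains to
  chains (`Relation.ReflTransGen.lift`), and it maps `fns P Y γ` to `fns P Y (γ * γ')` (`actZ γ (actZ γ' v) = actZ (γ * γ') v`: `Matrix.map_mul`,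
  `Matrix.mulVec_mulVec`). So there are chains `fns P Y 1 → fns P Y γ'` and `fns P Y γ' → fns P Y (γ * γ')`.
* `mono_of_monoL`, `chain_of_monoL`: forget a part of the functions (`Relation.ReflTransGen.lift` with the map of the elements; `P t * 1 = P t`, `actZ 1 v = v`;
  the integral isometry condition over `ℂ` by `Matrix.map_mul`).
-/

namespace Pool.Agent.Helper79.HG

open Matrix Pool.Agent.Helper79.BB Pool.Agent.Helper79.HH Pool.Agent.Helper64.Per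

variable {κ : IntermediateField ℚ Qbar} {m r ℓ : ℕ} [Fact ℓ.Prime] {U : Set (Fin m → ℂ)}
  {w : (Fin m → ℂ) → ℂ} {ψ : Matrix (Fin r) (Fin r) ℤ} {P : (Fin m → ℂ) → Matrix (Fin r) (Fin r) ℂ}
  {Y : ∀ k : ℕ, CoverData κ (Fin r → ZMod (ℓ ^ k)) U w}

omit [Fact ℓ.Prime] in
private theorem actZ_one {k : ℕ} (v : Fin r → ZMod (ℓ ^ k)) : actZ (1 : Matrix (Fin r) (Fin r) ℤ) v = v := by
  unfold actZ
  rw [Matrix.map_one _ Int.cast_zero Int.cast_one, Matrix.one_mulVec]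

omit [Fact ℓ.Prime] in
private theorem actZ_mul (γ γ' : Matrix (Fin r) (Fin r) ℤ) {k : ℕ} (v : Fin r → ZMod (ℓ ^ k)) :
    actZ γ (actZ γ' v) = actZ (γ * γ') v := by
  unfold actZ
  rw [Matrix.mulVec_mulVec]
  congr 1
  exact (Matrix.map_mul (f := Int.castRingHom (ZMod (ℓ ^ k)))).symm

private theorem cast_mul (γ γ' : Matrix (Fin r) (Fin r) ℤ) :
    (γ * γ').map (Int.cast : ℤ → ℂ) = γ.map (Int.cast : ℤ → ℂ) * γ'.map (Int.cast : ℤ → ℂ) :=
  Matrix.map_mul (f := Int.castRingHom ℂ)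

private theorem next_lift {α β : Type} (F : Elem m α → Elem m β) (hU : ∀ a, (F a).U = a.U)
    (hw : ∀ a, (F a).w = a.w) (hf : ∀ a, a.IsAnalytic → ∀ i, AnalyticOnNhd ℂ ((F a).f i) a.U)
    (heq : ∀ a b t, (∀ i, a.f i t = b.f i t) → ∀ i, (F a).f i t = (F b).f i t) {a b : Elem m α}
    (h : Elem.Next a b) : Elem.Next (F a) (F b) := by
  obtain ⟨ha, hb, O, hO, hO1, hOa, hOb, ht⟩ := h
  have han : ∀ a : Elem m α, a.IsAnalytic → (F a).IsAnalytic := by
    intro a ha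
    refine ⟨?_, ?_, ?_, ?_⟩
    · rw [hU]; exact ha.1
    · rw [hU]; exact ha.2.1
    · rw [hU, hw]; exact ha.2.2.1
    · rw [hU]; exact hf a ha
  refine ⟨han a ha, han b hb, O, hO, hO1, ?_, ?_, ?_⟩
  · rw [hU]; exact hOa
  · rw [hU]; exact hOb
  · intro t htO
    rw [hw, hw]
    exact ⟨(ht t htO).1, heq a b t (ht t htO).2⟩

theorem monoL_one : 1 ∈ MonoL ψ P Y :=
  ⟨by rw [Matrix.transpose_one, Matrix.one_mul, Matrix.mul_one], Relation.ReflTransGen.refl⟩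

/-- Change of the basis with the matrix `γ'`. -/
private noncomputable def TT (Y : ∀ k : ℕ, CoverData κ (Fin r → ZMod (ℓ ^ k)) U w)
    (γ' : Matrix (Fin r) (Fin r) ℤ)
    (a : Elem m ((Fin r × Fin r) ⊕ (Σ k : ℕ, (Fin r → ZMod (ℓ ^ k)) × Fin (Y k).N))) :
    Elem m ((Fin r × Fin r) ⊕ (Σ k : ℕ, (Fin r → ZMod (ℓ ^ k)) × Fin (Y k).N)) :=
  ⟨a.U, a.w, Sum.elim
    (fun e t => ∑ l, a.f (Sum.inl (e.1, l)) t * (γ'.map (Int.cast : ℤ → ℂ)) l e.2)
    (fun e => a.f (Sum.inr ⟨e.1, (actZ γ' e.2.1, e.2.2)⟩))⟩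

private theorem TT_fns (γ γ' : Matrix (Fin r) (Fin r) ℤ) :
    TT Y γ' ⟨U, w, fns P Y γ⟩ = ⟨U, w, fns P Y (γ * γ')⟩ := by
  unfold TT
  congr 1
  funext e
  rcases e with e | e
  · funext t
    simp only [Sum.elim_inl, fns]
    rw [cast_mul, ← Matrix.mul_assoc, Matrix.mul_apply]
  · simp only [Sum.elim_inr, fns]
    rw [actZ_mul]

theorem monoL_mul {γ γ' : Matrix (Fin r) (Fin r) ℤ} (h : γ ∈ MonoL ψ P Y) (h' : γ' ∈ MonoL ψ P Y) :
    γ * γ' ∈ MonoL ψ P Y := by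
  refine ⟨?_, ?_⟩
  · calc (γ * γ')ᵀ * ψ * (γ * γ') = γ'ᵀ * (γᵀ * ψ * γ) * γ' := by
          rw [Matrix.transpose_mul]
          simp only [Matrix.mul_assoc]
      _ = ψ := by rw [h.1, h'.1]
  · have h1 := Relation.ReflTransGen.lift (TT Y γ') (fun a b hab => by
      refine next_lift (TT Y γ') (fun _ => rfl) (fun _ => rfl) ?_ ?_ hab
      · intro a ha i
        rcases i with e | e
        · have h2 : AnalyticOnNhd ℂ (fun t => ∑ l, a.f (Sum.inl (e.1, l)) t *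
              (γ'.map (Int.cast : ℤ → ℂ)) l e.2) a.U :=
            Finset.analyticOnNhd_fun_sum _ fun l _ => (ha.2.2.2 _).mul analyticOnNhd_const
          exact h2
        · exact ha.2.2.2 _
      · intro a b t hab i
        rcases i with e | e
        · change ∑ l, a.f (Sum.inl (e.1, l)) t * _ = ∑ l, b.f (Sum.inl (e.1, l)) t * _
          exact Finset.sum_congr rfl fun l _ => by rw [hab]
        · exact hab _) _ _ h.2
    simp only [Function.onFun] at h1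
    rw [TT_fns, TT_fns, Matrix.one_mul] at h1
    exact h'.2.trans h1

theorem mono_of_monoL {γ : Matrix (Fin r) (Fin r) ℤ} (h : γ ∈ MonoL ψ P Y) :
    γ.map (Int.cast : ℤ → ℂ) ∈ Mono (ψ.map (Int.cast : ℤ → ℚ)) U w P := by
  refine ⟨⟨γ, rfl⟩, ?_, ?_⟩
  · have h1 : (ψ.map (Int.cast : ℤ → ℚ)).map (Rat.cast : ℚ → ℂ) = ψ.map (Int.cast : ℤ → ℂ) := by
      ext i j
      simp
    rw [h1, ← Matrix.transpose_map, ← cast_mul, ← cast_mul, h.1]
  · have h1 := Relation.ReflTransGen.lift (p := Element.Next)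
      (fun a : Elem m ((Fin r × Fin r) ⊕ (Σ k : ℕ, (Fin r → ZMod (ℓ ^ k)) × Fin (Y k).N)) =>
        (⟨a.U, a.w, fun t => Matrix.of fun i j => a.f (Sum.inl (i, j)) t⟩ : Element m (Fin r)))
      (fun a b hab => by
        obtain ⟨ha, hb, O, hO, hO1, hOa, hOb, ht⟩ := hab
        exact ⟨⟨ha.1, ha.2.1, ha.2.2.1, fun i k => ha.2.2.2 _⟩,
          ⟨hb.1, hb.2.1, hb.2.2.1, fun i k => hb.2.2.2 _⟩, O, hO, hO1, hOa, hOb,
          fun t htO => ⟨(ht t htO).1, by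
            ext i j
            exact (ht t htO).2 _⟩⟩) _ _ h.2
    have h2 : ∀ γ : Matrix (Fin r) (Fin r) ℤ,
        (fun t => Matrix.of fun i j => fns P Y γ (Sum.inl (i, j)) t) =
          fun t => P t * γ.map (Int.cast : ℤ → ℂ) := by
      intro γ
      funext t
      ext i j
      rfl
    simp only [Function.onFun, h2] at h1
    rw [Matrix.map_one _ Int.cast_zero Int.cast_one] at h1
    simp only [Matrix.mul_one] at h1
    exact h1

theorem chain_of_monoL {γ : Matrix (Fin r) (Fin r) ℤ} (h : γ ∈ MonoL ψ P Y) (k : ℕ) :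
    Relation.ReflTransGen Elem.Next
      (⟨U, w, fun e : (Fin r → ZMod (ℓ ^ k)) × Fin (Y k).N => (Y k).y e.1 e.2⟩ :
        Elem m ((Fin r → ZMod (ℓ ^ k)) × Fin (Y k).N))
      ⟨U, w, fun e => (Y k).y (actZ γ e.1) e.2⟩ := by
  have h1 := Relation.ReflTransGen.lift (p := Elem.Next)
    (fun a : Elem m ((Fin r × Fin r) ⊕ (Σ k : ℕ, (Fin r → ZMod (ℓ ^ k)) × Fin (Y k).N)) =>
      (⟨a.U, a.w, fun e => a.f (Sum.inr ⟨k, e⟩)⟩ : Elem m ((Fin r → ZMod (ℓ ^ k)) × Fin (Y k).N)))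
    (fun a b hab => next_lift (fun a : Elem m ((Fin r × Fin r) ⊕ (Σ k : ℕ, (Fin r → ZMod (ℓ ^ k)) × Fin (Y k).N)) =>
      (⟨a.U, a.w, fun e => a.f (Sum.inr ⟨k, e⟩)⟩ : Elem m ((Fin r → ZMod (ℓ ^ k)) × Fin (Y k).N))) (fun _ => rfl) (fun _ => rfl) (fun a ha i => ha.2.2.2 _)
      (fun a b t hab i => hab _) hab) _ _ h.2
  have h2 : ∀ γ : Matrix (Fin r) (Fin r) ℤ,
      (fun e : (Fin r → ZMod (ℓ ^ k)) × Fin (Y k).N => fns P Y γ (Sum.inr ⟨k, e⟩)) =
        fun e => (Y k).y (actZ γ e.1) e.2 := fun γ => rfl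
  simp only [Function.onFun, h2, actZ_one] at h1
  exact h1

end Pool.Agent.Helper79.HG
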