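import Mathlib

/-!
# HG-07: separation with powers of small integers, and permutations given by field homomorphisms

Proofs.
* `exists_sep`: for a pair `a ≠ b` the polynomial `∑ x^i (y a i - y b i)` in `x` is nonzero (as `y a ≠ y b`) of degree less than
  `N`, so it has at most `N` roots; there are at most `(card A)^2` pairs, so one of the `(card A)^2 N + 1` integers
  `0, …, (card A)^2 N` is a root for no pair (cardinality of a union: `Finset.card_biUnion_le`, `Polynomial.card_roots'`).
* `exists_sep_perm`: the same for the pairs of different permutations `π ≠ π'` and the polynomial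
  `∑_a x^(e a) (y (π a) - y (π' a))`; it is nonzero: if `π a ≠ π' a` the coefficient of `x^(e a)` is `y (π a) - y (π' a) ≠ 0`
  (`e` is injective); the degree is less than `card A`. The number of permutations is `(card A)!` (`Fintype.card_perm`).
* `exists_perm`: for `a ∈ A` and `x ∈ ℕ`, `s_x(a) = ∑_i x^i y a i` is a root of `∏_b (X - s_x(b))`, so `σ (s_x(a))` is a root of the
  image under `σ`, which is the same polynomial: there is `b` with `∑_i x^i (σ (y a i) - y b i) = 0`. As there are infinitely many `x`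
  and finitely many `b`, there is a `b` for which this is true for infinitely many `x` (`Finite.exists_infinite_fiber` or
  `Set.Infinite` and pigeonhole), and a polynomial with infinitely many zeros is zero
  (`Polynomial.eq_zero_of_infinite_isRoot`): `σ (y a i) = y b i` for all `i`. Put `π a = b`; `π` is injective as `σ` and `y` are.
-/

open Polynomial

namespace Pool.Agent.Helper79.HG

/-- A small natural number which is a root of none of finitely many nonzero polynomials. -/
private theorem exists_nonroot {ι : Type} [Fintype ι] (p : ι → ℂ[X]) (D : ℕ) (hp : ∀ i, p i ≠ 0)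
    (hd : ∀ i, (p i).natDegree ≤ D) :
    ∃ x : ℕ, x ≤ Fintype.card ι * D ∧ ∀ i, (p i).eval (x : ℂ) ≠ 0 := by
  classical
  by_contra hcon
  push Not at hcon
  have h0 : (∏ i, p i) ≠ 0 := Finset.prod_ne_zero_iff.2 fun i _ => hp i
  have hdeg : (∏ i, p i).natDegree ≤ Fintype.card ι * D := by
    refine (natDegree_prod_le _ _).trans ?_
    refine (Finset.sum_le_card_nsmul _ _ D fun i _ => hd i).trans ?_
    rw [smul_eq_mul, Finset.card_univ]
  apply h0
  refine eq_zero_of_natDegree_lt_card_of_eval_eq_zero (∏ i, p i)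
    (f := fun i : Fin (Fintype.card ι * D + 1) => ((i : ℕ) : ℂ)) ?_ ?_ ?_
  · intro i j hij
    exact Fin.ext (Nat.cast_injective hij)
  · intro i
    obtain ⟨j, hj⟩ := hcon i (by have := i.isLt; omega)
    rw [eval_prod]
    exact Finset.prod_eq_zero (Finset.mem_univ j) hj
  · rw [Fintype.card_fin]
    omega

private theorem sum_fin_coeff {R : Type} [CommRing R] {N : ℕ} (z : Fin N → R) (i : Fin N) :
    (∑ j : Fin N, C (z j) * X ^ (j : ℕ)).coeff (i : ℕ) = z i := by
  rw [finsetSum_coeff, Finset.sum_eq_single i]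
  · rw [coeff_C_mul_X_pow, if_pos rfl]
  · intro j _ hj
    rw [coeff_C_mul_X_pow, if_neg]
    intro h
    exact hj (Fin.ext h.symm)
  · intro h
    exact absurd (Finset.mem_univ i) h

private theorem sum_fin_eval {R : Type} [CommRing R] {N : ℕ} (z : Fin N → R) (x : R) :
    (∑ j : Fin N, C (z j) * X ^ (j : ℕ)).eval x = ∑ j : Fin N, x ^ (j : ℕ) * z j := by
  rw [eval_finsetSum]
  refine Finset.sum_congr rfl fun j _ => ?_
  rw [eval_mul, eval_C, eval_pow, eval_X, mul_comm]

theorem exists_sep {A : Type} [Fintype A] {N : ℕ} (y : A → Fin N → ℂ) (hy : Function.Injective y) :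
    ∃ x : ℕ, x ≤ Fintype.card A ^ 2 * N ∧
      Function.Injective fun a => ∑ i : Fin N, (x : ℂ) ^ (i : ℕ) * y a i := by
  classical
  let ι := {q : A × A // q.1 ≠ q.2}
  let p : ι → ℂ[X] := fun q => ∑ j : Fin N, C (y q.1.1 j - y q.1.2 j) * X ^ (j : ℕ)
  have hp : ∀ q, p q ≠ 0 := by
    intro q h0
    apply q.2
    apply hy
    funext j
    have h1 := sum_fin_coeff (fun j => y q.1.1 j - y q.1.2 j) j
    have h2 : (∑ j : Fin N, C (y q.1.1 j - y q.1.2 j) * X ^ (j : ℕ)) = 0 := h0
    rw [h2, coeff_zero] at h1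
    exact (sub_eq_zero.1 h1.symm)
  have hd : ∀ q, (p q).natDegree ≤ N := by
    intro q
    refine natDegree_sum_le_of_forall_le _ _ fun j _ => ?_
    refine (natDegree_C_mul_X_pow_le _ _).trans ?_
    exact j.isLt.le
  obtain ⟨x, hx, hx'⟩ := exists_nonroot p N hp hd
  refine ⟨x, hx.trans ?_, ?_⟩
  · refine Nat.mul_le_mul_right N ?_
    refine (Fintype.card_subtype_le _).trans ?_
    rw [Fintype.card_prod, sq]
  · intro a b hab
    by_contra hne
    apply hx' ⟨(a, b), hne⟩
    change (∑ j : Fin N, C (y a j - y b j) * X ^ (j : ℕ)).eval (x : ℂ) = 0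
    rw [sum_fin_eval]
    simp only at hab
    simp only [mul_sub, Finset.sum_sub_distrib]
    rw [hab, sub_self]

theorem exists_sep_perm {A : Type} [Fintype A] [DecidableEq A] (e : A → ℕ) (he : Function.Injective e)
    (he' : ∀ a, e a < Fintype.card A) (y : A → ℂ) (hy : Function.Injective y) :
    ∃ x : ℕ, x ≤ (Fintype.card A).factorial ^ 2 * Fintype.card A ∧
      Function.Injective fun π : Equiv.Perm A => ∑ a, (((x : ℤ) ^ e a : ℤ) : ℂ) * y (π a) := by
  classical
  let ι := {q : Equiv.Perm A × Equiv.Perm A // q.1 ≠ q.2}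
  let p : ι → ℂ[X] := fun q => ∑ a, C (y (q.1.1 a) - y (q.1.2 a)) * X ^ (e a)
  have hp : ∀ q, p q ≠ 0 := by
    intro q h0
    apply q.2
    apply Equiv.ext
    intro a
    apply hy
    have h1 : (∑ b, C (y (q.1.1 b) - y (q.1.2 b)) * X ^ (e b) : ℂ[X]).coeff (e a) =
        y (q.1.1 a) - y (q.1.2 a) := by
      rw [finsetSum_coeff, Finset.sum_eq_single a]
      · rw [coeff_C_mul_X_pow, if_pos rfl]
      · intro j _ hj
        rw [coeff_C_mul_X_pow, if_neg]
        intro h
        exact hj (he h.symm)
      · intro h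
        exact absurd (Finset.mem_univ a) h
    have h2 : (∑ b, C (y (q.1.1 b) - y (q.1.2 b)) * X ^ (e b) : ℂ[X]) = 0 := h0
    rw [h2, coeff_zero] at h1
    exact (sub_eq_zero.1 h1.symm)
  have hd : ∀ q, (p q).natDegree ≤ Fintype.card A := by
    intro q
    refine natDegree_sum_le_of_forall_le _ _ fun j _ => ?_
    refine (natDegree_C_mul_X_pow_le _ _).trans ?_
    exact (he' j).le
  obtain ⟨x, hx, hx'⟩ := exists_nonroot p (Fintype.card A) hp hd
  refine ⟨x, hx.trans ?_, ?_⟩
  · refine Nat.mul_le_mul_right _ ?_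
    refine (Fintype.card_subtype_le _).trans ?_
    rw [Fintype.card_prod, sq, Fintype.card_perm]
  · intro π π' hab
    by_contra hne
    apply hx' ⟨(π, π'), hne⟩
    change (∑ a, C (y (π a) - y (π' a)) * X ^ (e a) : ℂ[X]).eval (x : ℂ) = 0
    rw [eval_finsetSum]
    simp only at hab
    push_cast at hab
    have h1 : ∀ a, (C (y (π a) - y (π' a)) * X ^ (e a) : ℂ[X]).eval (x : ℂ) =
        (x : ℂ) ^ e a * y (π a) - (x : ℂ) ^ e a * y (π' a) := by
      intro a
      rw [eval_mul, eval_C, eval_pow, eval_X]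
      ring
    simp only [h1, Finset.sum_sub_distrib]
    rw [hab, sub_self]

theorem exists_perm {L : Type} [Field L] [CharZero L] (σ : L →+* L) {A : Type} [Fintype A]
    [DecidableEq A] {N : ℕ} (y : A → Fin N → L) (hy : Function.Injective y)
    (h : ∀ x : ℕ, (∏ a, (X - C (∑ i : Fin N, (x : L) ^ (i : ℕ) * y a i))).map σ =
      ∏ a, (X - C (∑ i : Fin N, (x : L) ^ (i : ℕ) * y a i))) :
    ∃ π : Equiv.Perm A, ∀ a i, σ (y a i) = y (π a) i := by
  classical
  have key : ∀ a, ∃ b, ∀ i, σ (y a i) = y b i := by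
    intro a
    let q : A → L[X] := fun b => ∑ j : Fin N, C (σ (y a j) - y b j) * X ^ (j : ℕ)
    have hprod : ∏ b, q b = 0 := by
      apply eq_zero_of_infinite_isRoot
      refine Set.infinite_of_injective_forall_mem (f := fun x : ℕ => (x : L))
        Nat.cast_injective ?_
      intro x
      change (∏ b, q b).eval (x : L) = 0
      rw [eval_prod]
      have h1 := congrArg (eval (σ (∑ i : Fin N, (x : L) ^ (i : ℕ) * y a i))) (h x)
      rw [eval_map_apply, eval_prod, Finset.prod_eq_zero (Finset.mem_univ a)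
        (by rw [eval_sub, eval_X, eval_C, sub_self]), map_zero,
        eval_prod] at h1
      obtain ⟨b, _, hb⟩ := Finset.prod_eq_zero_iff.1 h1.symm
      rw [eval_sub, eval_X, eval_C, map_sum] at hb
      refine Finset.prod_eq_zero (Finset.mem_univ b) ?_
      change (∑ j : Fin N, C (σ (y a j) - y b j) * X ^ (j : ℕ)).eval (x : L) = 0
      rw [sum_fin_eval, ← hb, ← Finset.sum_sub_distrib]
      refine Finset.sum_congr rfl fun j _ => ?_
      rw [map_mul, map_pow, map_natCast]
      ring
    obtain ⟨b, _, hb⟩ := Finset.prod_eq_zero_iff.1 hprod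
    refine ⟨b, fun i => ?_⟩
    have h1 := sum_fin_coeff (fun j => σ (y a j) - y b j) i
    have h2 : (∑ j : Fin N, C (σ (y a j) - y b j) * X ^ (j : ℕ)) = 0 := hb
    rw [h2, coeff_zero] at h1
    exact (sub_eq_zero.1 h1.symm)
  choose f hf using key
  have hinj : Function.Injective f := by
    intro a b hab
    apply hy
    funext i
    apply σ.injective
    rw [hf a i, hf b i, hab]
  exact ⟨Equiv.ofBijective f (Finite.injective_iff_bijective.1 hinj), fun a i => hf a i⟩

end Pool.Agent.Helper79.HG
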