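import Pool.Agent.Helper79.HG.StatEq

/-!
# HG-21: sets of matrices with connected Zariski closure
-/

namespace Pool.Agent.Helper79.HG

open Matrix Pool.Agent.Helper88.MT

variable {r : ℕ} {F : Type} [Field F]

theorem mem_vanGL {S : Set (GL (Fin r) F)} {f : GLPoly r F} :
    f ∈ vanGL F S ↔ ∀ g ∈ S, evGL g f = 0 := Iff.rfl

/-- A regular function with finitely many values on `S` is constant if the closure of `S` is connected. -/
theorem eq_of_isConn {S : Set (GL (Fin r) F)} (hS : IsConn S) {g₀ : GL (Fin r) F} (h1 : g₀ ∈ S)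
    (f : GLPoly r F) (hf : ((fun g : GL (Fin r) F => evGL g f) '' S).Finite) :
    ∀ g ∈ S, evGL g f = evGL g₀ f := by
  classical
  have : ConnectedSpace (PrimeSpectrum (GLPoly r F ⧸ vanGL F S)) := hS
  set c : F := evGL g₀ f with hc
  set B : Finset F := hf.toFinset.erase c with hB
  set L : GLPoly r F := ∏ b ∈ B, (MvPolynomial.C (c - b)⁻¹ * (f - MvPolynomial.C b)) with hL
  have hev : ∀ g, evGL g L = ∏ b ∈ B, ((c - b)⁻¹ * (evGL g f - b)) := by
    intro g
    rw [hL, map_prod]
    refine Finset.prod_congr rfl fun b _ => ?_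
    rw [map_mul, map_sub]
    have h2 : ∀ x : F, evGL g (MvPolynomial.C x : GLPoly r F) = x := fun x => by
      rw [evGL, MvPolynomial.aeval_C]
      rfl
    rw [h2, h2]
  have hone : ∀ g, evGL g f = c → evGL g L = 1 := by
    intro g hg
    rw [hev]
    refine Finset.prod_eq_one fun b hb => ?_
    rw [hg]
    refine inv_mul_cancel₀ (sub_ne_zero.2 ?_)
    rintro rfl
    exact (Finset.notMem_erase _ _) hb
  have hzero : ∀ g ∈ S, evGL g f ≠ c → evGL g L = 0 := by
    intro g hg hne
    rw [hev]
    refine Finset.prod_eq_zero (i := evGL g f) ?_ ?_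
    · rw [hB, Finset.mem_erase]
      exact ⟨hne, hf.mem_toFinset.2 ⟨g, hg, rfl⟩⟩
    · rw [sub_self, mul_zero]
  set e : GLPoly r F ⧸ vanGL F S := Ideal.Quotient.mk _ L with he
  have hmul : e * (1 - e) = 0 := by
    rw [he, ← map_one (Ideal.Quotient.mk (vanGL F S)), ← map_sub, ← map_mul,
      Ideal.Quotient.eq_zero_iff_mem, mem_vanGL]
    intro g hg
    rw [map_mul, map_sub, map_one]
    by_cases h : evGL g f = c
    · rw [hone g h, sub_self, mul_zero]
    · rw [hzero g hg h, zero_mul]
  have hadd : e + (1 - e) = 1 := by ring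
  have hid : IsIdempotentElem e := (IsIdempotentElem.of_mul_add hmul hadd).1
  rcases isClopen_iff.1 (PrimeSpectrum.isClopen_basicOpen_of_mul_add e (1 - e) hmul hadd) with h | h
  · exfalso
    have h2 : PrimeSpectrum.basicOpen e = PrimeSpectrum.basicOpen (0 : GLPoly r F ⧸ vanGL F S) := by
      rw [PrimeSpectrum.basicOpen_zero]
      exact SetLike.coe_injective h
    have h3 : e = 0 := PrimeSpectrum.basicOpen_injOn_isIdempotentElem hid IsIdempotentElem.zero h2
    rw [he, Ideal.Quotient.eq_zero_iff_mem, mem_vanGL] at h3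
    have h4 := h3 g₀ h1
    rw [hone g₀ rfl] at h4
    exact one_ne_zero h4
  · have h2 : PrimeSpectrum.basicOpen e = PrimeSpectrum.basicOpen (1 : GLPoly r F ⧸ vanGL F S) := by
      rw [PrimeSpectrum.basicOpen_one]
      exact SetLike.coe_injective h
    have h3 : e = 1 := PrimeSpectrum.basicOpen_injOn_isIdempotentElem hid IsIdempotentElem.one h2
    rw [he, ← map_one (Ideal.Quotient.mk (vanGL F S)), Ideal.Quotient.eq, mem_vanGL] at h3
    intro g hg
    by_contra hne
    have h4 := h3 g hg
    rw [map_sub, map_one, hzero g hg hne, zero_sub, neg_eq_zero] at h4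
    exact one_ne_zero h4

/-- A set of isometries with connected closure which contains the identity: all elements have determinant one. -/
theorem det_eq_one_of_isConn {S : Set (GL (Fin r) F)} (hS : IsConn S) (h1 : (1 : GL (Fin r) F) ∈ S)
    (hdet : ∀ g ∈ S, (g : Matrix (Fin r) (Fin r) F).det = 1 ∨ (g : Matrix (Fin r) (Fin r) F).det = -1) :
    ∀ g ∈ S, (g : Matrix (Fin r) (Fin r) F).det = 1 := by
  classical
  set f : GLPoly r F := (Matrix.of fun i j => (MvPolynomial.X (some (i, j)) : GLPoly r F)).det with hf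
  have hev : ∀ g : GL (Fin r) F, evGL g f = (g : Matrix (Fin r) (Fin r) F).det := by
    intro g
    rw [hf, AlgHom.map_det]
    congr 1
    ext i j
    rw [AlgHom.mapMatrix_apply, Matrix.map_apply, Matrix.of_apply, evGL, MvPolynomial.aeval_X]
    rfl
  intro g hg
  have h2 := eq_of_isConn hS h1 f ?_ g hg
  · rw [hev, hev] at h2
    rw [h2]
    simp
  · refine Set.Finite.subset (Set.toFinite {(1 : F), -1}) ?_
    rintro _ ⟨g, hg, rfl⟩
    change evGL g f ∈ ({(1 : F), -1} : Set F)
    rw [hev]
    rcases hdet g hg with h | h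
    · left; exact h
    · right; exact h

/-- A set with connected closure which contains the identity and moves a vector to finitely many vectors fixes the
vector. -/
theorem mulVec_eq_of_isConn {S : Set (GL (Fin r) F)} (hS : IsConn S) (h1 : (1 : GL (Fin r) F) ∈ S)
    (v : Fin r → F) (hv : ((fun g : GL (Fin r) F => (g : Matrix (Fin r) (Fin r) F) *ᵥ v) '' S).Finite) :
    ∀ g ∈ S, (g : Matrix (Fin r) (Fin r) F) *ᵥ v = v := by
  classical
  intro g hg
  funext i
  set f : GLPoly r F := ∑ j, MvPolynomial.X (some (i, j)) * MvPolynomial.C (v j) with hf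
  have hev : ∀ g : GL (Fin r) F, evGL g f = ((g : Matrix (Fin r) (Fin r) F) *ᵥ v) i := by
    intro g
    rw [hf, map_sum]
    refine Finset.sum_congr rfl fun j _ => ?_
    rw [map_mul, evGL, MvPolynomial.aeval_X, MvPolynomial.aeval_C]
    rfl
  have h2 := eq_of_isConn hS h1 f ?_ g hg
  · rw [hev, hev] at h2
    rw [h2, Units.val_one, Matrix.one_mulVec]
  · refine Set.Finite.subset (hv.image fun u => u i) ?_
    rintro _ ⟨g, hg, rfl⟩
    exact ⟨_, ⟨g, hg, rfl⟩, (hev g).symm⟩

end Pool.Agent.Helper79.HG
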