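import Pool.Agent.Helper88.MT.Final
import Pool.Agent.Helper79.HG.StatEq

/-!
# HG-23: integral vectors of given norm in a positive definite space
-/

namespace Pool.Agent.Helper79.HG

open Matrix Module Pool.Agent.Helper88.MT

variable {r : ℕ} {ψ : Matrix (Fin r) (Fin r) ℤ} {N : Submodule ℚ (Fin r → ℚ)}

theorem bil_rv (ψ : Matrix (Fin r) (Fin r) ℤ) (u v : Fin r → ℤ) :
    bil (ψ.map (Int.cast : ℤ → ℚ)) (rv u) (rv v) = ((u ⬝ᵥ (ψ *ᵥ v) : ℤ) : ℚ) := by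
  simp [bil, rv, mulVec, dotProduct]

theorem cauchy_schwarz {ψ : Matrix (Fin r) (Fin r) ℚ} (hψ : ψᵀ = ψ)
    (hpos : ∀ v ∈ N, v ≠ 0 → 0 < bil ψ v v) {u w : Fin r → ℚ} (hu : u ∈ N) (hw : w ∈ N) :
    bil ψ u w ^ 2 ≤ bil ψ u u * bil ψ w w := by
  by_cases hw0 : w = 0
  · rw [hw0]
    unfold bil
    simp
  have h1 : 0 < bil ψ w w := hpos w hw hw0
  have h2 : ∀ v ∈ N, 0 ≤ bil ψ v v := by
    intro v hv
    by_cases hv0 : v = 0
    · rw [hv0]
      unfold bil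
      simp
    · exact (hpos v hv hv0).le
  have h3 := h2 (bil ψ w w • u - bil ψ u w • w) (N.sub_mem (N.smul_mem _ hu) (N.smul_mem _ hw))
  simp only [bil_sub_left, bil_sub_right, bil_smul_left, bil_smul_right] at h3
  rw [bil_symm hψ w u] at h3
  have h4 : 0 ≤ bil ψ w w * (bil ψ u u * bil ψ w w - bil ψ u w ^ 2) := by
    linear_combination h3
  have h5 := nonneg_of_mul_nonneg_right h4 h1
  linarith

/-- Integral generators of a rational space. -/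
theorem exists_int_span (N : Submodule ℚ (Fin r → ℚ)) :
    ∃ (s : ℕ) (w : Fin s → Fin r → ℤ), (∀ j, rv (w j) ∈ N) ∧
      Submodule.span ℚ (Set.range fun j => rv (w j)) = N := by
  classical
  let b := finBasis ℚ N
  choose m hm w hw using fun j => exists_integral ((b j : N) : Fin r → ℚ)
  have h1 : ∀ j, rv (w j) = (m j : ℚ) • ((b j : N) : Fin r → ℚ) := by
    intro j
    funext i
    rw [Pi.smul_apply, smul_eq_mul]
    exact hw j i
  refine ⟨_, w, fun j => ?_, le_antisymm ?_ ?_⟩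
  · rw [h1]
    exact N.smul_mem _ (b j).2
  · rw [Submodule.span_le]
    rintro _ ⟨j, rfl⟩
    change rv (w j) ∈ N
    rw [h1]
    exact N.smul_mem _ (b j).2
  · intro v hv
    have h2 : (⟨v, hv⟩ : N) ∈ Submodule.span ℚ (Set.range b) := by
      rw [b.span_eq]
      exact Submodule.mem_top
    have h3 := Submodule.mem_map_of_mem (f := N.subtype) h2
    rw [Submodule.map_span] at h3
    refine Submodule.span_le.2 ?_ h3
    rintro _ ⟨_, ⟨j, rfl⟩, rfl⟩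
    change ((b j : N) : Fin r → ℚ) ∈ Submodule.span ℚ (Set.range fun j => rv (w j))
    have h4 : ((b j : N) : Fin r → ℚ) = (m j : ℚ)⁻¹ • rv (w j) := by
      rw [h1, smul_smul, inv_mul_cancel₀ (by exact_mod_cast hm j), one_smul]
    rw [h4]
    exact Submodule.smul_mem _ _ (Submodule.subset_span ⟨j, rfl⟩)

/-- There are only finitely many integral vectors of given norm. -/
theorem finite_norm (hψ : ψᵀ = ψ) (hpos : ∀ v ∈ N, v ≠ 0 → 0 < bil (ψ.map (Int.cast : ℤ → ℚ)) v v)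
    (c : ℚ) : {u : Fin r → ℤ | rv u ∈ N ∧ bil (ψ.map (Int.cast : ℤ → ℚ)) (rv u) (rv u) = c}.Finite := by
  classical
  set Ψ := ψ.map (Int.cast : ℤ → ℚ) with hΨ
  have hΨs : Ψᵀ = Ψ := by rw [hΨ, ← Matrix.transpose_map, hψ]
  obtain ⟨s, w, hw, hspan⟩ := exists_int_span N
  -- a bound for the values
  obtain ⟨B, hB⟩ : ∃ B : ℤ, ∀ j, c * bil Ψ (rv (w j)) (rv (w j)) ≤ (B : ℚ) ^ 2 ∧ 0 ≤ B := by
    have h1 : ∀ j, ∃ B : ℕ, c * bil Ψ (rv (w j)) (rv (w j)) ≤ (B : ℚ) := fun j => exists_nat_ge _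
    choose B hB using h1
    refine ⟨((∑ j, B j : ℕ) : ℤ), fun j => ⟨?_, by positivity⟩⟩
    refine (hB j).trans ?_
    have h2 : B j ≤ ∑ j, B j := Finset.single_le_sum (fun _ _ => Nat.zero_le _) (Finset.mem_univ j)
    have h3 : B j ≤ (∑ j, B j) ^ 2 := by
      rcases Nat.eq_zero_or_pos (∑ j, B j) with h | h
      · omega
      · nlinarith
    exact_mod_cast h3
  have h1 : {u : Fin r → ℤ | rv u ∈ N ∧ bil Ψ (rv u) (rv u) = c}.InjOn
      (fun u j => u ⬝ᵥ (ψ *ᵥ w j)) := by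
    rintro u ⟨hu, -⟩ u' ⟨hu', -⟩ h
    have h2 : ∀ v ∈ N, bil Ψ (rv u - rv u') v = 0 := by
      intro v hv
      rw [← hspan] at hv
      induction hv using Submodule.span_induction with
      | mem v hv =>
        obtain ⟨j, rfl⟩ := hv
        have h3 := congrFun h j
        change bil Ψ (rv u - rv u') (rv (w j)) = 0
        rw [bil_sub_left, bil_rv, bil_rv]
        change ((u ⬝ᵥ (ψ *ᵥ w j) : ℤ) : ℚ) - _ = 0
        rw [sub_eq_zero]
        exact_mod_cast h3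
      | zero =>
        unfold bil
        simp
      | add v v' _ _ h h' => rw [bil_add_right, h, h', add_zero]
      | smul a v _ h => rw [bil_smul_right, h, mul_zero]
    have h4 : rv u - rv u' = 0 := by
      by_contra hne
      have h5 := hpos _ (N.sub_mem hu hu') hne
      rw [h2 _ (N.sub_mem hu hu')] at h5
      exact lt_irrefl _ h5
    funext i
    have h6 := congrFun (sub_eq_zero.1 h4) i
    change ((u i : ℤ) : ℚ) = ((u' i : ℤ) : ℚ) at h6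
    exact_mod_cast h6
  refine Set.Finite.of_injOn (t := Set.pi Set.univ fun _ : Fin s => Set.Icc (-B) B) ?_ h1
    (Set.Finite.pi fun _ => Set.finite_Icc _ _)
  rintro u ⟨hu, huc⟩
  rw [Set.mem_pi]
  intro j _
  have h7 := cauchy_schwarz (N := N) hΨs hpos hu (hw j)
  rw [huc, bil_rv] at h7
  have h8 : (((u ⬝ᵥ (ψ *ᵥ w j) : ℤ) : ℚ)) ^ 2 ≤ (B : ℚ) ^ 2 := h7.trans (hB j).1
  have h9 : (u ⬝ᵥ (ψ *ᵥ w j)) ^ 2 ≤ B ^ 2 := by exact_mod_cast h8
  rw [Set.mem_Icc]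
  exact abs_le.1 (abs_le_of_sq_le_sq h9 (hB j).2)

variable {ℓ : ℕ} [Fact ℓ.Prime]

/-- An isometry which permutes the integral vectors of `N` and is congruent to a matrix fixing them fixes them. -/
theorem exists_level_fix (hψ : ψᵀ = ψ)
    (hpos : ∀ v ∈ N, v ≠ 0 → 0 < bil (ψ.map (Int.cast : ℤ → ℚ)) v v) :
    ∃ k₁ : ℕ, ∀ k, k₁ ≤ k → ∀ g : Matrix (Fin r) (Fin r) ℤ_[ℓ],
      gᵀ * ψ.map (Int.cast : ℤ → ℤ_[ℓ]) * g = ψ.map (Int.cast : ℤ → ℤ_[ℓ]) →
      (∀ v : Fin r → ℤ, rv v ∈ N → ∃ u : Fin r → ℤ, rv u ∈ N ∧ g *ᵥ lv ℓ v = lv ℓ u) →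
      ∀ γ : Matrix (Fin r) (Fin r) ℤ, (∀ v : Fin r → ℤ, rv v ∈ N → γ *ᵥ v = v) →
      (∀ i j, PadicInt.toZModPow k (g i j) = ((γ i j : ℤ) : ZMod (ℓ ^ k))) →
      ∀ v : Fin r → ℤ, rv v ∈ N → g *ᵥ lv ℓ v = lv ℓ v := by
  classical
  obtain ⟨s, w, hw, hspan⟩ := exists_int_span N
  set A : Fin s → Set (Fin r → ℤ) := fun j => {u : Fin r → ℤ | rv u ∈ N ∧
    bil (ψ.map (Int.cast : ℤ → ℚ)) (rv u) (rv u) = bil (ψ.map (Int.cast : ℤ → ℚ)) (rv (w j)) (rv (w j))}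
    with hA
  have hAf : ∀ j, (A j).Finite := fun j => finite_norm hψ hpos _
  obtain ⟨k₁, hk₁⟩ : ∃ k₁ : ℕ, ∀ j, ∀ u ∈ A j, ∀ i, |u i - w j i| < (ℓ : ℤ) ^ k₁ := by
    have h1 : ∃ B : ℕ, ∀ j, ∀ u ∈ A j, ∀ i, |u i - w j i| ≤ (B : ℤ) := by
      refine ⟨∑ j, ∑ u ∈ (hAf j).toFinset, ∑ i, (u i - w j i).natAbs, ?_⟩
      intro j u hu i
      rw [Int.abs_eq_natAbs]
      have h2 : (u i - w j i).natAbs ≤ ∑ i, (u i - w j i).natAbs :=
        Finset.single_le_sum (f := fun i => (u i - w j i).natAbs) (fun _ _ => Nat.zero_le _)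
          (Finset.mem_univ i)
      have h3 : ∑ i, (u i - w j i).natAbs ≤ ∑ u ∈ (hAf j).toFinset, ∑ i, (u i - w j i).natAbs :=
        Finset.single_le_sum (f := fun u : Fin r → ℤ => ∑ i, (u i - w j i).natAbs)
          (fun _ _ => Nat.zero_le _) ((hAf j).mem_toFinset.2 hu)
      have h4 : ∑ u ∈ (hAf j).toFinset, ∑ i, (u i - w j i).natAbs ≤
          ∑ j, ∑ u ∈ (hAf j).toFinset, ∑ i, (u i - w j i).natAbs :=
        Finset.single_le_sum (f := fun j => ∑ u ∈ (hAf j).toFinset, ∑ i, (u i - w j i).natAbs)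
          (fun _ _ => Nat.zero_le _) (Finset.mem_univ j)
      exact_mod_cast (h2.trans h3).trans h4
    obtain ⟨B, hB⟩ := h1
    refine ⟨B, fun j u hu i => (hB j u hu i).trans_lt ?_⟩
    exact_mod_cast Nat.lt_pow_self (Fact.out : ℓ.Prime).one_lt
  refine ⟨k₁, ?_⟩
  intro k hk g hg hgN γ hγ hcong
  -- the generators are fixed
  have hfix : ∀ j, g *ᵥ lv ℓ (w j) = lv ℓ (w j) := by
    intro j
    obtain ⟨u, hu, hgu⟩ := hgN (w j) (hw j)
    have hnorm : bil (ψ.map (Int.cast : ℤ → ℤ_[ℓ])) (lv ℓ u) (lv ℓ u) =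
        bil (ψ.map (Int.cast : ℤ → ℤ_[ℓ])) (lv ℓ (w j)) (lv ℓ (w j)) := by
      rw [← hgu, bil_mulVec hg]
    have hcast : ∀ v : Fin r → ℤ, bil (ψ.map (Int.cast : ℤ → ℤ_[ℓ])) (lv ℓ v) (lv ℓ v) =
        ((v ⬝ᵥ (ψ *ᵥ v) : ℤ) : ℤ_[ℓ]) := by
      intro v
      simp [bil, lv, mulVec, dotProduct]
    have huA : u ∈ A j := by
      refine ⟨hu, ?_⟩
      rw [bil_rv, bil_rv]
      rw [hcast, hcast] at hnorm
      exact_mod_cast hnorm
    have h5 : u = w j := by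
      funext i
      have h6 : ((u i : ℤ) : ZMod (ℓ ^ k)) = ((w j i : ℤ) : ZMod (ℓ ^ k)) := by
        have h7 := congrArg (fun v : Fin r → ℤ_[ℓ] => PadicInt.toZModPow k (v i)) hgu
        change PadicInt.toZModPow k ((g *ᵥ lv ℓ (w j)) i) = PadicInt.toZModPow k ((u i : ℤ) : ℤ_[ℓ]) at h7
        rw [map_intCast, Matrix.mulVec, dotProduct, map_sum] at h7
        rw [← h7]
        have h8 := congrFun (hγ (w j) (hw j)) i
        rw [← h8, Matrix.mulVec, dotProduct, Int.cast_sum]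
        refine Finset.sum_congr rfl fun l _ => ?_
        rw [map_mul, hcong, Int.cast_mul]
        congr 1
        change PadicInt.toZModPow k ((w j l : ℤ) : ℤ_[ℓ]) = _
        rw [map_intCast]
      have h9 : ((ℓ ^ k : ℕ) : ℤ) ∣ u i - w j i := by
        rw [← ZMod.intCast_zmod_eq_zero_iff_dvd, Int.cast_sub, h6, sub_self]
      have h10 : |u i - w j i| < ((ℓ ^ k : ℕ) : ℤ) := by
        refine (hk₁ j u huA i).trans_le ?_
        exact_mod_cast Nat.pow_le_pow_right (Fact.out : ℓ.Prime).pos hk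
      have h11 := Int.eq_zero_of_abs_lt_dvd h9 h10
      linarith
    rw [hgu, h5]
  intro v hv
  -- over the `ℓ`-adic numbers
  have hQ : ∀ x ∈ N, g.map (algebraMap ℤ_[ℓ] ℚ_[ℓ]) *ᵥ (fun i => ((x i : ℚ) : ℚ_[ℓ])) =
      fun i => ((x i : ℚ) : ℚ_[ℓ]) := by
    intro x hx
    rw [← hspan] at hx
    induction hx using Submodule.span_induction with
    | mem x hx =>
      obtain ⟨j, rfl⟩ := hx
      have h12 : (fun i => (((rv (w j)) i : ℚ) : ℚ_[ℓ])) =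
          fun i => algebraMap ℤ_[ℓ] ℚ_[ℓ] (lv ℓ (w j) i) := by
        funext i
        simp [rv, lv]
      change g.map (algebraMap ℤ_[ℓ] ℚ_[ℓ]) *ᵥ (fun i => (((rv (w j)) i : ℚ) : ℚ_[ℓ])) =
        fun i => (((rv (w j)) i : ℚ) : ℚ_[ℓ])
      rw [h12]
      conv_rhs => rw [← hfix j]
      funext i
      simp [mulVec, dotProduct]
    | zero =>
      simp only [Pi.zero_apply, Rat.cast_zero]
      exact mulVec_zero _
    | add x y _ _ hx hy =>
      have h13 : (fun i => (((x + y) i : ℚ) : ℚ_[ℓ])) =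
          (fun i => ((x i : ℚ) : ℚ_[ℓ])) + fun i => ((y i : ℚ) : ℚ_[ℓ]) := by
        funext i
        simp
      rw [h13, mulVec_add, hx, hy]
    | smul c x _ hx =>
      have h13 : (fun i => (((c • x) i : ℚ) : ℚ_[ℓ])) =
          ((c : ℚ) : ℚ_[ℓ]) • (fun i => ((x i : ℚ) : ℚ_[ℓ])) := by
        funext i
        simp
      rw [h13, mulVec_smul, hx]
  funext i
  have h14 := congrFun (hQ (rv v) hv) i
  apply IsFractionRing.injective ℤ_[ℓ] ℚ_[ℓ]
  have h15 : (fun i => (((rv v) i : ℚ) : ℚ_[ℓ])) = fun i => algebraMap ℤ_[ℓ] ℚ_[ℓ] (lv ℓ v i) := by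
    funext i
    simp [rv, lv]
  have h16 := congrFun h15 i
  rw [h15] at h14
  change _ = ((rv v i : ℚ) : ℚ_[ℓ]) at h14
  rw [h16] at h14
  rw [← h14]
  simp [mulVec, dotProduct]

end Pool.Agent.Helper79.HG
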