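import Mathlib

/-!
# HG: sets of points with controlled distance from the boundary: definition
-/

namespace Pool.Agent.Helper79.HG

/-- The distance of a point `x` of `V` from the complement of `U` is at least a constant times a power of
`min (1, |T(x)|) / (1 + |x|)`. -/
def DeepW {κ : Type} [Field κ] [Algebra κ ℂ] {m : ℕ} (T : MvPolynomial (Fin m) κ)
    (U V : Set (Fin m → ℂ)) : Prop :=
  ∃ (N : ℕ) (c : ℝ), 0 < c ∧ ∀ x ∈ V, ∀ y : Fin m → ℂ,
    ‖y - x‖ * (1 + ‖x‖) ^ N ≤ c * min 1 ‖MvPolynomial.aeval x T‖ ^ N → y ∈ U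

end Pool.Agent.Helper79.HG
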