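import Pool.Agent.Helper79.DD.CountMain3
import Pool.Agent.Helper79.BB.Main
import Pool.Agent.Helper79.HG.StatW

/-!
# HG: the number of bad parameters

The proofs are those of `Pool.Agent.Helper79.DD.CountMain3`, with a weaker condition on the set `V`.
-/

open Polynomial

namespace Pool.Agent.Helper79.HG

open Pool.Agent.Helper79.BB Pool.Agent.Helper64.Per

theorem deepW_sub {κ : IntermediateField ℚ Qbar} {m : ℕ} {T : MvPolynomial (Fin m) κ}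
    {U V : Set (Fin m → ℂ)} (hV : DeepW T U V) : V ⊆ U := by
  obtain ⟨N, c, hc, h⟩ := hV
  intro x hx
  refine h x hx x ?_
  rw [sub_self, norm_zero, zero_mul]
  positivity

/-- Compact subsets are deep. -/
theorem deepW_compact {κ : IntermediateField ℚ Qbar} {m : ℕ} (T : MvPolynomial (Fin m) κ)
    {U V : Set (Fin m → ℂ)} (hU : IsOpen U) (hV : IsCompact V) (hVU : V ⊆ U) : DeepW T U V := by
  obtain ⟨δ, hδ, h⟩ := hV.exists_thickening_subset_open hU hVU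
  refine ⟨0, δ / 2, by positivity, fun x hx y hy => h ?_⟩
  rw [pow_zero, pow_zero, mul_one, mul_one] at hy
  rw [Metric.mem_thickening_iff]
  exact ⟨x, hx, by rw [dist_eq_norm]; linarith⟩

/-- A polynomial grows at most polynomially. -/
theorem exists_poly_bound {κ : IntermediateField ℚ Qbar} {m : ℕ} (R : MvPolynomial (Fin m) κ) :
    ∃ (d : ℕ) (C : ℝ), 1 ≤ C ∧ ∀ x : Fin m → ℂ, ‖MvPolynomial.aeval x R‖ ≤ C * (1 + ‖x‖) ^ d := by
  induction R using MvPolynomial.induction_on with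
  | C c =>
    refine ⟨0, 1 + ‖(algebraMap κ ℂ c)‖, by linarith [norm_nonneg (algebraMap κ ℂ c)], fun x => ?_⟩
    rw [MvPolynomial.aeval_C, pow_zero, mul_one]
    linarith
  | add p q hp hq =>
    obtain ⟨d, C, hC, h⟩ := hp
    obtain ⟨d', C', hC', h'⟩ := hq
    refine ⟨d + d', C + C', by linarith, fun x => ?_⟩
    have h1 : 1 ≤ 1 + ‖x‖ := by linarith [norm_nonneg x]
    rw [map_add]
    refine (norm_add_le _ _).trans ?_
    rw [add_mul]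
    refine add_le_add ((h x).trans ?_) ((h' x).trans ?_)
    · exact mul_le_mul_of_nonneg_left (pow_le_pow_right₀ h1 (by omega)) (by linarith)
    · exact mul_le_mul_of_nonneg_left (pow_le_pow_right₀ h1 (by omega)) (by linarith)
  | mul_X p i hp =>
    obtain ⟨d, C, hC, h⟩ := hp
    refine ⟨d + 1, C, hC, fun x => ?_⟩
    rw [map_mul, MvPolynomial.aeval_X, norm_mul, pow_succ, ← mul_assoc]
    refine mul_le_mul (h x) ?_ (norm_nonneg _) (by positivity)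
    have := norm_le_pi_norm x i
    linarith

theorem DeepW.dvd {κ : IntermediateField ℚ Qbar} {m : ℕ} {T T' : MvPolynomial (Fin m) κ}
    {U V : Set (Fin m → ℂ)} (hV : DeepW T U V) (h : T ∣ T') : DeepW T' U V := by
  obtain ⟨R, rfl⟩ := h
  obtain ⟨N, c, hc, hdeep⟩ := hV
  obtain ⟨d, C, hC, hR⟩ := exists_poly_bound R
  refine ⟨(d + 1) * N, c / C ^ N, by positivity, fun x hx y hy => hdeep x hx y ?_⟩
  have h1 : 1 ≤ 1 + ‖x‖ := by linarith [norm_nonneg x]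
  have hC0 : 0 < C := by linarith
  set τ : ℝ := min 1 ‖MvPolynomial.aeval x T‖ with hτ
  set τ' : ℝ := min 1 ‖MvPolynomial.aeval x (T * R)‖ with hτ'
  have hτ0 : 0 ≤ τ := le_min zero_le_one (norm_nonneg _)
  have hτ'0 : 0 ≤ τ' := le_min zero_le_one (norm_nonneg _)
  have hτ'1 : τ' ≤ 1 := min_le_left _ _
  have hCd : 1 ≤ C * (1 + ‖x‖) ^ d := by
    have := one_le_pow₀ h1 (n := d)
    nlinarith
  -- the comparison of the minima
  have h2 : τ' ≤ τ * (C * (1 + ‖x‖) ^ d) := by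
    rcases le_total 1 ‖MvPolynomial.aeval x T‖ with h3 | h3
    · rw [hτ, min_eq_left h3, one_mul]
      exact hτ'1.trans hCd
    · rw [hτ, min_eq_right h3]
      refine (min_le_right _ _).trans ?_
      rw [map_mul, norm_mul]
      exact mul_le_mul_of_nonneg_left (hR x) (norm_nonneg _)
  have h3 : τ' ^ ((d + 1) * N) ≤ τ ^ N * (C ^ N * (1 + ‖x‖) ^ (d * N)) := by
    calc τ' ^ ((d + 1) * N) ≤ τ' ^ N := pow_le_pow_of_le_one hτ'0 hτ'1 (by nlinarith)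
      _ ≤ (τ * (C * (1 + ‖x‖) ^ d)) ^ N := pow_le_pow_left₀ hτ'0 h2 _
      _ = _ := by rw [mul_pow, mul_pow, ← pow_mul]
  have h4 : 0 < (1 + ‖x‖) ^ (d * N) := by positivity
  have h5 : ‖y - x‖ * (1 + ‖x‖) ^ N * (1 + ‖x‖) ^ (d * N) ≤
      c * τ ^ N * (1 + ‖x‖) ^ (d * N) := by
    calc ‖y - x‖ * (1 + ‖x‖) ^ N * (1 + ‖x‖) ^ (d * N) = ‖y - x‖ * (1 + ‖x‖) ^ ((d + 1) * N) := by
          rw [mul_assoc, ← pow_add]
          congr 2
          ring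
      _ ≤ c / C ^ N * τ' ^ ((d + 1) * N) := hy
      _ ≤ c / C ^ N * (τ ^ N * (C ^ N * (1 + ‖x‖) ^ (d * N))) :=
          mul_le_mul_of_nonneg_left h3 (by positivity)
      _ = c * τ ^ N * (1 + ‖x‖) ^ (d * N) := by
          have : C ^ N ≠ 0 := by positivity
          field_simp
  exact le_of_mul_le_mul_right h5 h4

end Pool.Agent.Helper79.HG

namespace Pool.Agent.Helper79.DD

open Pool.Agent.Helper79.BB Pool.Agent.Helper79.AA Pool.Agent.Helper79.GX Pool.Agent.Helper64.Per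

section

variable {κ : IntermediateField ℚ Qbar} [FiniteDimensional ℚ κ] {J ν : Type} [Fintype J]
  [DecidableEq J] [Fintype ν] [DecidableEq ν] (ω : Module.Basis J ℚ κ) {gd : ν → ℕ × J}
  {m dg ed : ℕ} {j₀ : J} {β : Type} [Fintype β]
  [DecidableEq β] {T : MvPolynomial (Fin m) κ}
  {A : Fin m → Matrix β β (MvPolynomial (Fin m) κ)}

variable (hT : T ≠ 0) (D : UniM (fun j => ω j) gd dg ed j₀ T A) {U V : Set (Fin m → ℂ)}
  (hU : IsOpen U) (hU' : IsPreconnected U) {z : (Fin m → ℂ) → β → ℂ}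
  (hz : ∀ i, AnalyticOnNhd ℂ (fun t => z t i) U)
  (hode : ∀ t ∈ U, ∀ s i, MvPolynomial.aeval t T * pd s (fun t => z t i) t =
    ∑ l, MvPolynomial.aeval t (A s i l) * z t l)

include hT hU hU' hz hode

theorem cube_badW {δ B E : ℕ} (hδ : D.Θ.totalDegree ≤ δ)
    (hδM : ∀ i x y, (D.M i x y).totalDegree ≤ δ)
    (hbox : BoxC m (Fintype.card (D.Γ × β)) δ (6 * D.c) B E) {N : ℕ} {c₀ : ℝ}
    (hdeep : ∀ x ∈ V, ∀ y : Fin m → ℂ,
      ‖y - x‖ * (1 + ‖x‖) ^ N ≤ c₀ * min 1 ‖MvPolynomial.aeval x T‖ ^ N → y ∈ U) (hc₀ : 0 < c₀)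
    {X K : ℕ} {R η : ℝ} (hη : 0 < η) (hη1 : η < 1) (hX : 2 ≤ X) (hK : 2 ≤ K) (hKX : K ≤ X)
    (hKE : (K : ℝ) ^ E ≤ (X : ℝ) ^ (1 / 2 : ℝ)) (hKR : (K : ℝ) < R)
    (hXR : (X : ℝ) ^ (1 / 2 : ℝ) ≤ R * K)
    (hRd : ‖algebraMap κ ℂ (ω j₀)‖ / (X : ℝ) ^ (1 - η) * (2 * R) *
      (1 + X * (∑ l : Fin (ed + 1) × J, ‖algebraMap κ ℂ (ω l.2)‖) * ((X : ℝ) ^ η) ^ ed /
        (X : ℝ) ^ (1 - η)) ^ N ≤ c₀ * ((X : ℝ) ^ (-η)) ^ N)
    {a₀ : Px m dg ed J ν → ℤ} {θ : ℂ} (ha₀ : ∀ p, |a₀ p| ≤ X)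
    (hF : (∃ l, a₀ (Sum.inl l) ≠ 0) ∨ (dg = 0 ∧ θ = 0))
    (hθ : FvM (fun j => ω j) (fun p => (a₀ p : ℂ)) θ = 0) {u₀ : Fin m → ℤ}
    (hu₀ : ∀ i, |u₀ i| ≤ (X + K : ℕ)) :
    Set.ncard {v : Fin m → ℤ | (∀ i, |v i| ≤ K) ∧
      (∀ p, |shM j₀ a₀ (u₀ + v) p| ≤ X) ∧ Q4 ω D U V z η X (shM j₀ a₀ (u₀ + v)) θ} ≤
      B * K ^ (m - 1) := by
  classical
  have hx2 : (2 : ℝ) ≤ X := by exact_mod_cast hX
  have hx1 : (1 : ℝ) ≤ X := by linarith
  have hx0 : (0 : ℝ) < X := by linarith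
  have hk1 : (1 : ℝ) ≤ K := by exact_mod_cast (by omega : 1 ≤ K)
  have hR0 : 0 < R := by linarith
  set S : Set (Fin m → ℤ) := {v : Fin m → ℤ | (∀ i, |v i| ≤ K) ∧
      (∀ p, |shM j₀ a₀ (u₀ + v) p| ≤ X) ∧ Q4 ω D U V z η X (shM j₀ a₀ (u₀ + v)) θ} with hS
  rcases S.eq_empty_or_nonempty with hSe | ⟨v₁, hv₁K, hv₁X, hv₁⟩
  · rw [hSe, Set.ncard_empty]
    exact Nat.zero_le _
  set a : Px m dg ed J ν → ℤ := shM j₀ a₀ u₀ with ha
  have hshift : ∀ v, shM j₀ a₀ (u₀ + v) = shM j₀ a v := fun v => (shM_add j₀ a₀ u₀ v).symm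
  have hcast : ∀ v : Fin m → ℤ, (fun p => ((shM j₀ a v p : ℤ) : ℂ)) =
      shM j₀ (fun p => (a p : ℂ)) (ip v) := fun v => (shM_cast j₀ a v).symm
  have hpm : ∀ v : Fin m → ℤ, ptM (fun j => ω j) gd (fun p => ((shM j₀ a₀ (u₀ + v) p : ℤ) : ℂ)) θ =
      pmap (fun j => ω j) gd j₀ a θ (ip v) := by
    intro v
    rw [hshift, hcast]
    rfl
  obtain ⟨hv1, hv2, hv3, hv4, hv5, hv6⟩ := hv₁
  have hqv : denM (fun j => ω j) gd (fun p => ((shM j₀ a₀ (u₀ + v₁) p : ℤ) : ℂ)) θ =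
      denM (fun j => ω j) gd (fun p => (a p : ℂ)) θ := by
    rw [hshift, hcast, denM_shM]
  have hv2' := hv2
  rw [hqv] at hv2'
  have hq0 : denM (fun j => ω j) gd (fun p => (a p : ℂ)) θ ≠ 0 := by
    rw [← norm_pos_iff]
    have : 0 < (X : ℝ) ^ (1 - η) := by positivity
    linarith
  have hFa : (∃ l, a (Sum.inl l) ≠ 0) ∨ (dg = 0 ∧ θ = 0) := by
    rcases hF with ⟨l, hl⟩ | h0
    · exact Or.inl ⟨l, by rw [ha, shM_inl]; exact hl⟩
    · exact Or.inr h0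
  have hθa : FvM (fun j => ω j) (fun p => (a p : ℂ)) θ = 0 := by
    have h1 : (fun p => ((a p : ℤ) : ℂ)) = shM j₀ (fun p => (a₀ p : ℂ)) (ip u₀) :=
      (shM_cast j₀ a₀ u₀).symm
    rw [h1, FvM_shM]
    exact hθ
  -- the polydisc
  set w : ℝ := ‖algebraMap κ ℂ (ω j₀)‖ with hw
  set W : ℝ := ∑ l : Fin (ed + 1) × J, ‖algebraMap κ ℂ (ω l.2)‖ with hW
  have hW0 : 0 ≤ W := Finset.sum_nonneg fun _ _ => norm_nonneg _
  have hxη : 0 < (X : ℝ) ^ (1 - η) := by positivity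
  have hball : ∀ u ∈ Metric.ball (0 : Fin m → ℂ) R, pmap (fun j => ω j) gd j₀ a θ u ∈ U := by
    intro u hu
    rw [Metric.mem_ball, dist_zero_right] at hu
    set x₁ : Fin m → ℂ := pmap (fun j => ω j) gd j₀ a θ (ip v₁) with hx₁
    rw [hpm] at hv4 hv6
    refine hdeep x₁ hv4 _ ?_
    have h1 : ‖x₁‖ ≤ X * W * ((X : ℝ) ^ η) ^ ed / (X : ℝ) ^ (1 - η) := by
      rw [hx₁, ← hpm]
      refine ptM_bound (fun j => ω j) hx0.le (Real.one_le_rpow hx1 hη.le) hxη (fun p => ?_)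
        hv2.le hv3
      rw [Complex.norm_intCast]
      exact_mod_cast hv₁X p
    have h2 : ‖pmap (fun j => ω j) gd j₀ a θ u - x₁‖ ≤ w / (X : ℝ) ^ (1 - η) * (2 * R) := by
      have h3 : pmap (fun j => ω j) gd j₀ a θ u - x₁ =
          (algebraMap κ ℂ (ω j₀) / denM (fun j => ω j) gd (fun p => (a p : ℂ)) θ) •
            (u - ip v₁) := by
        rw [hx₁, pmap_eq, pmap_eq]
        funext i
        simp only [Pi.sub_apply, Pi.smul_apply, smul_eq_mul]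
        ring
      rw [h3, norm_smul, norm_div]
      refine mul_le_mul (div_le_div_of_nonneg_left (norm_nonneg _) hxη hv2'.le) ?_
        (norm_nonneg _) (by positivity)
      refine (norm_sub_le _ _).trans ?_
      have h4 : ‖ip v₁‖ ≤ K := by
        rw [pi_norm_le_iff_of_nonneg (by positivity)]
        intro i
        rw [ip, Complex.norm_intCast]
        exact_mod_cast hv₁K i
      linarith
    calc ‖pmap (fun j => ω j) gd j₀ a θ u - x₁‖ * (1 + ‖x₁‖) ^ N ≤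
          (w / (X : ℝ) ^ (1 - η) * (2 * R)) *
            (1 + X * W * ((X : ℝ) ^ η) ^ ed / (X : ℝ) ^ (1 - η)) ^ N := by
          refine mul_le_mul h2 (pow_le_pow_left₀ (by positivity) (by linarith) _)
            (by positivity) (by positivity)
      _ ≤ c₀ * ((X : ℝ) ^ (-η)) ^ N := hRd
      _ ≤ c₀ * min 1 ‖MvPolynomial.aeval x₁ T‖ ^ N := by
          refine mul_le_mul_of_nonneg_left (pow_le_pow_left₀ (by positivity) (le_min ?_ hv6.le) _) hc₀.le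
          exact Real.rpow_le_one_of_one_le_of_nonpos hx1 (by linarith)
  have hω0 : (fun j => ω j) j₀ ≠ 0 := ω.ne_zero j₀
  have hsys := pen_sys (ω := fun j => ω j) hT D hz hode hω0 hq0 hθa hball
  have hcount := hbox (ι := D.Γ × β) le_rfl K ((X : ℝ) ^ (1 / 2 : ℝ)) R hK hKE hXR _ _ _ hsys
    (fun j => (specM_degree j₀ a D.Θ j).trans hδ)
    (fun i k l j => (specM_degree j₀ a (D.M i k l) j).trans (hδM i k l)) (fun i c s hc hne => by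
      have e1 : spec i c (specM j₀ a D.Θ) = spec (dirM j₀ i) (shM j₀ a c) D.Θ :=
        spec_specM j₀ a i c D.Θ
      have e2 : ((D.M i).map (specM j₀ a)).map (spec i c) =
          (D.M i).map (spec (dirM j₀ i) (shM j₀ a c)) := by
        ext1 x y
        rw [Matrix.map_apply, Matrix.map_apply, Matrix.map_apply, spec_specM]
      rw [e1, e2]
      have h4 : 2 ≤ 4 * X := by omega
      have hac : ∀ p, |pt (dirM j₀ i) (shM j₀ a c) s p| ≤ (4 * X : ℕ) := by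
        intro p
        rw [pt_shM]
        have h5 : ∀ p, |a p| ≤ (X + (X + K) : ℕ) := fun p => shM_abs j₀ ha₀ hu₀ p
        have h6 := shM_abs j₀ h5 hc p
        refine h6.trans ?_
        exact_mod_cast (by omega : X + (X + K) + K ≤ 4 * X)
      have h7 : MvPolynomial.eval (fun p => ((pt (dirM j₀ i) (shM j₀ a c) s p : ℤ) : ℚ)) D.Θ ≠
          0 := by
        rw [specM_evalZ] at hne
        rw [pt_shM]
        exact hne
      refine gr_mono (D.growth (4 * X) h4 i (shM j₀ a c) s hac h7) (by positivity) ?_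
      have h8 : ((4 * X : ℕ) : ℝ) ≤ (X : ℝ) ^ 3 := by
        push_cast
        nlinarith [mul_nonneg hx0.le (by nlinarith : (0 : ℝ) ≤ (X : ℝ) ^ 2 - 4)]
      have h9 : ((X : ℝ) ^ (1 / 2 : ℝ)) ^ (6 * D.c) = ((X : ℝ) ^ 3) ^ D.c := by
        rw [pow_mul]
        congr 1
        rw [← Real.rpow_natCast, ← Real.rpow_mul hx0.le]
        norm_num
      rw [h9]
      exact pow_le_pow_left₀ (by positivity) h8 _)
  refine le_trans (Set.ncard_le_ncard ?_ (box_card K _ fun a ha => ha.1).1) hcount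
  rintro v ⟨hv, hvX, hq1, hq2, hq3, hq4, hq5, hq6⟩
  rw [hshift] at hq1
  refine ⟨hv, ?_, ?_⟩
  · rw [specM_evalZ]
    exact hq1
  · refine pen_bad' ω D hU hU' hz hq0 hFa hθa hball ?_ hq1 ?_
    · rw [Metric.mem_ball, dist_zero_right, pi_norm_lt_iff hR0]
      intro i
      rw [ip, Complex.norm_intCast]
      have h1 : |(v i : ℝ)| ≤ K := by exact_mod_cast hv i
      linarith
    · rw [hpm] at hq5
      exact hq5

omit hT hU hU' hz hode in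
theorem psXW (hT : T ≠ 0) (hU : IsOpen U) (hU' : IsPreconnected U) (hm : 1 ≤ m)
    (hV : HG.DeepW T U V) (j₀ : J) (l₀ : ν) : ∃ η C : ℝ, 0 < η ∧ η < 1 ∧ 0 ≤ C ∧
    ∀ (β : Type) [Fintype β] [DecidableEq β] (A : Fin m → Matrix β β (MvPolynomial (Fin m) κ))
      (D : UniM (fun j => ω j) gd dg ed j₀ T A) (z : (Fin m → ℂ) → β → ℂ),
      (∀ i, AnalyticOnNhd ℂ (fun t => z t i) U) →
      (∀ t ∈ U, ∀ s i, MvPolynomial.aeval t T * pd s (fun t => z t i) t =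
        ∑ l, MvPolynomial.aeval t (A s i l) * z t l) →
      ∀ δ B E : ℕ, D.Θ.totalDegree ≤ δ → (∀ i x y, (D.M i x y).totalDegree ≤ δ) →
      BoxC m (Fintype.card (D.Γ × β)) δ (6 * D.c) B E → ∀ X : ℕ, 1 ≤ X →
      (Set.ncard {a : Px m dg ed J ν → ℤ | (∀ p, |a p| ≤ X) ∧
        (∃ l, a (Sum.inl l) ≠ 0) ∧ ∃ θ : ℂ, FvM (fun j => ω j) (fun p => (a p : ℂ)) θ = 0 ∧
        Q4 ω D U V z η X a θ} : ℝ) ≤
      C * (B + 1) * (X : ℝ) ^ ((Fintype.card (Px m dg ed J ν) : ℝ) - 1 / (2 * (E : ℝ) + 4)) := by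
  classical
  obtain ⟨N, c₀, hc₀, hdeep⟩ := hV
  have hw : 0 < ‖algebraMap κ ℂ (ω j₀)‖ := norm_pos_iff.2 (by
    rw [Ne, map_eq_zero]
    exact ω.ne_zero j₀)
  have hW0 : 0 ≤ ∑ l : Fin (ed + 1) × J, ‖algebraMap κ ℂ (ω l.2)‖ :=
    Finset.sum_nonneg fun _ _ => norm_nonneg _
  obtain ⟨η, A₀, hη, hη1, hA₀, hpar⟩ := paramsX N ed hc₀ hw hW0
  set n : ℕ := Fintype.card (Px m dg ed J ν) with hn
  have hmn : m + 1 ≤ n := card_Px j₀ l₀
  refine ⟨η, 3 ^ n * A₀ + 3 ^ (n - m) * dg * (4 ^ m * 2), hη, hη1, by positivity, ?_⟩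
  intro β _ _ A D z hz hode δ B E hδ hδM hbox X hX1
  set ε : ℝ := 1 / (2 * (E : ℝ) + 4) with hε
  have hx1 : (1 : ℝ) ≤ X := by exact_mod_cast hX1
  have hx0 : (0 : ℝ) < X := by linarith
  have hB0 : (0 : ℝ) ≤ B := Nat.cast_nonneg _
  have hXn : 0 ≤ (X : ℝ) ^ ((n : ℝ) - ε) := by positivity
  rcases lt_or_ge ((X : ℝ) ^ ε) A₀ with hlt | hge
  · -- small `X`
    have h1 := box_card' hX1 {a : Px m dg ed J ν → ℤ | (∀ p, |a p| ≤ X) ∧
        (∃ l, a (Sum.inl l) ≠ 0) ∧ ∃ θ : ℂ, FvM (fun j => ω j) (fun p => (a p : ℂ)) θ = 0 ∧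
        Q4 ω D U V z η X a θ} fun a ha => ha.1
    refine h1.trans ?_
    have h2 : (X : ℝ) ^ n = (X : ℝ) ^ ε * (X : ℝ) ^ ((n : ℝ) - ε) := by
      rw [← Real.rpow_add hx0, ← Real.rpow_natCast]
      congr 1
      ring
    rw [mul_pow, ← hn, h2]
    have h3 : (3 : ℝ) ^ n * ((X : ℝ) ^ ε * (X : ℝ) ^ ((n : ℝ) - ε)) ≤
        3 ^ n * (A₀ * (X : ℝ) ^ ((n : ℝ) - ε)) :=
      mul_le_mul_of_nonneg_left (mul_le_mul_of_nonneg_right hlt.le hXn) (by positivity)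
    refine h3.trans ?_
    rw [← mul_assoc]
    refine mul_le_mul_of_nonneg_right ?_ hXn
    have h4 : (0 : ℝ) ≤ 3 ^ n * A₀ := by positivity
    have h5 : (0 : ℝ) ≤ 3 ^ (n - m) * dg * (4 ^ m * 2) := by positivity
    nlinarith [mul_nonneg h4 hB0, mul_nonneg h5 hB0]
  obtain ⟨K, R, hX2, hK2, hKX, hKE, hKR, hXR, hXK, hRd⟩ := hpar E X hX1 hge
  have hK0 : (0 : ℝ) < K := by exact_mod_cast (by omega : 0 < K)
  set N₄ : ℕ := (2 * (X / K) + 2) ^ m * (B * K ^ (m - 1)) with hN₄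
  have hmain : (Set.ncard {a : Px m dg ed J ν → ℤ | (∀ p, |a p| ≤ X) ∧
        (∃ l, a (Sum.inl l) ≠ 0) ∧ ∃ θ : ℂ, FvM (fun j => ω j) (fun p => (a p : ℂ)) θ = 0 ∧
        Q4 ω D U V z η X a θ} : ℝ) ≤
      (3 ^ (n - m) * dg * (4 ^ m * B * 2)) * (X : ℝ) ^ ((n : ℝ) - ε) := by
    refine pts_le (by omega) hX1 dg (N := N₄) ?_ ?_
    · have h1 : ((2 * (X / K) + 2 : ℕ) : ℝ) ≤ 4 * ((X : ℝ) / K) := by
        have h2 : ((X / K : ℕ) : ℝ) ≤ (X : ℝ) / K := Nat.cast_div_le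
        have h3 : (1 : ℝ) ≤ (X : ℝ) / K := by
          rw [le_div_iff₀ hK0, one_mul]
          exact_mod_cast hKX
        push_cast
        linarith
      have e : (X : ℝ) ^ ((m : ℝ) - ε) = (X : ℝ) ^ (m - 1) * (X : ℝ) ^ (1 - ε) := by
        rw [← Real.rpow_natCast, Nat.cast_sub hm, Nat.cast_one, ← Real.rpow_add hx0]
        congr 1
        ring
      calc (N₄ : ℝ) = ((2 * (X / K) + 2 : ℕ) : ℝ) ^ m * (B * (K : ℝ) ^ (m - 1)) := by
            rw [hN₄]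
            push_cast
            ring
        _ ≤ (4 * ((X : ℝ) / K)) ^ m * (B * (K : ℝ) ^ (m - 1)) :=
            mul_le_mul_of_nonneg_right (pow_le_pow_left₀ (by positivity) h1 _) (by positivity)
        _ = 4 ^ m * B * ((X : ℝ) ^ (m - 1) * ((X : ℝ) / K)) := by
            obtain ⟨k, rfl⟩ : ∃ k, m = k + 1 := ⟨m - 1, by omega⟩
            rw [Nat.add_sub_cancel, mul_pow, div_pow, pow_succ (K : ℝ) k]
            have hKne : (K : ℝ) ≠ 0 := hK0.ne'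
            have hKk : (K : ℝ) ^ k ≠ 0 := pow_ne_zero _ hKne
            field_simp
            ring
        _ ≤ 4 ^ m * B * ((X : ℝ) ^ (m - 1) * (2 * (X : ℝ) ^ (1 - ε))) :=
            mul_le_mul_of_nonneg_left (mul_le_mul_of_nonneg_left hXK (by positivity))
              (by positivity)
        _ = _ := by
            rw [e]
            ring
    · have h1 := count_pts ω (m := m) (dg := dg) (ed := ed) j₀ X N₄ (Q4 ω D U V z η X)
        (fun a₀ θ ha₀ hF hθ => by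
          refine cube_cover X K (B * K ^ (m - 1)) (by omega) _ (fun u hu => hu.1) fun u₀ hu₀ => ?_
          refine le_trans (Set.ncard_le_ncard ?_ (box_card K _ fun a ha => ha.1).1)
            (cube_badW ω hT D hU hU' hz hode (δ := δ) hδ hδM (fun {ι} => hbox) hdeep hc₀ hη
              hη1 hX2 hK2 hKX hKE hKR hXR hRd ha₀ (Or.inl hF) hθ hu₀)
          rintro v ⟨hv1, hv2⟩
          exact ⟨hv1, hv2.2.1, hv2.2.2⟩)
      exact_mod_cast h1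
  refine hmain.trans (mul_le_mul_of_nonneg_right ?_ hXn)
  have h4 : (0 : ℝ) ≤ 3 ^ n * A₀ := by positivity
  have h5 : (0 : ℝ) ≤ 3 ^ (n - m) * dg * (4 ^ m * 2) := by positivity
  nlinarith [mul_nonneg h4 hB0, mul_nonneg h5 hB0]

omit hT hU hU' hz hode in
theorem countXW (hT : T ≠ 0) (hU : IsOpen U) (hU' : IsPreconnected U) (hm : 1 ≤ m)
    (hdg : 1 ≤ dg) (hV : HG.DeepW T U V) (j₀ : J) {l₀ : ν} (hl₀ : (gd l₀).1 = 0) {Θ : MvPolynomial (Px m dg ed J ν) ℚ} (hΘ : Θ ≠ 0) :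
    ∃ θ₀ C : ℝ, 0 < θ₀ ∧ 0 ≤ C ∧
    ∀ (β : Type) [Fintype β] [DecidableEq β] (A : Fin m → Matrix β β (MvPolynomial (Fin m) κ))
      (D : UniM (fun j => ω j) gd dg ed j₀ T A) (z : (Fin m → ℂ) → β → ℂ), D.Θ = Θ →
      (∀ i, AnalyticOnNhd ℂ (fun t => z t i) U) →
      (∀ t ∈ U, ∀ s i, MvPolynomial.aeval t T * pd s (fun t => z t i) t =
        ∑ l, MvPolynomial.aeval t (A s i l) * z t l) →
      ∀ δ B E : ℕ, D.Θ.totalDegree ≤ δ → (∀ i x y, (D.M i x y).totalDegree ≤ δ) →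
      BoxC m (Fintype.card (D.Γ × β)) δ (6 * D.c) B E → ∀ X : ℕ, 1 ≤ X →
      (Set.ncard {a : Px m dg ed J ν → ℤ | (∀ p, |a p| ≤ X) ∧
      ∃ θ : ℂ, FvM (fun j => ω j) (fun p => (a p : ℂ)) θ = 0 ∧
      denM (fun j => ω j) gd (fun p => (a p : ℂ)) θ ≠ 0 ∧ ptM (fun j => ω j) gd (fun p => (a p : ℂ)) θ ∈ V ∧
      KBadM κ U z (ptM (fun j => ω j) gd (fun p => (a p : ℂ)) θ)} : ℝ) ≤
      C * (X : ℝ) ^ ((Fintype.card (Px m dg ed J ν) : ℝ) - θ₀) +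
      C * (B + 1) * (X : ℝ) ^ ((Fintype.card (Px m dg ed J ν) : ℝ) - 1 / (2 * (E : ℝ) + 4)) := by
  classical
  obtain ⟨η, C₄, hη, hη1, hC₄, h4⟩ := psXW ω (dg := dg) (ed := ed) hT hU hU' hm hV j₀ l₀
  have hn : 1 ≤ Fintype.card (Px m dg ed J ν) :=
    le_trans (by omega) (card_Px (m := m) (dg := dg) (ed := ed) j₀ l₀)
  have h0 := ps_zero (σ := Px m dg ed J ν) hn hΘ
  have h2 := ps_den ω (m := m) (dg := dg) (ed := ed) hl₀ hη hη1
  obtain ⟨η₁, hη₁, hη₁1, h3⟩ := ps_sub ω (gd := gd) (dg := dg) (ed := ed) hm j₀ l₀ hT hη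
  set η₂ : ℝ := min η η₁ with hη₂
  have hη₂0 : 0 < η₂ := lt_min hη hη₁
  have hη₂1 : η₂ < 1 := lt_of_le_of_lt (min_le_left _ _) hη1
  have h1 := ps_large ω (m := m) (ed := ed) (ν := ν) hdg hη₂0 hη₂1
  obtain ⟨θ₀, C₀, hθ₀, h5⟩ := ((h0.add h1).add h2).add h3
  refine ⟨θ₀, |C₀| + C₄, hθ₀, by positivity, ?_⟩
  intro β _ _ A D z hDΘ hz hode δ B E hδ hδM hbox X hX
  have hx1 : (1 : ℝ) ≤ X := by exact_mod_cast hX
  have g4 := h4 β A D z hz hode δ B E hδ hδM (fun {ι} => hbox) X hX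
  have g5 := h5 X hX
  rw [← hDΘ] at g5
  set S0 : Set (Px m dg ed J ν → ℤ) := {a | (∀ j, |a j| ≤ X) ∧
      MvPolynomial.eval (fun i => ((a i : ℤ) : ℚ)) D.Θ = 0} with hS0
  set S1 : Set (Px m dg ed J ν → ℤ) := {a | (∀ p, |a p| ≤ X) ∧
      ∃ t : ℂ, (X : ℝ) ^ η₂ ≤ ‖t‖ ∧ FvM (fun j => ω j) (fun p => (a p : ℂ)) t = 0} with hS1
  set S2 : Set (Px m dg ed J ν → ℤ) := {a | (∀ p, |a p| ≤ X) ∧
      (∃ l, a (Sum.inl l) ≠ 0) ∧ ∃ θ : ℂ, FvM (fun j => ω j) (fun p => (a p : ℂ)) θ = 0 ∧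
      ‖denM (fun j => ω j) gd (fun p => (a p : ℂ)) θ‖ ≤ (X : ℝ) ^ (1 - η)} with hS2
  set S3 : Set (Px m dg ed J ν → ℤ) := {a | (∀ p, |a p| ≤ X) ∧
      (∃ l, a (Sum.inl l) ≠ 0) ∧ ∃ θ : ℂ, FvM (fun j => ω j) (fun p => (a p : ℂ)) θ = 0 ∧
      (denM (fun j => ω j) gd (fun p => (a p : ℂ)) θ ≠ 0 ∧ ‖θ‖ ≤ (X : ℝ) ^ η₁ ∧
      ‖MvPolynomial.aeval (ptM (fun j => ω j) gd (fun p => (a p : ℂ)) θ) T‖ ≤ (X : ℝ) ^ (-η))}
    with hS3
  set S4 : Set (Px m dg ed J ν → ℤ) := {a | (∀ p, |a p| ≤ X) ∧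
      (∃ l, a (Sum.inl l) ≠ 0) ∧ ∃ θ : ℂ, FvM (fun j => ω j) (fun p => (a p : ℂ)) θ = 0 ∧
      Q4 ω D U V z η X a θ} with hS4
  have hf : ∀ S : Set (Px m dg ed J ν → ℤ), (∀ a ∈ S, ∀ p, |a p| ≤ X) → S.Finite :=
    fun S hS => (box_card X S hS).1
  have hf0 : S0.Finite := hf S0 fun a ha => ha.1
  have hf1 : S1.Finite := hf S1 fun a ha => ha.1
  have hf2 : S2.Finite := hf S2 fun a ha => ha.1
  have hf3 : S3.Finite := hf S3 fun a ha => ha.1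
  have hf4 : S4.Finite := hf S4 fun a ha => ha.1
  have hsub : {a : Px m dg ed J ν → ℤ | (∀ p, |a p| ≤ X) ∧
      ∃ θ : ℂ, FvM (fun j => ω j) (fun p => (a p : ℂ)) θ = 0 ∧
      denM (fun j => ω j) gd (fun p => (a p : ℂ)) θ ≠ 0 ∧ ptM (fun j => ω j) gd (fun p => (a p : ℂ)) θ ∈ V ∧
      KBadM κ U z (ptM (fun j => ω j) gd (fun p => (a p : ℂ)) θ)} ⊆
      (((S0 ∪ S1) ∪ S2) ∪ S3) ∪ S4 := by
    rintro a ⟨ha, θ, hθ, hq, hVθ, hbad⟩
    by_cases c0 : MvPolynomial.eval (fun i => ((a i : ℤ) : ℚ)) D.Θ = 0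
    · exact Or.inl (Or.inl (Or.inl (Or.inl ⟨ha, c0⟩)))
    by_cases c1 : ∃ t : ℂ, (X : ℝ) ^ η₂ ≤ ‖t‖ ∧
        FvM (fun j => ω j) (fun p => (a p : ℂ)) t = 0
    · exact Or.inl (Or.inl (Or.inl (Or.inr ⟨ha, c1⟩)))
    have hF : ∃ l, a (Sum.inl l) ≠ 0 := by
      by_contra hcon
      push Not at hcon
      apply c1
      refine ⟨(((X : ℝ) ^ η₂ : ℝ) : ℂ), ?_, ?_⟩
      · rw [Complex.norm_real, Real.norm_of_nonneg (by positivity)]
      · unfold FvM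
        refine Finset.sum_eq_zero fun l _ => ?_
        simp only
        rw [hcon l, Int.cast_zero, zero_mul, zero_mul]
    have hθη₂ : ‖θ‖ ≤ (X : ℝ) ^ η₂ := by
      by_contra hcon
      push Not at hcon
      exact c1 ⟨θ, hcon.le, hθ⟩
    have hθη : ‖θ‖ ≤ (X : ℝ) ^ η :=
      hθη₂.trans (Real.rpow_le_rpow_of_exponent_le hx1 (min_le_left _ _))
    have hθη₁ : ‖θ‖ ≤ (X : ℝ) ^ η₁ :=
      hθη₂.trans (Real.rpow_le_rpow_of_exponent_le hx1 (min_le_right _ _))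
    by_cases c2 : ‖denM (fun j => ω j) gd (fun p => (a p : ℂ)) θ‖ ≤ (X : ℝ) ^ (1 - η)
    · exact Or.inl (Or.inl (Or.inr ⟨ha, hF, θ, hθ, c2⟩))
    by_cases c3 : ‖MvPolynomial.aeval (ptM (fun j => ω j) gd (fun p => (a p : ℂ)) θ) T‖ ≤
        (X : ℝ) ^ (-η)
    · exact Or.inl (Or.inr ⟨ha, hF, θ, hθ, hq, hθη₁, c3⟩)
    push Not at c2 c3
    exact Or.inr ⟨ha, hF, θ, hθ, c0, c2, hθη, hVθ, hbad, c3⟩
  have g1 := Set.ncard_le_ncard hsub ((((hf0.union hf1).union hf2).union hf3).union hf4)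
  have g2 := Set.ncard_union_le (((S0 ∪ S1) ∪ S2) ∪ S3) S4
  have g3 := Set.ncard_union_le ((S0 ∪ S1) ∪ S2) S3
  have g4 := Set.ncard_union_le (S0 ∪ S1) S2
  have g5 := Set.ncard_union_le S0 S1
  have g6 : Set.ncard {a : Px m dg ed J ν → ℤ | (∀ p, |a p| ≤ X) ∧
      ∃ θ : ℂ, FvM (fun j => ω j) (fun p => (a p : ℂ)) θ = 0 ∧
      denM (fun j => ω j) gd (fun p => (a p : ℂ)) θ ≠ 0 ∧ ptM (fun j => ω j) gd (fun p => (a p : ℂ)) θ ∈ V ∧
      KBadM κ U z (ptM (fun j => ω j) gd (fun p => (a p : ℂ)) θ)} ≤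
      S0.ncard + S1.ncard + S2.ncard + S3.ncard + S4.ncard := by omega
  have g7 : (Set.ncard {a : Px m dg ed J ν → ℤ | (∀ p, |a p| ≤ X) ∧
      ∃ θ : ℂ, FvM (fun j => ω j) (fun p => (a p : ℂ)) θ = 0 ∧
      denM (fun j => ω j) gd (fun p => (a p : ℂ)) θ ≠ 0 ∧ ptM (fun j => ω j) gd (fun p => (a p : ℂ)) θ ∈ V ∧
      KBadM κ U z (ptM (fun j => ω j) gd (fun p => (a p : ℂ)) θ)} : ℝ) ≤
      (S0.ncard : ℝ) + S1.ncard + S2.ncard + S3.ncard + S4.ncard := by exact_mod_cast g6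
  have hY0 : 0 ≤ (X : ℝ) ^ ((Fintype.card (Px m dg ed J ν) : ℝ) - θ₀) := by positivity
  have hY1 : 0 ≤ (X : ℝ) ^ ((Fintype.card (Px m dg ed J ν) : ℝ) - 1 / (2 * (E : ℝ) + 4)) := by
    positivity
  have hB0 : (0 : ℝ) ≤ (B : ℝ) + 1 := by positivity
  refine g7.trans ?_
  have g8 : C₀ * (X : ℝ) ^ ((Fintype.card (Px m dg ed J ν) : ℝ) - θ₀) ≤
      |C₀| * (X : ℝ) ^ ((Fintype.card (Px m dg ed J ν) : ℝ) - θ₀) :=
    mul_le_mul_of_nonneg_right (le_abs_self _) hY0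
  have g9 : 0 ≤ |C₀| * ((B + 1) *
      (X : ℝ) ^ ((Fintype.card (Px m dg ed J ν) : ℝ) - 1 / (2 * (E : ℝ) + 4))) := by positivity
  have g10 : 0 ≤ C₄ * (X : ℝ) ^ ((Fintype.card (Px m dg ed J ν) : ℝ) - θ₀) := by positivity
  linarith

end

end Pool.Agent.Helper79.DD
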