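import Mathlib

/-!
# HG-04: the field of rational functions in `t` and the minimal equation of `w`

Proofs. `K₀ = IntermediateField.adjoin κ (Set.range t)`, `R = MvPolynomial (Fin m) κ`.
* `mem_adjoin_iff`: the set of the quotients `P(t)/Q(t)`, `Q(t) ≠ 0`, is a subfield containing `κ` and the `t j`
  (`IntermediateField.adjoin_induction`), and conversely.
* `exists_denom`: common denominator of a finite family (product of the denominators), times `T₀`; `T ≠ 0` as `T(t) ≠ 0`
  (`ht` injective).
* `exists_deg`: `R` is a unique factorization domain, so it is integrally closed, and `K₀` is its fraction field for the algebra structure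
  given by `aeval t` (`ht` and `mem_adjoin_iff`). `w` is integral over `R` by the equation `hw` (`μ > 0`, as `1 ≠ 0`), so the
  minimal polynomial of `w` over `K₀` has coefficients in `R` (`minpoly.isIntegrallyClosed_eq_field_fractions`). It is
  monic: this is the equation `f'`.
-/

open MvPolynomial

namespace Pool.Agent.Helper79.HG

variable {κ 𝓜 : Type} [Field κ] [CharZero κ] [Field 𝓜] [Algebra κ 𝓜] {m : ℕ} {t : Fin m → 𝓜}

theorem mem_adjoin_iff {x : 𝓜} : x ∈ IntermediateField.adjoin κ (Set.range t) ↔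
    ∃ P Q : MvPolynomial (Fin m) κ, aeval t Q ≠ 0 ∧ x = aeval t P / aeval t Q := by
  rw [IntermediateField.mem_adjoin_range_iff]
  constructor
  · rintro ⟨r, s, rfl⟩
    by_cases hs : aeval t s = 0
    · refine ⟨0, 1, by simp, ?_⟩
      rw [hs, div_zero, map_zero, zero_div]
    · exact ⟨r, s, hs, rfl⟩
  · rintro ⟨P, Q, -, rfl⟩
    exact ⟨P, Q, rfl⟩

theorem exists_denom (ht : AlgebraicIndependent κ t) {S : Type} [Fintype S] (x : S → 𝓜)
    (hx : ∀ s, x s ∈ IntermediateField.adjoin κ (Set.range t)) {T₀ : MvPolynomial (Fin m) κ} (hT₀ : T₀ ≠ 0) :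
    ∃ (T : MvPolynomial (Fin m) κ) (B : S → MvPolynomial (Fin m) κ), T ≠ 0 ∧ T₀ ∣ T ∧
      ∀ s, aeval t T * x s = aeval t (B s) := by
  classical
  have h : ∀ s, ∃ P Q : MvPolynomial (Fin m) κ, aeval t Q ≠ 0 ∧ x s = aeval t P / aeval t Q :=
    fun s => mem_adjoin_iff.1 (hx s)
  choose P Q hQ hxs using h
  have hQ0 : ∀ s, Q s ≠ 0 := by
    intro s h0
    apply hQ s
    rw [h0, map_zero]
  refine ⟨T₀ * ∏ s, Q s, fun s => T₀ * (P s * ∏ s' ∈ Finset.univ.erase s, Q s'),
    mul_ne_zero hT₀ (Finset.prod_ne_zero_iff.2 fun s _ => hQ0 s), Dvd.intro _ rfl, fun s => ?_⟩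
  rw [← Finset.mul_prod_erase Finset.univ Q (Finset.mem_univ s), hxs s]
  simp only [map_mul]
  have := hQ s
  field_simp

open scoped IntermediateField.algebraAdjoinAdjoin in
private theorem dg_aux (ht : AlgebraicIndependent κ t) {w : 𝓜}
    (hw : IsIntegral (Algebra.adjoin κ (Set.range t)) w) :
    minpoly (IntermediateField.adjoin κ (Set.range t)) w =
      (minpoly (Algebra.adjoin κ (Set.range t)) w).map
        (algebraMap (Algebra.adjoin κ (Set.range t))
          (IntermediateField.adjoin κ (Set.range t))) := by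
  have : IsIntegrallyClosed (Algebra.adjoin κ (Set.range t)) :=
    IsIntegrallyClosed.of_equiv ht.aevalEquiv.toRingEquiv
  exact minpoly.isIntegrallyClosed_eq_field_fractions' _ hw

private theorem dg_deg (ht : AlgebraicIndependent κ t) {w : 𝓜}
    (hw : IsIntegral (Algebra.adjoin κ (Set.range t)) w) :
    (minpoly (IntermediateField.adjoin κ (Set.range t)) w).natDegree =
      (minpoly (Algebra.adjoin κ (Set.range t)) w).natDegree := by
  rw [dg_aux ht hw]
  exact (minpoly.monic hw).natDegree_map _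

private theorem dg_int (ht : AlgebraicIndependent κ t) {w : 𝓜} {μ : ℕ}
    (f : Fin μ → MvPolynomial (Fin m) κ)
    (hw : w ^ μ = ∑ l : Fin μ, aeval t (f l) * w ^ (l : ℕ)) :
    IsIntegral (Algebra.adjoin κ (Set.range t)) w := by
  refine ⟨Polynomial.X ^ μ - ∑ l : Fin μ, Polynomial.C (ht.aevalEquiv (f l)) *
    Polynomial.X ^ (l : ℕ), Polynomial.monic_X_pow_sub (Polynomial.degree_sum_fin_lt _), ?_⟩
  rw [Polynomial.eval₂_sub, Polynomial.eval₂_pow, Polynomial.eval₂_X, Polynomial.eval₂_finset_sum,
    hw, sub_eq_zero]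
  refine Finset.sum_congr rfl fun l _ => ?_
  rw [Polynomial.eval₂_mul, Polynomial.eval₂_C, Polynomial.eval₂_pow, Polynomial.eval₂_X,
    ht.algebraMap_aevalEquiv]

theorem exists_deg (ht : AlgebraicIndependent κ t) {w : 𝓜} {μ : ℕ} (f : Fin μ → MvPolynomial (Fin m) κ)
    (hw : w ^ μ = ∑ l : Fin μ, aeval t (f l) * w ^ (l : ℕ)) :
    IsIntegral (IntermediateField.adjoin κ (Set.range t)) w ∧
    ∃ f' : Fin (minpoly (IntermediateField.adjoin κ (Set.range t)) w).natDegree →
      MvPolynomial (Fin m) κ,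
      w ^ (minpoly (IntermediateField.adjoin κ (Set.range t)) w).natDegree =
        ∑ l, aeval t (f' l) * w ^ (l : ℕ) := by
  classical
  have hA : IsIntegral (Algebra.adjoin κ (Set.range t)) w := dg_int ht f hw
  have hdeg := dg_deg ht hA
  refine ⟨?_, ?_⟩
  · obtain ⟨p, hp, hpw⟩ := hA
    refine ⟨p.map (Subalgebra.inclusion
      (IntermediateField.algebra_adjoin_le_adjoin κ (Set.range t))).toRingHom, hp.map _, ?_⟩
    rw [Polynomial.eval₂_map]
    exact hpw
  · rw [hdeg]
    set p := minpoly (Algebra.adjoin κ (Set.range t)) w with hpdef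
    have hmon : p.Monic := minpoly.monic hA
    have h0 : Polynomial.aeval w p = 0 := minpoly.aeval _ _
    refine ⟨fun l => -(ht.aevalEquiv.symm (p.coeff l)), ?_⟩
    rw [Polynomial.aeval_eq_sum_range, Finset.sum_range_succ, hmon.coeff_natDegree, one_smul] at h0
    have h1 : ∀ a : Algebra.adjoin κ (Set.range t), aeval t (ht.aevalEquiv.symm a) = (a : 𝓜) := by
      intro a
      have := ht.algebraMap_aevalEquiv (ht.aevalEquiv.symm a)
      rw [AlgEquiv.apply_symm_apply] at this
      exact this.symm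
    have h2 : ∑ l : Fin p.natDegree, aeval t (-(ht.aevalEquiv.symm (p.coeff l))) * w ^ (l : ℕ) =
        -∑ i ∈ Finset.range p.natDegree, p.coeff i • w ^ i := by
      rw [← Finset.sum_neg_distrib, Finset.sum_range]
      refine Finset.sum_congr rfl fun l _ => ?_
      rw [map_neg, h1, neg_mul]
      rfl
    rw [h2]
    linear_combination h0

end Pool.Agent.Helper79.HG
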