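import Mathlib

/-!
# HG-03: derivations and algebraic extensions

Proofs. `x ∈ L` is algebraic over `K₀`; let `p` be its minimal polynomial over `K₀`. For a derivation `D` of `𝓜` with `D K₀ ⊆ K₀` and any
`y ∈ 𝓜` and `g ∈ K₀[X]` one has `D (g(y)) = g^D (y) + g'(y) D y`, where `g^D` has the coefficients `D g_j` (induction over `g`,
or `Derivation.leibniz_pow` and sums). So `0 = p^D(x) + p'(x) D x` and `p'(x) ≠ 0` (characteristic zero: `p` is separable), so
`D x = - p^D(x) / p'(x) ∈ K₀(x) ⊆ L`: `der_mem`. For `σ : L →ₐ[K₀] 𝓜`: `p(σ x) = 0`, `p'(σ x) = σ (p'(x)) ≠ 0`, so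
`D (σ x) = - p^D(σ x) / p'(σ x) = σ (- p^D(x) / p'(x)) = σ (D x)`: `der_comm_hom`.
`der_adjoin`: the elements of `adjoin κ (range t)` are quotients of polynomials in the `t j`
(`IntermediateField.adjoin_induction`: closed under sums, products and inverses, `D (x⁻¹) = - x⁻² D x`).
-/

open Polynomial

namespace Pool.Agent.Helper79.HG

variable {κ 𝓜 : Type} [Field κ] [CharZero κ] [Field 𝓜] [Algebra κ 𝓜]

theorem der_adjoin {m : ℕ} {t : Fin m → 𝓜} (D : Derivation κ 𝓜 𝓜)
    (hD : ∀ j, D (t j) ∈ IntermediateField.adjoin κ (Set.range t)) :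
    ∀ x ∈ IntermediateField.adjoin κ (Set.range t), D x ∈ IntermediateField.adjoin κ (Set.range t) := by
  intro x hx
  induction hx using IntermediateField.adjoin_induction with
  | mem x hx =>
    obtain ⟨j, rfl⟩ := hx
    exact hD j
  | algebraMap x =>
    rw [Derivation.map_algebraMap]
    exact zero_mem _
  | add x y hx hy h1 h2 =>
    rw [map_add]
    exact add_mem h1 h2
  | inv x hx h1 =>
    rw [Derivation.leibniz_inv]
    rw [smul_eq_mul]
    exact mul_mem (neg_mem (pow_mem (inv_mem hx) 2)) h1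
  | mul x y hx hy h1 h2 =>
    rw [Derivation.leibniz, smul_eq_mul, smul_eq_mul]
    exact add_mem (mul_mem hx h2) (mul_mem hy h1)

private theorem aux_poly (D : Derivation κ 𝓜 𝓜) (K₀ : IntermediateField κ 𝓜) (hK : ∀ x ∈ K₀, D x ∈ K₀)
    (g : K₀[X]) : ∃ h : K₀[X], ∀ y : 𝓜, D (aeval y g) = aeval y h + aeval y (derivative g) * D y := by
  induction g using Polynomial.induction_on' with
  | add p q hp hq =>
    obtain ⟨hp', hp⟩ := hp
    obtain ⟨hq', hq⟩ := hq
    refine ⟨hp' + hq', fun y => ?_⟩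
    rw [map_add, map_add, hp, hq, map_add, derivative_add, map_add]
    ring
  | monomial n a =>
    refine ⟨monomial n ⟨D a, hK a a.2⟩, fun y => ?_⟩
    rw [derivative_monomial, aeval_monomial, aeval_monomial, aeval_monomial, Derivation.leibniz,
      Derivation.leibniz_pow]
    simp only [smul_eq_mul, nsmul_eq_mul, map_mul, map_natCast]
    have h1 : (algebraMap K₀ 𝓜) ⟨D a, hK a a.2⟩ = D (a : 𝓜) := rfl
    have h2 : (algebraMap K₀ 𝓜) a = (a : 𝓜) := rfl
    rw [h1, h2]
    ring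

private theorem aux_ne (K₀ : IntermediateField κ 𝓜)
    (L : IntermediateField K₀ 𝓜) [Algebra.IsAlgebraic K₀ L] (σ : L →ₐ[K₀] 𝓜) (x : L) :
    aeval (σ x) (derivative (minpoly K₀ x)) ≠ 0 := by
  have hint : IsIntegral K₀ x := Algebra.IsIntegral.isIntegral x
  have : CharZero K₀ := charZero_of_injective_algebraMap (algebraMap κ K₀).injective
  have hsep : (minpoly K₀ x).Separable := (minpoly.irreducible hint).separable
  have h0 : aeval (σ x) (minpoly K₀ x) = 0 := by
    rw [aeval_algHom_apply, minpoly.aeval, map_zero]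
  exact hsep.aeval_derivative_ne_zero h0

theorem der_mem (D : Derivation κ 𝓜 𝓜) (K₀ : IntermediateField κ 𝓜) (hK : ∀ x ∈ K₀, D x ∈ K₀)
    (L : IntermediateField K₀ 𝓜) [Algebra.IsAlgebraic K₀ L] : ∀ x ∈ L, D x ∈ L := by
  intro x hx
  obtain ⟨h, hh⟩ := aux_poly D K₀ hK (minpoly K₀ (⟨x, hx⟩ : L))
  have h1 := hh x
  have h2 := aux_ne K₀ L L.val ⟨x, hx⟩
  have h3 : L.val ⟨x, hx⟩ = x := rfl
  rw [h3] at h2
  have h0 : aeval x (minpoly K₀ (⟨x, hx⟩ : L)) = 0 := by
    have := aeval_algHom_apply L.val (⟨x, hx⟩ : L) (minpoly K₀ (⟨x, hx⟩ : L))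
    rw [minpoly.aeval, map_zero, h3] at this
    exact this
  rw [h0, map_zero] at h1
  have h4 : D x = - aeval x h / aeval x (derivative (minpoly K₀ (⟨x, hx⟩ : L))) := by
    rw [eq_div_iff h2]
    linear_combination -h1
  have hmem : ∀ g : K₀[X], aeval x g ∈ L := by
    intro g
    have := aeval_algHom_apply L.val (⟨x, hx⟩ : L) g
    rw [h3] at this
    rw [this]
    exact (aeval (⟨x, hx⟩ : L) g).2
  rw [h4]
  exact div_mem (neg_mem (hmem h)) (hmem _)

theorem der_comm_hom (D : Derivation κ 𝓜 𝓜) (K₀ : IntermediateField κ 𝓜) (hK : ∀ x ∈ K₀, D x ∈ K₀)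
    (L : IntermediateField K₀ 𝓜) [Algebra.IsAlgebraic K₀ L] (σ : L →ₐ[K₀] 𝓜) (x : L) :
    D (σ x) = σ ⟨D x, der_mem D K₀ hK L x x.2⟩ := by
  obtain ⟨h, hh⟩ := aux_poly D K₀ hK (minpoly K₀ x)
  have h1 := hh (x : 𝓜)
  have h1' := hh (σ x)
  have h2 := aux_ne K₀ L σ x
  have hval : ∀ g : K₀[X], aeval (x : 𝓜) g = L.val (aeval x g) := fun g =>
    aeval_algHom_apply L.val x g
  have hσ : ∀ g : K₀[X], aeval (σ x) g = σ (aeval x g) := fun g =>
    aeval_algHom_apply σ x g
  rw [hval, hval, hval, minpoly.aeval, map_zero, map_zero] at h1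
  rw [hσ, hσ, hσ, minpoly.aeval, map_zero, map_zero] at h1'
  rw [hσ] at h2
  have h5 : aeval x h + aeval x (derivative (minpoly K₀ x)) * ⟨D x, der_mem D K₀ hK L x x.2⟩ = 0 := by
    apply Subtype.ext
    exact h1.symm
  have h6 := congrArg σ h5
  rw [map_add, map_mul, map_zero] at h6
  have h7 : σ (aeval x (derivative (minpoly K₀ x))) * D (σ x) =
      σ (aeval x (derivative (minpoly K₀ x))) * σ ⟨D x, der_mem D K₀ hK L x x.2⟩ := by
    linear_combination -h1' - h6
  exact mul_left_cancel₀ h2 h7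

end Pool.Agent.Helper79.HG
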