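import Pool.Agent.Helper79.HG.Gal
import Pool.Agent.Helper79.HG.DerExt
import Pool.Agent.Helper79.HG.Deg
import Pool.Agent.Helper79.BB.StatM

/-!
# HG-05: a family of varieties of dimension zero from algebraic functions

`z π = ∑ c_a y_(π a)`; `K₀ = IntermediateField.adjoin κ (Set.range t)`, `K₁ = K₀(w)`.

Proof of `field_main`.
* `exists_deg`: `μ' = [K₁ : K₀]` and the equation `f'`.
* `Ψ` has coefficients in `κ[t, w]`; divided by `q(t, w) ≠ 0` it gives a monic polynomial over `K₁` whose image over `𝓜` is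
  `∏ (X - y a)`: `roots_perm` with `K = K₁` gives `M = deg` of the minimal polynomial `p` of `z 1` over `K₁` and `π`. (`K₁` as a field with
  `Algebra K₁ 𝓜`: for example `IntermediateField.adjoin K₀ {w}`; the type `Fin (…).natDegree` is named `Fin M` with
  `obtain ⟨M, hM⟩ : ∃ M, M = …` and `subst`.)
* `L` = the subfield `K₁(z 1)` of `𝓜`, as a type. The `w^l z^i`, `l < μ'`, `i < M`, are a basis of `L` over `K₀`
  (`PowerBasis` of `K₁ / K₀` and of `L / K₁`, `Module.Basis.smulTower`).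
* The `D i` map `K₀` to itself (`der_adjoin`; `D i (t j)` is `0` or `1`) and `L` to itself (`der_mem`). They give
  derivations of `L`. The coordinates of the `D i (w^l z^a)` in the basis are in `K₀`: `exists_denom` gives `T` (a multiple of `T₀`)
  and the matrices `A i`: `T D i (w^l z^a) = ∑ A_i,(l,a),(l',a') w^l' z^a'`. In `FunctionFormsM`: `d = 0`, `x`, `dx` on `Fin 0`, `g` arbitrary
  (functions on `Fin 0`), `indep` is `ht` (reindexed: `Fin m ⊕ Fin 0`), `finite`: `L` is of finite dimension over `K₀`, `ind`: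
  linear independence of the basis and `T(t) ≠ 0`-injectivity of `aeval t`.
* The equations for `b`: let `σ : L →ₐ[K₁] 𝓜` with `σ (z 1) = z (π b)` (a root of the minimal polynomial `p` of `z 1` over `K₁`:
  `IntermediateField.algHomAdjoinIntegralEquiv` or `PowerBasis.lift`); apply `σ` to the equation of `D i (w^l (z 1)^a)` in `L` and
  use `der_comm_hom` (for `K₀`): `D i (σ x) = σ (D i x)`.
* Last property: the coefficients of `p` are in `K₁`, hence quotients `P_j(t, w) / S(t, w)` with a common denominator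
  `S(t, w) ≠ 0` (`K₁ = K₀[w]`, `mem_adjoin_iff`; even `S ∈ κ[t]`). `Q = ∑ P_j(t, w) Z^j` vanishes at `z 1`, so at `z π'`,
  so `p(z π') = 0` and `roots_perm` gives `b`.
-/

open MvPolynomial

namespace Pool.Agent.Helper79.HG

open Pool.Agent.Helper79.BB

section core

variable {κ 𝓜 : Type} [Field κ] [CharZero κ] [Field 𝓜] [Algebra κ 𝓜] {m : ℕ}

omit [CharZero κ] in
/-- restriction of a derivation to a stable intermediate field -/
private noncomputable def resD (D : Derivation κ 𝓜 𝓜) (K₀ : IntermediateField κ 𝓜)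
    (L : IntermediateField K₀ 𝓜) (h : ∀ x ∈ L, D x ∈ L) : Derivation κ L L :=
  Derivation.mk'
    { toFun := fun x => ⟨D x, h x x.2⟩
      map_add' := fun x y => Subtype.ext (by simp)
      map_smul' := fun c x => Subtype.ext (by
        simp only [RingHom.id_apply]
        exact D.map_smul c x) }
    (fun x y => Subtype.ext (by simp))

omit [CharZero κ] in
private lemma aeval_coe {K₀ : IntermediateField κ 𝓜} (L : IntermediateField K₀ 𝓜) {σ : Type}
    (u : σ → L) (P : MvPolynomial σ κ) :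
    ((aeval u P : L) : 𝓜) = aeval (fun s => (u s : 𝓜)) P :=
  comp_aeval_apply (f := u) (L.val.restrictScalars κ) P

private lemma core (D : Fin m → Derivation κ 𝓜 𝓜) {t : Fin m → 𝓜}
    (ht : AlgebraicIndependent κ t) (hD : ∀ i j, D i (t j) = if i = j then 1 else 0)
    (L : IntermediateField (IntermediateField.adjoin κ (Set.range t)) 𝓜)
    (hL : ∀ i, ∀ x ∈ L, D i x ∈ L) {P : Type} [Fintype P] (ω : P → L)
    (hspan : ∀ x : L, ∃ k : P → 𝓜, (∀ p, k p ∈ IntermediateField.adjoin κ (Set.range t)) ∧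
      (x : 𝓜) = ∑ p, k p * (ω p : 𝓜))
    (hind : ∀ k : P → 𝓜, (∀ p, k p ∈ IntermediateField.adjoin κ (Set.range t)) →
      ∑ p, k p * (ω p : 𝓜) = 0 → ∀ p, k p = 0)
    {T₀ : MvPolynomial (Fin m) κ} (hT₀ : T₀ ≠ 0) :
    ∃ (T : MvPolynomial (Fin m) κ) (G : FunctionFormsM m κ L T 0 P), T ≠ 0 ∧ T₀ ∣ T ∧
      ∀ i p, aeval t T * D i (ω p) = ∑ p', aeval t (G.A i p p') * (ω p' : 𝓜) := by
  classical
  choose k hk hk' using fun (s : Fin m × P) => hspan ⟨D s.1 (ω s.2), hL s.1 _ (ω s.2).2⟩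
  obtain ⟨T, B, hT, hT₀T, hB⟩ := exists_denom ht (S := (Fin m × P) × P)
    (fun s => k s.1 s.2) (fun s => hk s.1 s.2) hT₀
  have hmem : ∀ j, t j ∈ IntermediateField.adjoin κ (Set.range t) :=
    fun j => IntermediateField.subset_adjoin _ _ ⟨j, rfl⟩
  set t' : Fin m → L := fun j => algebraMap (IntermediateField.adjoin κ (Set.range t)) L
    ⟨t j, hmem j⟩ with ht'
  have hco : ∀ P : MvPolynomial (Fin m) κ, ((aeval t' P : L) : 𝓜) = aeval t P := by
    intro P
    rw [aeval_coe]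
    rfl
  have hgm : ∀ i p, aeval t T * D i (ω p) = ∑ p', aeval t (B ((i, p), p')) * (ω p' : 𝓜) := by
    intro i p
    have h1 : D i (ω p) = ∑ p', k (i, p) p' * (ω p' : 𝓜) := hk' (i, p)
    rw [h1, Finset.mul_sum]
    refine Finset.sum_congr rfl fun p' _ => ?_
    rw [← mul_assoc, hB ((i, p), p')]
  refine ⟨T,
    { t := t'
      x := fun j => j.elim0
      D := fun i => resD (D i) _ L (hL i)
      dx := fun j => j.elim0
      ω := ω
      g := fun _ _ j => j.elim0
      A := fun i => Matrix.of fun p p' => B ((i, p), p')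
      indep := ?_
      finite := ?_
      D_t := ?_
      D_x := fun _ j => j.elim0
      dx_t := fun i => i.elim0
      dx_x := fun i => i.elim0
      gm := ?_
      ind := ?_ }, hT, hT₀T, hgm⟩
  · -- algebraic independence
    have h1 : AlgebraicIndependent κ t' :=
      AlgebraicIndependent.of_comp (L.val.restrictScalars κ) ht
    have h2 : Sum.elim t' (fun j : Fin 0 => (j.elim0 : L)) = t' ∘ (Equiv.sumEmpty (Fin m) (Fin 0)) := by
      funext j
      rcases j with j | j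
      · rfl
      · exact j.elim0
    rw [h2]
    exact h1.comp _ (Equiv.injective _)
  · -- finiteness
    refine Module.finite_def.2 ⟨Finset.univ.image ω, eq_top_iff.2 fun x _ => ?_⟩
    obtain ⟨c, hc, hc'⟩ := hspan x
    have hpol : ∀ Q : MvPolynomial (Fin m) κ, (aeval t' Q : L) ∈
        IntermediateField.adjoin κ (Set.range (Sum.elim t' (fun j : Fin 0 => (j.elim0 : L)))) := by
      intro Q
      refine IntermediateField.algebra_adjoin_le_adjoin _ _ ?_
      refine Algebra.adjoin_mono (s := Set.range t') ?_ ?_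
      · rintro _ ⟨j, rfl⟩
        exact ⟨Sum.inl j, rfl⟩
      · rw [Algebra.adjoin_range_eq_range_aeval]
        exact ⟨Q, rfl⟩
    have hcc : ∀ p, ∃ d : IntermediateField.adjoin κ
        (Set.range (Sum.elim t' (fun j : Fin 0 => (j.elim0 : L)))), ((d : L) : 𝓜) = c p := by
      intro p
      obtain ⟨P1, Q1, hQ1, hx1⟩ := mem_adjoin_iff.1 (hc p)
      refine ⟨⟨aeval t' P1 / aeval t' Q1, div_mem (hpol P1) (hpol Q1)⟩, ?_⟩
      rw [hx1, ← hco, ← hco]
      rfl
    choose d hd using hcc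
    have hx : x = ∑ p, d p • ω p := by
      refine Subtype.ext ?_
      rw [hc', AddSubmonoidClass.coe_finsetSum]
      refine Finset.sum_congr rfl fun p _ => ?_
      rw [← hd p]
      rfl
    rw [hx]
    refine Submodule.sum_mem _ fun p _ => Submodule.smul_mem _ _ (Submodule.subset_span ?_)
    rw [Finset.coe_image]
    exact ⟨p, by simp, rfl⟩
  · intro i j
    refine Subtype.ext ?_
    have h1 := hD i j
    change D i (t j) = _
    rw [h1]
    split_ifs <;> rfl
  · intro i p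
    refine Subtype.ext ?_
    have h1 := hgm i p
    have h2 : ∑ j : Fin 0, (j.elim0 : L) = 0 := by simp
    change ((aeval t' T : L) : 𝓜) * D i (ω p) = _
    rw [hco, h1]
    simp only [Finset.univ_eq_empty, Finset.sum_empty, add_zero, Matrix.of_apply]
    rw [AddSubmonoidClass.coe_finsetSum]
    refine Finset.sum_congr rfl fun p' _ => ?_
    rw [← hco]
    rfl
  · rintro c ⟨u, hu⟩
    funext p
    have h1 : ∑ p, aeval t (c p) * (ω p : 𝓜) = 0 := by
      have h3 := congrArg (fun x : L => (x : 𝓜)) hu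
      simp only [Finset.univ_eq_empty, Finset.sum_empty] at h3
      rw [AddSubmonoidClass.coe_finsetSum] at h3
      refine Eq.trans (Finset.sum_congr rfl fun p _ => ?_) h3
      rw [← hco]
      rfl
    have h2 := hind (fun p => aeval t (c p)) (fun p => ?_) h1 p
    · exact ht (by rw [h2, Pi.zero_apply, map_zero])
    · exact mem_adjoin_iff.2 ⟨c p, 1, by rw [map_one]; exact one_ne_zero, by
        rw [map_one, div_one]⟩

end core

theorem field_main {κ 𝓜 : Type} [Field κ] [CharZero κ] [Field 𝓜] [Algebra κ 𝓜] {m : ℕ}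
    (D : Fin m → Derivation κ 𝓜 𝓜) {t : Fin m → 𝓜} (ht : AlgebraicIndependent κ t)
    (hD : ∀ i j, D i (t j) = if i = j then 1 else 0) {w : 𝓜} {μ : ℕ}
    (f : Fin μ → MvPolynomial (Fin m) κ) (hw : w ^ μ = ∑ l : Fin μ, aeval t (f l) * w ^ (l : ℕ))
    {A : Type} [Fintype A] [DecidableEq A] (y : A → 𝓜) (hy : Function.Injective y)
    (q : MvPolynomial (Fin m ⊕ Unit) κ) (hq : aeval (Sum.elim t fun _ => w) q ≠ 0)
    (Ψ : Polynomial (MvPolynomial (Fin m ⊕ Unit) κ))
    (hΨ : Ψ.map (aeval (Sum.elim t fun _ => w) : MvPolynomial (Fin m ⊕ Unit) κ →ₐ[κ] 𝓜).toRingHom =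
      Polynomial.C (aeval (Sum.elim t fun _ => w) q) * ∏ a, (Polynomial.X - Polynomial.C (y a)))
    (c : A → ℤ) (z : Equiv.Perm A → 𝓜) (hz : ∀ π, z π = ∑ a, (c a : 𝓜) * y (π a))
    {T₀ : MvPolynomial (Fin m) κ} (hT₀ : T₀ ≠ 0) :
    ∃ (T : MvPolynomial (Fin m) κ) (μ' M : ℕ) (L : Type) (_ : Field L) (_ : Algebra κ L)
      (G : FunctionFormsM m κ L T 0 (Fin μ' × Fin M)) (π : Fin M → Equiv.Perm A)
      (f' : Fin μ' → MvPolynomial (Fin m) κ), T ≠ 0 ∧ T₀ ∣ T ∧
      w ^ μ' = ∑ l : Fin μ', aeval t (f' l) * w ^ (l : ℕ) ∧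
      (∀ i (p : Fin μ' × Fin M) (b : Fin M), aeval t T * D i (w ^ (p.1 : ℕ) * z (π b) ^ (p.2 : ℕ)) =
        ∑ p', aeval t (G.A i p p') * (w ^ (p'.1 : ℕ) * z (π b) ^ (p'.2 : ℕ))) ∧
      (∃ b₀, π b₀ = 1) ∧ Function.Injective π ∧
      ∀ π' : Equiv.Perm A, (∀ Q : MvPolynomial ((Fin m ⊕ Unit) ⊕ Unit) κ,
        aeval (Sum.elim (Sum.elim t fun _ => w) fun _ => z 1) Q = 0 →
        aeval (Sum.elim (Sum.elim t fun _ => w) fun _ => z π') Q = 0) → ∃ b, z π' = z (π b) := by
  classical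
  set K₀ : IntermediateField κ 𝓜 := IntermediateField.adjoin κ (Set.range t) with hK₀
  obtain ⟨hwint, f', hf'⟩ := exists_deg ht f hw
  set K₁ : IntermediateField K₀ 𝓜 := IntermediateField.adjoin K₀ {w} with hK₁
  have htK : ∀ j, t j ∈ K₀ := fun j => IntermediateField.subset_adjoin _ _ ⟨j, rfl⟩
  have hwK : w ∈ K₁ := IntermediateField.mem_adjoin_simple_self K₀ w
  have : CharZero K₁ := charZero_of_injective_algebraMap (algebraMap κ K₁).injective
  -- the polynomial over `K₁`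
  let t₁ : Fin m → K₁ := fun j => algebraMap K₀ K₁ ⟨t j, htK j⟩
  let w₁ : K₁ := ⟨w, hwK⟩
  let φ₁ : MvPolynomial (Fin m ⊕ Unit) κ →ₐ[κ] K₁ := aeval (Sum.elim t₁ fun _ => w₁)
  have hφ₁ : ∀ Q, ((φ₁ Q : K₁) : 𝓜) = aeval (Sum.elim t fun _ => w) Q := by
    intro Q
    have h1 := aeval_coe K₁ (Sum.elim t₁ fun _ => w₁) Q
    rw [h1]
    congr 2
    funext s
    rcases s with s | s <;> rfl
  have hΨ' : (Polynomial.C (φ₁ q)⁻¹ * Ψ.map φ₁.toRingHom).map (algebraMap K₁ 𝓜) =
      ∏ a, (Polynomial.X - Polynomial.C (y a)) := by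
    rw [Polynomial.map_mul, Polynomial.map_map, Polynomial.map_C]
    have h1 : (algebraMap K₁ 𝓜).comp φ₁.toRingHom =
        (aeval (Sum.elim t fun _ => w) : MvPolynomial (Fin m ⊕ Unit) κ →ₐ[κ] 𝓜).toRingHom :=
      RingHom.ext hφ₁
    rw [h1, hΨ, ← mul_assoc, ← Polynomial.C_mul]
    have h2 : (algebraMap K₁ 𝓜) (φ₁ q)⁻¹ * aeval (Sum.elim t fun _ => w) q = 1 := by
      rw [← hφ₁ q, map_inv₀]
      refine inv_mul_cancel₀ ?_
      have h3 : ((φ₁ q : K₁) : 𝓜) ≠ 0 := by rw [hφ₁]; exact hq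
      exact h3
    rw [h2, Polynomial.C_1, one_mul]
  obtain ⟨hzint, π, hb₀, hπinj, hroot, hall⟩ := roots_perm y hy _ hΨ' c z hz
  -- the field `L` and its basis
  let L₁ : IntermediateField K₁ 𝓜 := IntermediateField.adjoin K₁ {z 1}
  let L : IntermediateField K₀ 𝓜 := L₁.restrictScalars K₀
  let pb0 : PowerBasis K₀ K₁ := IntermediateField.adjoin.powerBasis hwint
  let pb1 : PowerBasis K₁ L₁ := IntermediateField.adjoin.powerBasis hzint
  let Bs : Module.Basis (Fin (minpoly K₀ w).natDegree × Fin (minpoly K₁ (z 1)).natDegree) K₀ L₁ :=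
    pb0.basis.smulTower pb1.basis
  have hBs : ∀ p, ((Bs p : L₁) : 𝓜) = w ^ (p.1 : ℕ) * z 1 ^ (p.2 : ℕ) := by
    intro p
    have h1 : Bs p = pb0.basis p.1 • pb1.basis p.2 := Module.Basis.smulTower_apply _ _ _
    rw [h1, PowerBasis.coe_basis, PowerBasis.coe_basis]
    rfl
  have hωL : ∀ p : Fin (minpoly K₀ w).natDegree × Fin (minpoly K₁ (z 1)).natDegree,
      w ^ (p.1 : ℕ) * z 1 ^ (p.2 : ℕ) ∈ L := by
    intro p
    rw [← hBs p]
    exact (Bs p).2
  let ω : Fin (minpoly K₀ w).natDegree × Fin (minpoly K₁ (z 1)).natDegree → L :=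
    fun p => ⟨_, hωL p⟩
  have hspan : ∀ x : L, ∃ k : Fin (minpoly K₀ w).natDegree × Fin (minpoly K₁ (z 1)).natDegree → 𝓜,
      (∀ p, k p ∈ K₀) ∧ (x : 𝓜) = ∑ p, k p * (ω p : 𝓜) := by
    intro x
    let x₁ : L₁ := ⟨x.1, x.2⟩
    refine ⟨fun p => ((Bs.repr x₁ p : K₀) : 𝓜), fun p => (Bs.repr x₁ p).2, ?_⟩
    have h1 := congrArg (fun y : L₁ => (y : 𝓜)) (Bs.sum_repr x₁)
    rw [AddSubmonoidClass.coe_finsetSum] at h1
    refine Eq.trans h1.symm (Finset.sum_congr rfl fun p _ => ?_)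
    change _ = ((Bs.repr x₁ p : K₀) : 𝓜) * (w ^ (p.1 : ℕ) * z 1 ^ (p.2 : ℕ))
    rw [← hBs p]
    rfl
  have hind : ∀ k : Fin (minpoly K₀ w).natDegree × Fin (minpoly K₁ (z 1)).natDegree → 𝓜,
      (∀ p, k p ∈ K₀) → ∑ p, k p * (ω p : 𝓜) = 0 → ∀ p, k p = 0 := by
    intro k hk h0 p
    have h1 := Fintype.linearIndependent_iff.1 Bs.linearIndependent (fun p => ⟨k p, hk p⟩) (by
      refine Subtype.ext ?_
      rw [AddSubmonoidClass.coe_finsetSum]
      refine Eq.trans (Finset.sum_congr rfl fun p _ => ?_) h0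
      change _ = k p * (w ^ (p.1 : ℕ) * z 1 ^ (p.2 : ℕ))
      rw [← hBs p]
      rfl) p
    exact congrArg (fun y : K₀ => (y : 𝓜)) h1
  have hfin : Module.Finite K₀ L := by
    refine Module.finite_def.2 ⟨Finset.univ.image ω, eq_top_iff.2 fun x _ => ?_⟩
    obtain ⟨k, hk, hx⟩ := hspan x
    have hx2 : x = ∑ p, (⟨k p, hk p⟩ : K₀) • ω p := by
      refine Subtype.ext ?_
      rw [hx, AddSubmonoidClass.coe_finsetSum]
      rfl
    rw [hx2]
    refine Submodule.sum_mem _ fun p _ => Submodule.smul_mem _ _ (Submodule.subset_span ?_)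
    rw [Finset.coe_image]
    exact ⟨p, by simp, rfl⟩
  have halg : Algebra.IsAlgebraic K₀ L := Algebra.IsAlgebraic.of_finite K₀ L
  have hK : ∀ i, ∀ x ∈ K₀, D i x ∈ K₀ := fun i => der_adjoin (D i) (fun j => by
    rw [hD]
    split_ifs
    · exact one_mem _
    · exact zero_mem _)
  obtain ⟨T, G, hT, hT₀T, hG⟩ := core D ht hD L (fun i => der_mem (D i) K₀ (hK i) L) ω
    hspan hind hT₀
  have hpol : ∀ Q : MvPolynomial (Fin m) κ, aeval t Q ∈ K₀ := fun Q =>
    mem_adjoin_iff.2 ⟨Q, 1, by rw [map_one]; exact one_ne_zero, by rw [map_one, div_one]⟩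
  have hσ : ∀ b, ∃ σ : L →ₐ[K₀] 𝓜, ∀ p, σ (ω p) = w ^ (p.1 : ℕ) * z (π b) ^ (p.2 : ℕ) := by
    intro b
    have h1 : Polynomial.aeval (z (π b)) (minpoly K₁ pb1.gen) = 0 := by
      have h2 : pb1.gen = IntermediateField.AdjoinSimple.gen K₁ (z 1) := rfl
      rw [h2, IntermediateField.minpoly_gen]
      exact hroot b
    let σ₁ : L₁ →ₐ[K₁] 𝓜 := pb1.lift (z (π b)) h1
    let σ₂ : L₁ →ₐ[K₀] 𝓜 := σ₁.restrictScalars K₀
    have h4 : ∀ p, σ₂ (Bs p) = w ^ (p.1 : ℕ) * z (π b) ^ (p.2 : ℕ) := by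
      intro p
      have h1 : Bs p = pb0.basis p.1 • pb1.basis p.2 := Module.Basis.smulTower_apply _ _ _
      rw [h1]
      change σ₁ _ = _
      rw [map_smul, PowerBasis.coe_basis, PowerBasis.coe_basis]
      simp only [map_pow]
      rw [PowerBasis.lift_gen, Algebra.smul_def, map_pow]
      rfl
    refine ⟨σ₂, fun p => ?_⟩
    rw [← h4 p]
    congr 1
    exact Subtype.ext (hBs p).symm
  refine ⟨T, (minpoly K₀ w).natDegree, (minpoly K₁ (z 1)).natDegree, L, inferInstance,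
    inferInstance, G, π, f', hT, hT₀T, hf', ?_, hb₀, ?_, ?_⟩
  · intro i p b
    obtain ⟨σ, hσ⟩ := hσ b
    have h1 := der_comm_hom (D i) K₀ (hK i) L σ (ω p)
    rw [hσ p] at h1
    rw [h1]
    have h2 : (algebraMap K₀ L ⟨aeval t T, hpol T⟩) *
        (⟨D i (ω p), der_mem (D i) K₀ (hK i) L (ω p) (ω p).2⟩ : L) =
        ∑ p', (algebraMap K₀ L ⟨aeval t (G.A i p p'), hpol _⟩) * ω p' := by
      refine Subtype.ext ?_
      rw [AddSubmonoidClass.coe_finsetSum]
      exact hG i p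
    have h3 := congrArg σ h2
    rw [map_mul, AlgHom.commutes, map_sum] at h3
    refine Eq.trans h3 (Finset.sum_congr rfl fun p' _ => ?_)
    rw [map_mul, AlgHom.commutes, hσ p']
    rfl
  · intro b b' h
    exact hπinj (by simp only; rw [h])
  · intro π' hπ'
    apply hall
    obtain ⟨T', B, hT', -, hB⟩ := exists_denom ht
      (S := Fin ((minpoly K₁ (z 1)).natDegree + 1) × Fin (minpoly K₀ w).natDegree)
      (fun s => ((pb0.basis.repr ((minpoly K₁ (z 1)).coeff s.1) s.2 : K₀) : 𝓜))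
      (fun s => (pb0.basis.repr ((minpoly K₁ (z 1)).coeff s.1) s.2).2)
      (T₀ := 1) one_ne_zero
    have hT't : aeval t T' ≠ 0 := fun h => hT' (ht (by rw [h, map_zero]))
    have hcoef : ∀ j, (((minpoly K₁ (z 1)).coeff j : K₁) : 𝓜) =
        ∑ l : Fin (minpoly K₀ w).natDegree,
          ((pb0.basis.repr ((minpoly K₁ (z 1)).coeff j) l : K₀) : 𝓜) * w ^ (l : ℕ) := by
      intro j
      have h1 := congrArg (fun y : K₁ => (y : 𝓜)) (pb0.basis.sum_repr ((minpoly K₁ (z 1)).coeff j))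
      rw [AddSubmonoidClass.coe_finsetSum] at h1
      refine Eq.trans h1.symm (Finset.sum_congr rfl fun l _ => ?_)
      rw [PowerBasis.coe_basis]
      rfl
    let Q : MvPolynomial ((Fin m ⊕ Unit) ⊕ Unit) κ :=
      ∑ j : Fin ((minpoly K₁ (z 1)).natDegree + 1), ∑ l : Fin (minpoly K₀ w).natDegree,
        rename (Sum.inl ∘ Sum.inl) (B (j, l)) * X (Sum.inl (Sum.inr ())) ^ (l : ℕ) *
          X (Sum.inr ()) ^ (j : ℕ)
    have hQ : ∀ v : 𝓜, aeval (Sum.elim (Sum.elim t fun _ => w) fun _ => v) Q =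
        aeval t T' * Polynomial.aeval v (minpoly K₁ (z 1)) := by
      intro v
      rw [Polynomial.aeval_eq_sum_range, Finset.sum_range, Finset.mul_sum, map_sum]
      refine Finset.sum_congr rfl fun j _ => ?_
      rw [map_sum, Algebra.smul_def]
      have h1 : (algebraMap K₁ 𝓜) ((minpoly K₁ (z 1)).coeff j) =
        (((minpoly K₁ (z 1)).coeff j : K₁) : 𝓜) := rfl
      rw [h1, hcoef, Finset.sum_mul, Finset.mul_sum]
      refine Finset.sum_congr rfl fun l _ => ?_
      rw [map_mul, map_mul, map_pow, map_pow, aeval_X, aeval_X, aeval_rename]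
      have h2 : (((Sum.elim (Sum.elim t fun _ : Unit => w) fun _ : Unit => v) ∘
        (Sum.inl ∘ Sum.inl)) : Fin m → 𝓜) = t := rfl
      rw [h2, ← hB (j, l)]
      simp only [Sum.elim_inl, Sum.elim_inr]
      ring
    have h1 := hπ' Q (by rw [hQ, minpoly.aeval, mul_zero])
    rw [hQ] at h1
    exact (mul_eq_zero.1 h1).resolve_left hT't

end Pool.Agent.Helper79.HG
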