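import Pool.Agent.Helper79.HG.An
import Pool.Agent.Helper79.HG.Forms

/-!
# HG-06: the conjugates of an algebraic function as periods of a family of dimension zero

`z π = ∑ c_a y_(π a)` on `U`. Proof of `exists_cover`.
* `𝓜`, `φ`, `D` from `exists_mero`; `𝓜` is an algebra over `κ` through `ℂ` (`Algebra.compHom` or
  `((algebraMap ℂ 𝓜).comp (algebraMap κ ℂ)).toAlgebra`), the derivations are `κ`-linear (`Derivation.restrictScalars` needs
  `IsScalarTower κ ℂ 𝓜`, and `Module κ 𝓜` compatible). Let `t' j = φ (mk (fun t => t j))`, `w' = φ (mk w)`, `y' a = φ (mk (y a))`.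
  For polynomials `Q` over `κ`: `aeval (t', w', …) Q = φ (mk (fun t => aeval (t, w t, …) Q))` (`MvPolynomial` induction, or
  `MvPolynomial.aeval` composed with algebra homomorphisms); it is zero iff `Q(t, w t, …) = 0` for all `t ∈ U` (`AnU.mk_eq_iff`, `φ`
  injective).
* `t'` is algebraically independent over `κ`: a polynomial over `κ` (or `ℂ`) in `m` variables which vanishes on the
  nonempty open set `U` is zero (for example `MvPolynomial.funext_set` / identity theorem with `U` replaced by a box; see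
  how `Pool.Agent.Helper79.BB` does it, e.g. `AnalyticOnNhd` identity theorem to `univ` and `MvPolynomial.funext`).
* `D i (t' j)`: `pd i (fun t => t j) = if i = j then 1 else 0` (`fderiv` of a linear form).
* `Ψ`: `Φ` as a polynomial in the last variable over `κ[t, w]` (`MvPolynomial.sumToIter`/`MvPolynomial.optionEquivLeft` or
  `finSuccEquiv`-like; or simply `Ψ = aeval (Sum.elim (fun i => C (X i)) (fun _ => Polynomial.X)) Φ`); `hΨ` by comparing values: a
  polynomial over `𝓜` whose coefficients are in `φ (AnU U)`; it suffices that the two polynomials over `AnU U` are equal,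
  that is that for all `t ∈ U` their images in `ℂ[X]` (evaluation at `t` of the coefficients) are equal, and these have
  the same values at all `Y ∈ ℂ` by `hΦ` (`Polynomial.funext`).
* `field_main`. `F : FamiliesM κ m`: `T`, one family (`β = Unit`, `L`, `d = 0`, `γ = Fin μ' × Fin M`, `Φ = G`). `E : F.Sub μ' 1 (Fin M)`:
  `M p I = if I 0 = ⟨(), p⟩ then 1 else 0`, `B i p p' = G.A i p p'`; `stable`: `pderiv` of the constants is zero and both sides are
  `G.A i p p'` if `I 0 = ⟨(), p'⟩` (see `Pool.Agent.Helper79.CU.tens` for `r = 1`, and `tens_one_apply` in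
  `Pool/Agent/Helper79/DD/MainU.lean`); `ind`: clear.
* `IsPeriod`: `g = M`, `V t ⟨(), (l, i)⟩ b = w t ^ l * (z (π b) t) ^ i`, `c I b = if I 0 = b then 1 else 0`. `IsSolutionM`: analytic, and
  the equations are the equations of `field_main`, pulled back by `φ` (`AnU.mk_eq_iff`), with
  `D i (φ (mk f)) = φ (mk (pd i f))`.
* `IsBranchM κ U μ' w`: from the equation `f'`.
-/

namespace Pool.Agent.Helper79.HG

open Pool.Agent.Helper79.BB Pool.Agent.Helper64.Per

section Aux

variable {m : ℕ} {U : Set (Fin m → ℂ)}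

/-- evaluation at a point of `U` -/
private noncomputable def evU (t : U) : AnU U →ₐ[ℂ] ℂ :=
  (Pi.evalAlgHom ℂ (fun _ : U => ℂ) t).comp (AnU U).val

private theorem evU_mk (t : U) (f : (Fin m → ℂ) → ℂ) (hf : AnalyticOnNhd ℂ f U) :
    evU t (AnU.mk f hf) = f t := rfl

private theorem anU_ext {a b : AnU U} (h : ∀ t : U, evU t a = evU t b) : a = b :=
  Subtype.ext (funext h)

variable {κ : IntermediateField ℚ Qbar}

private theorem ev_aeval {σ : Type} (t : U) (g : σ → AnU U) (g' : σ → ℂ)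
    (h : ∀ s, g' s = evU t (g s)) (Q : MvPolynomial σ κ) :
    MvPolynomial.aeval g' Q = evU t (MvPolynomial.aeval g Q) := by
  have h1 := MvPolynomial.comp_aeval (f := g) ((evU t).restrictScalars κ)
  have h2 : g' = fun s => ((evU t).restrictScalars κ) (g s) := funext h
  rw [h2, ← h1]
  rfl

variable {𝓜 : Type} [Field 𝓜] [Algebra ℂ 𝓜] (φ : AnU U →ₐ[ℂ] 𝓜)

private theorem phi_aeval {σ : Type} (g : σ → AnU U) (g' : σ → 𝓜)
    (h : ∀ s, g' s = φ (g s)) (Q : MvPolynomial σ κ) :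
    MvPolynomial.aeval g' Q = φ (MvPolynomial.aeval g Q) := by
  have h1 := MvPolynomial.comp_aeval (f := g) (φ.restrictScalars κ)
  have h2 : g' = fun s => (φ.restrictScalars κ) (g s) := funext h
  rw [h2, ← h1]
  rfl

/-- the polynomial `Ψ` -/
private noncomputable def psi (Φ : MvPolynomial ((Fin m ⊕ Unit) ⊕ Unit) κ) :
    Polynomial (MvPolynomial (Fin m ⊕ Unit) κ) :=
  MvPolynomial.aeval (Sum.elim (fun i => Polynomial.C (MvPolynomial.X i)) fun _ => Polynomial.X) Φ

private theorem psi_map {B : Type} [CommRing B] [Algebra κ B] (g : Fin m ⊕ Unit → B)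
    (Φ : MvPolynomial ((Fin m ⊕ Unit) ⊕ Unit) κ) :
    (psi Φ).map (MvPolynomial.aeval g : MvPolynomial (Fin m ⊕ Unit) κ →ₐ[κ] B).toRingHom =
      MvPolynomial.aeval (Sum.elim (fun i => Polynomial.C (g i)) fun _ => Polynomial.X) Φ := by
  have h1 := MvPolynomial.comp_aeval
    (f := Sum.elim (fun i => Polynomial.C (MvPolynomial.X (R := κ) i)) fun _ : Unit => Polynomial.X)
    (Polynomial.mapAlgHom (MvPolynomial.aeval g : MvPolynomial (Fin m ⊕ Unit) κ →ₐ[κ] B))
  have h2 : (Sum.elim (fun i => Polynomial.C (g i)) fun _ => Polynomial.X :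
      (Fin m ⊕ Unit) ⊕ Unit → Polynomial B) = fun s =>
      (Polynomial.mapAlgHom (MvPolynomial.aeval g : MvPolynomial (Fin m ⊕ Unit) κ →ₐ[κ] B))
        (Sum.elim (fun i => Polynomial.C (MvPolynomial.X (R := κ) i))
          (fun _ : Unit => Polynomial.X) s) := by
    funext s
    rcases s with s | s
    · simp
    · simp
  rw [h2, ← h1]
  rfl

private theorem eval_psi {B : Type} [CommRing B] [Algebra κ B] (g : Fin m ⊕ Unit → B) (Y : B)
    (Φ : MvPolynomial ((Fin m ⊕ Unit) ⊕ Unit) κ) :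
    ((psi Φ).map (MvPolynomial.aeval g : MvPolynomial (Fin m ⊕ Unit) κ →ₐ[κ] B).toRingHom).eval Y =
      MvPolynomial.aeval (Sum.elim g fun _ => Y) Φ := by
  rw [psi_map]
  have h1 := MvPolynomial.comp_aeval
    (f := Sum.elim (fun i => Polynomial.C (g i)) fun _ : Unit => (Polynomial.X : Polynomial B))
    ((Polynomial.aeval (R := B) Y).restrictScalars κ)
  have h2 : (Sum.elim g fun _ => Y) = fun s =>
      ((Polynomial.aeval (R := B) Y).restrictScalars κ)
        (Sum.elim (fun i => Polynomial.C (g i)) (fun _ : Unit => Polynomial.X) s) := by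
    funext s
    rcases s with s | s
    · simp
    · simp
  rw [h2, ← h1]
  rw [← Polynomial.coe_aeval_eq_eval]
  rfl

end Aux

section Fam

variable {κ : IntermediateField ℚ Qbar} {m : ℕ}

private theorem tens_one {R α : Type} [CommRing R] [DecidableEq α] (a : Matrix α α R)
    (I J : Fin 1 → α) : Pool.Agent.Helper79.CU.tens 1 a I J = a (I 0) (J 0) := by
  unfold Pool.Agent.Helper79.CU.tens
  rw [Fin.sum_univ_one, if_pos]
  intro s' hs'
  exact absurd (Subsingleton.elim _ _) hs'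

private theorem fin_one_eq {α : Type} (I : Fin 1 → α) : I = fun _ => I 0 := by
  funext s
  rw [Subsingleton.elim s 0]

variable {ι₀ : Type} [Fintype ι₀] [DecidableEq ι₀] {μ' M : ℕ}

/-- the sub-connection -/
private noncomputable def subG (T : MvPolynomial (Fin m) κ)
    (A : Fin m → Matrix ι₀ ι₀ (MvPolynomial (Fin m) κ)) (e : Fin μ' × Fin M ≃ ι₀)
    (GA : Fin m → Matrix (Fin μ' × Fin M) (Fin μ' × Fin M) (MvPolynomial (Fin m) κ))
    (hA : ∀ i p p', A i (e p) (e p') = GA i p p') : SubTensorM T A μ' 1 (Fin M) where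
  M := Matrix.of fun p I => if I 0 = e p then 1 else 0
  B := GA
  stable := by
    intro s p I
    have h1 : MvPolynomial.pderiv s ((Matrix.of fun (p : Fin μ' × Fin M) (I : Fin 1 → ι₀) =>
        if I 0 = e p then (1 : MvPolynomial (Fin m) κ) else 0) p I) = 0 := by
      rw [Matrix.of_apply]
      split_ifs <;> simp
    rw [h1, mul_zero, zero_add, Matrix.mul_apply, Matrix.mul_apply,
      Finset.sum_eq_single fun _ => e p, Finset.sum_eq_single (e.symm (I 0))]
    · rw [Matrix.of_apply, if_pos rfl, one_mul, tens_one, Matrix.of_apply,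
        if_pos (by rw [e.apply_symm_apply]), mul_one, ← hA, e.apply_symm_apply]
    · intro p' _ hp'
      rw [Matrix.of_apply, if_neg, mul_zero]
      intro h
      exact hp' (by rw [h, e.symm_apply_apply])
    · intro h
      exact absurd (Finset.mem_univ _) h
    · intro J _ hJ
      rw [Matrix.of_apply, if_neg, zero_mul]
      intro h
      exact hJ (by rw [fin_one_eq J, h])
    · intro h
      exact absurd (Finset.mem_univ _) h
  ind := by
    intro f hf
    funext p
    have h1 : ∑ p', f p' * (Matrix.of fun (p : Fin μ' × Fin M) (I : Fin 1 → ι₀) =>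
        if I 0 = e p then (1 : MvPolynomial (Fin m) κ) else 0) p' (fun _ => e p) = 0 :=
      congrFun hf fun _ => e p
    rw [Finset.sum_eq_single p] at h1
    · simpa using h1
    · intro p' _ hp'
      rw [Matrix.of_apply, if_neg, mul_zero]
      intro h
      exact hp' (e.injective h).symm
    · intro h
      exact absurd (Finset.mem_univ _) h

private theorem subG_period (T : MvPolynomial (Fin m) κ)
    (A : Fin m → Matrix ι₀ ι₀ (MvPolynomial (Fin m) κ)) (e : Fin μ' × Fin M ≃ ι₀)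
    (GA : Fin m → Matrix (Fin μ' × Fin M) (Fin μ' × Fin M) (MvPolynomial (Fin m) κ))
    (hA : ∀ i p p', A i (e p) (e p') = GA i p p') {U : Set (Fin m → ℂ)} {w : (Fin m → ℂ) → ℂ}
    (Z : Fin M → (Fin m → ℂ) → ℂ)
    (h1 : ∀ (p : Fin μ' × Fin M) b, AnalyticOnNhd ℂ (fun t => w t ^ (p.1 : ℕ) * Z b t ^ (p.2 : ℕ)) U)
    (h2 : ∀ t ∈ U, ∀ s (p : Fin μ' × Fin M) b, MvPolynomial.aeval t T *
      pd s (fun t => w t ^ (p.1 : ℕ) * Z b t ^ (p.2 : ℕ)) t =
        ∑ p' : Fin μ' × Fin M, MvPolynomial.aeval t (GA s p p') *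
          (w t ^ (p'.1 : ℕ) * Z b t ^ (p'.2 : ℕ))) :
    IsPeriodM (subG T A e GA hA) U w fun t => Matrix.of fun i b : Fin M => Z b t ^ (i : ℕ) := by
  refine ⟨M, fun t => Matrix.of fun x b =>
    w t ^ ((e.symm x).1 : ℕ) * Z b t ^ ((e.symm x).2 : ℕ),
    Matrix.of fun I b => if I 0 = b then 1 else 0, ⟨fun x b => h1 (e.symm x) b, ?_⟩, ?_⟩
  · intro t ht s x b
    have h3 := h2 t ht s (e.symm x) b
    simp only [Matrix.of_apply]
    rw [h3, ← e.sum_comp]
    refine Finset.sum_congr rfl fun p' _ => ?_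
    rw [e.symm_apply_apply, ← hA, e.apply_symm_apply]
  · intro t ht l a b
    rw [Finset.sum_eq_single fun _ => e (l, a)]
    · have h3 : (subG T A e GA hA).M (l, a) (fun _ => e (l, a)) = 1 := if_pos rfl
      rw [h3, map_one, one_mul, Matrix.mul_apply, Finset.sum_eq_single fun _ => b]
      · rw [Matrix.of_apply, if_pos rfl, mul_one]
        simp [Pool.Agent.Helper79.CU.tpow]
      · intro J _ hJ
        rw [Matrix.of_apply, if_neg, mul_zero]
        intro h
        exact hJ (by rw [fin_one_eq J, h])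
      · intro h
        exact absurd (Finset.mem_univ _) h
    · intro I _ hI
      have h3 : (subG T A e GA hA).M (l, a) I = 0 := by
        refine if_neg fun h => hI ?_
        rw [fin_one_eq I, h]
      rw [h3, map_zero, zero_mul]
    · intro h
      exact absurd (Finset.mem_univ _) h

/-- the system of families with one family of dimension zero -/
private noncomputable def famC {T : MvPolynomial (Fin m) κ} (hT : T ≠ 0) {L : Type} [Field L]
    [Algebra κ L] {μ' M : ℕ} (G : FunctionFormsM m κ L T 0 (Fin μ' × Fin M)) : FamiliesM κ m where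
  T := T
  T_ne := hT
  β := Unit
  L := fun _ => L
  d := fun _ => 0
  γ := fun _ => Fin μ' × Fin M
  Φ := fun _ => G

/-- the indices -/
private def famE {T : MvPolynomial (Fin m) κ} (hT : T ≠ 0) {L : Type} [Field L]
    [Algebra κ L] {μ' M : ℕ} (G : FunctionFormsM m κ L T 0 (Fin μ' × Fin M)) :
    Fin μ' × Fin M ≃ (Σ s, (famC hT G).γ s) where
  toFun p := ⟨(), p⟩
  invFun x := x.2
  left_inv _ := rfl
  right_inv := by
    rintro ⟨⟨⟩, x⟩
    rfl

private theorem famA {T : MvPolynomial (Fin m) κ} (hT : T ≠ 0) {L : Type} [Field L]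
    [Algebra κ L] {μ' M : ℕ} (G : FunctionFormsM m κ L T 0 (Fin μ' × Fin M)) (i : Fin m)
    (p p' : Fin μ' × Fin M) : (famC hT G).A i (famE hT G p) (famE hT G p') = G.A i p p' :=
  Matrix.blockDiagonal'_apply_eq _ _ _ _

end Fam

section Main

variable {m : ℕ} {U : Set (Fin m → ℂ)}

private theorem an_coord (j : Fin m) : AnalyticOnNhd ℂ (fun t : Fin m → ℂ => t j) U :=
  (ContinuousLinearMap.proj j : (Fin m → ℂ) →L[ℂ] ℂ).analyticOnNhd U

private theorem pd_coord (i j : Fin m) (t : Fin m → ℂ) :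
    pd i (fun t => t j) t = if i = j then 1 else 0 := by
  unfold pd
  have h1 : (fun t : Fin m → ℂ => t j) = (ContinuousLinearMap.proj j : (Fin m → ℂ) →L[ℂ] ℂ) := rfl
  rw [h1, ContinuousLinearMap.fderiv]
  simp [Pi.single_apply, eq_comm]

private theorem poly_zero {κ : IntermediateField ℚ Qbar} (hU : IsOpen U) (hne : U.Nonempty)
    {Q : MvPolynomial (Fin m) κ} (h : ∀ t ∈ U, MvPolynomial.aeval t Q = 0) : Q = 0 := by
  obtain ⟨x₀, hx₀⟩ := hne
  obtain ⟨r, hr, hball⟩ := Metric.isOpen_iff.1 hU x₀ hx₀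
  have hinj : Function.Injective (algebraMap κ ℂ) := (algebraMap κ ℂ).injective
  apply MvPolynomial.map_injective _ hinj
  rw [map_zero]
  refine MvPolynomial.funext_set (fun i => Metric.ball (x₀ i) r) ?_ ?_
  · intro i
    exact infinite_of_mem_nhds (x₀ i) (Metric.ball_mem_nhds (x₀ i) hr)
  · intro x hx
    rw [map_zero, MvPolynomial.eval_map, ← MvPolynomial.aeval_def]
    apply h
    apply hball
    rw [Metric.mem_ball, dist_pi_lt_iff hr]
    intro i
    exact hx i (Set.mem_univ i)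

private theorem psi_eq {κ : IntermediateField ℚ Qbar} {𝓜 : Type} [Field 𝓜] [Algebra ℂ 𝓜]
    (φ : AnU U →ₐ[ℂ] 𝓜) {w : (Fin m → ℂ) → ℂ} (g : Fin m ⊕ Unit → AnU U)
    (hg : ∀ t : U, (fun s => evU t (g s)) = Sum.elim (t : Fin m → ℂ) fun _ => w t)
    {A : Type} [Fintype A] (y : A → (Fin m → ℂ) → ℂ) (hy : ∀ a, AnalyticOnNhd ℂ (y a) U)
    (q : MvPolynomial (Fin m ⊕ Unit) κ) (Φ : MvPolynomial ((Fin m ⊕ Unit) ⊕ Unit) κ)
    (hΦ : ∀ t ∈ U, ∀ Y : ℂ, MvPolynomial.aeval (Sum.elim (Sum.elim t fun _ => w t) fun _ => Y) Φ =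
      MvPolynomial.aeval (Sum.elim t fun _ => w t) q * ∏ a, (Y - y a t)) :
    (psi Φ).map (MvPolynomial.aeval (fun s => φ (g s)) :
        MvPolynomial (Fin m ⊕ Unit) κ →ₐ[κ] 𝓜).toRingHom =
      Polynomial.C (MvPolynomial.aeval (fun s => φ (g s)) q) *
        ∏ a, (Polynomial.X - Polynomial.C (φ (AnU.mk (y a) (hy a)))) := by
  -- over the analytic functions
  have key : (psi Φ).map (MvPolynomial.aeval g :
        MvPolynomial (Fin m ⊕ Unit) κ →ₐ[κ] AnU U).toRingHom =
      Polynomial.C (MvPolynomial.aeval g q) *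
        ∏ a, (Polynomial.X - Polynomial.C (AnU.mk (y a) (hy a))) := by
    ext1 n
    refine anU_ext fun t => ?_
    have h1 : ((psi Φ).map (MvPolynomial.aeval g :
        MvPolynomial (Fin m ⊕ Unit) κ →ₐ[κ] AnU U).toRingHom).map (evU t).toRingHom =
      (Polynomial.C (MvPolynomial.aeval g q) *
        ∏ a, (Polynomial.X - Polynomial.C (AnU.mk (y a) (hy a)))).map (evU t).toRingHom := by
      have h2 : ((evU t).toRingHom.comp (MvPolynomial.aeval g :
          MvPolynomial (Fin m ⊕ Unit) κ →ₐ[κ] AnU U).toRingHom) =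
            (MvPolynomial.aeval (Sum.elim (t : Fin m → ℂ) fun _ => w t) :
              MvPolynomial (Fin m ⊕ Unit) κ →ₐ[κ] ℂ).toRingHom := by
        refine RingHom.ext fun Q => ?_
        exact (ev_aeval t g _ (fun s => (congrFun (hg t) s).symm) Q).symm
      rw [Polynomial.map_map, h2]
      refine Polynomial.funext fun Y => ?_
      rw [eval_psi, hΦ t t.2]
      rw [Polynomial.map_mul, Polynomial.map_C, Polynomial.map_prod, Polynomial.eval_mul,
        Polynomial.eval_C, Polynomial.eval_prod]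
      congr 1
      · rw [← hg t]
        exact ev_aeval t g _ (fun _ => rfl) q
      · refine Finset.prod_congr rfl fun a _ => ?_
        simp [evU_mk]
    have h3 := congrArg (fun p => Polynomial.coeff p n) h1
    exact (Polynomial.coeff_map (evU t).toRingHom n).symm.trans
      (h3.trans (Polynomial.coeff_map (evU t).toRingHom n))
  have h4 : (MvPolynomial.aeval (fun s => φ (g s)) :
        MvPolynomial (Fin m ⊕ Unit) κ →ₐ[κ] 𝓜).toRingHom =
      φ.toRingHom.comp (MvPolynomial.aeval g :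
        MvPolynomial (Fin m ⊕ Unit) κ →ₐ[κ] AnU U).toRingHom := by
    refine RingHom.ext fun Q => ?_
    exact phi_aeval φ g _ (fun _ => rfl) Q
  rw [h4, ← Polynomial.map_map, key, Polynomial.map_mul, Polynomial.map_C, Polynomial.map_prod]
  congr 1
  · rw [phi_aeval φ g _ (fun _ => rfl) q]
    rfl
  · refine Finset.prod_congr rfl fun a _ => ?_
    rw [Polynomial.map_sub, Polynomial.map_X, Polynomial.map_C]
    rfl

end Main

private theorem cover_aux {κ : IntermediateField ℚ Qbar} {m : ℕ} {U : Set (Fin m → ℂ)}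
    (hU : IsOpen U) (hne : U.Nonempty) {𝓜 : Type} [Field 𝓜] [Algebra ℂ 𝓜] 
    (φ : AnU U →ₐ[ℂ] 𝓜) (D : Fin m → Derivation ℂ 𝓜 𝓜) (hφ : Function.Injective φ)
    (hD : ∀ i f (hf : AnalyticOnNhd ℂ f U),
        D i (φ (AnU.mk f hf)) = φ (AnU.mk (pd i f) (AnU.analytic_pd hf i)))
    {μ : ℕ} {w : (Fin m → ℂ) → ℂ} (hw : IsBranchM κ U μ w)
    {A : Type} [Fintype A] [DecidableEq A] (y : A → (Fin m → ℂ) → ℂ)
    (hy : ∀ a, AnalyticOnNhd ℂ (y a) U) (hinj : ∀ a b, a ≠ b → ∃ t ∈ U, y a t ≠ y b t)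
    (q : MvPolynomial (Fin m ⊕ Unit) κ) (Φ : MvPolynomial ((Fin m ⊕ Unit) ⊕ Unit) κ)
    (hq : ∃ t ∈ U, MvPolynomial.aeval (Sum.elim t fun _ => w t) q ≠ 0)
    (hΦ : ∀ t ∈ U, ∀ Y : ℂ, MvPolynomial.aeval (Sum.elim (Sum.elim t fun _ => w t) fun _ => Y) Φ =
      MvPolynomial.aeval (Sum.elim t fun _ => w t) q * ∏ a, (Y - y a t))
    (c : A → ℤ) (z : Equiv.Perm A → (Fin m → ℂ) → ℂ) (hz : ∀ π t, z π t = ∑ a, (c a : ℂ) * y (π a) t)
    {T₀ : MvPolynomial (Fin m) κ} (hT₀ : T₀ ≠ 0) :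
    ∃ (F : FamiliesM κ m) (μ' M : ℕ) (E : F.Sub μ' 1 (Fin M)) (π : Fin M → Equiv.Perm A),
      T₀ ∣ F.T ∧ IsBranchM κ U μ' w ∧
      (E.IsPeriod U w fun t => Matrix.of fun i b : Fin M => z (π b) t ^ (i : ℕ)) ∧
      (∃ b₀, π b₀ = 1) ∧ Function.Injective π ∧
      ∀ π' : Equiv.Perm A, (∀ Q : MvPolynomial ((Fin m ⊕ Unit) ⊕ Unit) κ,
        (∀ t ∈ U, MvPolynomial.aeval (Sum.elim (Sum.elim t fun _ => w t) fun _ => z 1 t) Q = 0) →
        ∀ t ∈ U, MvPolynomial.aeval (Sum.elim (Sum.elim t fun _ => w t) fun _ => z π' t) Q = 0) →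
        ∃ b, ∀ t ∈ U, z π' t = z (π b) t := by
  have hzan : ∀ π, AnalyticOnNhd ℂ (z π) U := by
    intro π
    have h1 : z π = ∑ a, fun t => (c a : ℂ) * y (π a) t := by
      funext t
      rw [hz, Finset.sum_apply]
    rw [h1]
    exact Finset.analyticOnNhd_sum _ fun a _ => analyticOnNhd_const.mul (hy _)
  obtain ⟨f, hf⟩ := hw.eqn
  -- the elements of the ring of analytic functions
  let tA : Fin m → AnU U := fun j => AnU.mk (fun t => t j) (an_coord j)
  let wA : AnU U := AnU.mk w hw.analytic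
  let gA : Fin m ⊕ Unit → AnU U := Sum.elim tA fun _ => wA
  let zA : Equiv.Perm A → AnU U := fun π => AnU.mk (z π) (hzan π)
  have htA : (fun j => φ (tA j)) = fun j => φ (tA j) := rfl
  have hgA : (fun s => φ (gA s)) = Sum.elim (fun j => φ (tA j)) fun _ => φ wA := by
    funext s
    rcases s with s | s <;> rfl
  have hgv : ∀ t : U, (fun s => evU t (gA s)) = Sum.elim (t : Fin m → ℂ) fun _ => w t := by
    intro t
    funext s
    rcases s with s | s <;> rfl
  have zero_iff : ∀ x : AnU U, φ x = 0 ↔ ∀ t : U, evU t x = 0 := by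
    intro x
    constructor
    · intro h t
      have h1 : x = 0 := hφ (by rw [h, map_zero])
      rw [h1, map_zero]
    · intro h
      have h1 : x = 0 := anU_ext fun t => by rw [h, map_zero]
      rw [h1, map_zero]
  have eq_iff : ∀ x x' : AnU U, φ x = φ x' ↔ ∀ t : U, evU t x = evU t x' := by
    intro x x'
    constructor
    · intro h t
      rw [hφ h]
    · intro h
      rw [anU_ext h]
  have e1 : ∀ Q : MvPolynomial (Fin m) κ, MvPolynomial.aeval (fun j => φ (tA j)) Q =
      φ (MvPolynomial.aeval tA Q) := phi_aeval φ tA _ fun _ => rfl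
  have v1 : ∀ (t : U) (Q : MvPolynomial (Fin m) κ), MvPolynomial.aeval (t : Fin m → ℂ) Q =
      evU t (MvPolynomial.aeval tA Q) := fun t => ev_aeval t tA _ fun _ => rfl
  have e2 : ∀ Q : MvPolynomial (Fin m ⊕ Unit) κ,
      MvPolynomial.aeval (Sum.elim (fun j => φ (tA j)) fun _ => φ wA) Q =
        φ (MvPolynomial.aeval gA Q) := phi_aeval φ gA _ fun s => (congrFun hgA s).symm
  have v2 : ∀ (t : U) (Q : MvPolynomial (Fin m ⊕ Unit) κ),
      MvPolynomial.aeval (Sum.elim (t : Fin m → ℂ) fun _ => w t) Q =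
        evU t (MvPolynomial.aeval gA Q) := fun t => ev_aeval t gA _ fun s => (congrFun (hgv t) s).symm
  have e3 : ∀ (x : AnU U) (Q : MvPolynomial ((Fin m ⊕ Unit) ⊕ Unit) κ),
      MvPolynomial.aeval (Sum.elim (Sum.elim (fun j => φ (tA j)) fun _ => φ wA) fun _ => φ x) Q =
        φ (MvPolynomial.aeval (Sum.elim gA fun _ => x) Q) := fun x =>
    phi_aeval φ (Sum.elim gA fun _ => x) _ fun s => by
      rcases s with (s | s) | s <;> rfl
  have v3 : ∀ (t : U) (x : AnU U) (Q : MvPolynomial ((Fin m ⊕ Unit) ⊕ Unit) κ),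
      MvPolynomial.aeval (Sum.elim (Sum.elim (t : Fin m → ℂ) fun _ => w t) fun _ => evU t x) Q =
        evU t (MvPolynomial.aeval (Sum.elim gA fun _ => x) Q) := fun t x =>
    ev_aeval t (Sum.elim gA fun _ => x) _ fun s => by
      rcases s with (s | s) | s <;> rfl
  -- the hypotheses of `field_main`
  have ht : AlgebraicIndependent κ fun j => φ (tA j) := by
    rw [algebraicIndependent_iff]
    intro Q hQ
    rw [e1, zero_iff] at hQ
    exact poly_zero hU hne fun t ht => by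
      rw [v1 ⟨t, ht⟩ Q]
      exact hQ ⟨t, ht⟩
  let D' : Fin m → Derivation κ 𝓜 𝓜 := fun i => (D i).restrictScalars κ
  have hD' : ∀ i x, D' i x = D i x := fun _ _ => rfl
  have hDt : ∀ i j, D' i (φ (tA j)) = if i = j then 1 else 0 := by
    intro i j
    rw [hD', hD]
    split_ifs with h
    · rw [← map_one φ, eq_iff]
      intro t
      rw [evU_mk, pd_coord, if_pos h, map_one]
    · rw [← map_zero φ, eq_iff]
      intro t
      rw [evU_mk, pd_coord, if_neg h, map_zero]
  have hwe : (φ wA) ^ μ = ∑ l : Fin μ, MvPolynomial.aeval (fun j => φ (tA j)) (f l) *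
      (φ wA) ^ (l : ℕ) := by
    simp only [e1, ← map_pow, ← map_mul, ← map_sum]
    rw [eq_iff]
    intro t
    simp only [map_pow, map_mul, map_sum, ← v1]
    exact hf t t.2
  have hyi : Function.Injective fun a => φ (AnU.mk (y a) (hy a)) := by
    intro a b hab
    by_contra hne'
    obtain ⟨t, ht, h⟩ := hinj a b hne'
    exact h (((eq_iff _ _).1 hab) ⟨t, ht⟩)
  have hq' : MvPolynomial.aeval (Sum.elim (fun j => φ (tA j)) fun _ => φ wA) q ≠ 0 := by
    intro h
    rw [e2, zero_iff] at h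
    obtain ⟨t, ht, h1⟩ := hq
    exact h1 (by rw [v2 ⟨t, ht⟩ q]; exact h ⟨t, ht⟩)
  have hΨ := psi_eq φ gA hgv y hy q Φ hΦ
  rw [hgA] at hΨ
  have hz' : ∀ π : Equiv.Perm A, φ (zA π) =
      ∑ a, (c a : 𝓜) * φ (AnU.mk (y (π a)) (hy (π a))) := by
    intro π
    have h1 : zA π = ∑ a, (c a : AnU U) * AnU.mk (y (π a)) (hy (π a)) := by
      refine anU_ext fun t => ?_
      rw [map_sum]
      simp only [map_mul, map_intCast, evU_mk]
      exact hz π t
    rw [h1, map_sum]
    simp only [map_mul, map_intCast]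
  obtain ⟨T, μ', M, L, iL, iA, G, π, f', hT, hT₀T, hw', hmain, hb₀, hπ, hlast⟩ :=
    field_main D' ht hDt f hwe
      (fun a => φ (AnU.mk (y a) (hy a))) hyi q hq' (psi Φ) hΨ c (fun π => φ (zA π)) hz' hT₀
  refine ⟨famC hT G, μ', M, subG (famC hT G).T (famC hT G).A (famE hT G) G.A (famA hT G), π,
    hT₀T, ⟨hw.analytic, f', ?_⟩, ?_, hb₀, hπ, ?_⟩
  · intro t ht
    simp only [e1, ← map_pow, ← map_mul, ← map_sum] at hw'
    have h1 := (eq_iff _ _).1 hw' ⟨t, ht⟩
    simp only [map_pow, map_mul, map_sum, ← v1] at h1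
    exact h1
  · refine subG_period _ _ _ _ _ (fun b => z (π b)) (fun p b =>
      (hw.analytic.pow _).mul ((hzan (π b)).pow _)) ?_
    intro t ht s p b
    have h1 := hmain s p b
    have h2 : φ wA ^ (p.1 : ℕ) * φ (zA (π b)) ^ (p.2 : ℕ) =
        φ (AnU.mk (fun t => w t ^ (p.1 : ℕ) * z (π b) t ^ (p.2 : ℕ))
          ((hw.analytic.pow _).mul ((hzan (π b)).pow _))) := by
      rw [← map_pow, ← map_pow, ← map_mul, eq_iff]
      intro t
      rw [map_mul, map_pow, map_pow]
      rfl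
    rw [h2, hD', hD] at h1
    simp only [e1, ← map_pow, ← map_mul, ← map_sum] at h1
    have h3 := (eq_iff _ _).1 h1 ⟨t, ht⟩
    simp only [map_pow, map_mul, map_sum, ← v1] at h3
    exact h3
  · intro π' hπ'
    obtain ⟨b, hb⟩ := hlast π' (fun Q hQ => by
      rw [e3, zero_iff] at hQ ⊢
      intro t
      rw [← v3]
      refine hπ' Q (fun t ht => ?_) t t.2
      have h1 := hQ ⟨t, ht⟩
      rw [← v3] at h1
      exact h1)
    exact ⟨b, fun t ht => ((eq_iff _ _).1 hb) ⟨t, ht⟩⟩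

theorem exists_cover {κ : IntermediateField ℚ Qbar} {m : ℕ} {U : Set (Fin m → ℂ)} (hU : IsOpen U)
    (hU' : IsPreconnected U) (hne : U.Nonempty) {μ : ℕ} {w : (Fin m → ℂ) → ℂ} (hw : IsBranchM κ U μ w)
    {A : Type} [Fintype A] [DecidableEq A] (y : A → (Fin m → ℂ) → ℂ)
    (hy : ∀ a, AnalyticOnNhd ℂ (y a) U) (hinj : ∀ a b, a ≠ b → ∃ t ∈ U, y a t ≠ y b t)
    (q : MvPolynomial (Fin m ⊕ Unit) κ) (Φ : MvPolynomial ((Fin m ⊕ Unit) ⊕ Unit) κ)
    (hq : ∃ t ∈ U, MvPolynomial.aeval (Sum.elim t fun _ => w t) q ≠ 0)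
    (hΦ : ∀ t ∈ U, ∀ Y : ℂ, MvPolynomial.aeval (Sum.elim (Sum.elim t fun _ => w t) fun _ => Y) Φ =
      MvPolynomial.aeval (Sum.elim t fun _ => w t) q * ∏ a, (Y - y a t))
    (c : A → ℤ) (z : Equiv.Perm A → (Fin m → ℂ) → ℂ) (hz : ∀ π t, z π t = ∑ a, (c a : ℂ) * y (π a) t)
    {T₀ : MvPolynomial (Fin m) κ} (hT₀ : T₀ ≠ 0) :
    ∃ (F : FamiliesM κ m) (μ' M : ℕ) (E : F.Sub μ' 1 (Fin M)) (π : Fin M → Equiv.Perm A),
      T₀ ∣ F.T ∧ IsBranchM κ U μ' w ∧
      (E.IsPeriod U w fun t => Matrix.of fun i b : Fin M => z (π b) t ^ (i : ℕ)) ∧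
      (∃ b₀, π b₀ = 1) ∧ Function.Injective π ∧
      ∀ π' : Equiv.Perm A, (∀ Q : MvPolynomial ((Fin m ⊕ Unit) ⊕ Unit) κ,
        (∀ t ∈ U, MvPolynomial.aeval (Sum.elim (Sum.elim t fun _ => w t) fun _ => z 1 t) Q = 0) →
        ∀ t ∈ U, MvPolynomial.aeval (Sum.elim (Sum.elim t fun _ => w t) fun _ => z π' t) Q = 0) →
        ∃ b, ∀ t ∈ U, z π' t = z (π b) t := by
  obtain ⟨𝓜, iF, iA, φ, D, hφ, hD⟩ := exists_mero hU hU' hne
  exact cover_aux hU hne φ D hφ hD hw y hy hinj q Φ hq hΦ c z hz hT₀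

end Pool.Agent.Helper79.HG
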