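import Pool.Agent.Helper79.HG.Defs
import Pool.Agent.Helper79.HG.Sep
import Pool.Agent.Helper79.HH.Cont

/-!
# HG-08: Galois conjugates of the points of a cover and relations between periods

`s_a(u) = ∑_i x^i y_(a,i)(u)`, `z π = ∑_a c_a s_(π a)`, `K = kapM κ t (w t)`.

* `algebraic_point`: `w t` is a root of a monic polynomial with coefficients `f_l(t)`, algebraic (`MvPolynomial.aeval` of algebraic
  numbers). For `y_(a,i)(t)`: `Φ(t, w t, X, Y) = q(t, w t) ∏_b (Y - ∑ X_j y_(b,j)(t))` at `X = e_i` and `Y = y_(a,i)(t)` is zero, and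
  `Φ(t, w t, e_i, Y)` is a polynomial in `Y` over the algebraic numbers, not zero (its leading coefficient is
  `q(t, w t) ≠ 0`: it is `q ∏ (Y - y_(b,i)(t))`).
* `exists_perm_of_gal`: let `t` be algebraic and `σ ∈ Gal(Qbar / K)`. The coordinates `t i` and `w t` are in `K` (they are algebraic:
  definition of `kapM`), so `σ` fixes the values at `(t, w t, (x^i), Y)`, `Y ∈ K[Y]`, of the polynomials over `κ`: the
  polynomial `q(t, w t) ∏_a (Y - ∑_i x^i y_(a,i)(t))` has coefficients in `K`, hence so has `∏_a (Y - ∑_i x^i y_(a,i)(t))` (divide by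
  `q(t, w t) ∈ K`), and `exists_perm` (with `L = Qbar`, `y a i` the element of `Qbar` with value `y_(a,i)(t)`) gives `π`.
* `sigma_of_noRel`. All `z π t` are algebraic (`z π t = (Z π : ℂ)`, `Z π : Qbar`). Let `p` be the minimal polynomial of `Z 1` over `K`. Its roots
  in `Qbar` are the `σ (Z 1)`, and `σ (Z 1) = Z π_σ` by `exists_perm_of_gal`: so `p` (separable) has degree at most the number
  of permutations, `(card A)!`.
  - Case `M = 0`: impossible (`b₀ : Fin M`). Case `M = 1`: the continuation `hchain` preserves the relations over `κ` between `t, w, z 1`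
    (analytic continuation, see `Pool.Agent.Helper79.HH.Cont.evP_chain`; write the analogous lemma for `Elem`: for every polynomial `Q` over
    `κ` or `Qbar` in `t, w` and the functions of the element, if `Q` vanishes at the first element then it vanishes at the last), so `hconj` gives `b` with `z π' = z (π b)`
    on `U`, `b = b₀`, so `z π' t = z 1 t`, `π' = 1` by `hsep` and `σ = 1` is as required.
  - Case `M ≥ 2`: let `N₁` be the matrix with entries `z (π' * π b) t ^ i` (row `i`, column `b`; `(π' * π b) a = π' (π b a)`). It is in `BFibreM U w P t`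
    (`P` the matrix-valued function of the statement): it is invertible (`Matrix.det_vandermonde_ne_zero_iff`
    up to a transpose: the `z (π' * π b) t` are different by `hsep` and `hπ`); the continuation along `hchain` takes `y_(a,i)` to `y_(π' a,i)`, so `z (π b)`
    to `z (π' * π b)`, so a polynomial over `Qbar` which vanishes at `(u, w u, P u)`, `u ∈ U`, vanishes at `(t, w t, N₁)`. Let `r` be the polynomial
    `p(X_(1, b₀))` over `K` (`1 : Fin M` the index of the first powers), of total degree at most `deg p ≤ (card A)!`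
    (`MvPolynomial.totalDegree` of `Polynomial.aeval (X e) p`; or `Polynomial.sum`). It vanishes at `P t` (its value is `p(z (π b₀) t) = p(z 1 t) = 0`), hence on
    `ZClosure (P t)`: for `N ∈ ZClosure (P t)` the entries of `N` are those of `P t`, as these are algebraic (use the polynomials `X_e - C (P t)_e`).
    By `hno` it vanishes on `BFibreM U w P t`, so at `N₁`: `p(z π' t) = 0`. So there is `σ ∈ Gal(Qbar / K)` with `σ (Z 1) = Z π'` (`Qbar` is
    algebraically closed, normal over `K`: `minpoly.exists_algEquiv_of_root`, `IsConjRoot`, …). By `exists_perm_of_gal` `σ (Z 1) = Z π_σ`, so `π_σ = π'` by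
    `hsep`, and `σ (y_(a,i)(t)) = y_(π_σ a, i)(t) = y_(π' a, i)(t)`.
-/

namespace Pool.Agent.Helper79.HG

open Pool.Agent.Helper79.BB Pool.Agent.Helper64.Per

variable {κ : IntermediateField ℚ Qbar} {m : ℕ} {U : Set (Fin m → ℂ)} {w : (Fin m → ℂ) → ℂ}
  {A : Type} [Fintype A]

/-- the algebraic number with value `z` -/
private noncomputable def toQ (z : ℂ) (hz : IsAlgebraic ℚ z) : Qbar := ⟨z, mem_algebraicClosure_iff.2 hz⟩

private theorem alg_of_root (p : Polynomial Qbar) (hp : p ≠ 0) (z : ℂ) (h : Polynomial.aeval z p = 0) :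
    IsAlgebraic ℚ z := by
  have h0 : Algebra.IsAlgebraic ℚ Qbar := (algebraicClosure.isAlgClosure ℚ ℂ).isAlgebraic
  have h1 : IsAlgebraic Qbar z := ⟨p, hp, h⟩
  exact h1.restrictScalars ℚ

private theorem aeval_coe {ι : Type} {κ : IntermediateField ℚ Qbar} (τ : ι → Qbar)
    (f : MvPolynomial ι κ) :
    MvPolynomial.aeval (fun i => ((τ i : Qbar) : ℂ)) f = ((MvPolynomial.aeval τ f : Qbar) : ℂ) :=
  MvPolynomial.aeval_algebraMap_apply ℂ τ f

private theorem aeval_mem {ι : Type} (κ K : IntermediateField ℚ Qbar) (h : κ ≤ K) (τ : ι → Qbar)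
    (hτ : ∀ i, τ i ∈ K) (f : MvPolynomial ι κ) : MvPolynomial.aeval τ f ∈ K := by
  induction f using MvPolynomial.induction_on with
  | C c =>
    rw [MvPolynomial.aeval_C]
    exact h c.2
  | add p q hp hq =>
    rw [map_add]
    exact K.add_mem hp hq
  | mul_X p i hp =>
    rw [map_mul, MvPolynomial.aeval_X]
    exact K.mul_mem hp (hτ i)

private theorem coord_mem (κ : IntermediateField ℚ Qbar) (t : Fin m → ℂ) (y : ℂ) {u : Qbar}
    (h : (∃ i, (u : ℂ) = t i) ∨ (u : ℂ) = y) : u ∈ kapM κ t y :=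
  (le_sup_right : _ ≤ kapM κ t y) (IntermediateField.subset_adjoin ℚ _ h)

/-- the form of the cover as a polynomial in `Y` -/
private noncomputable def formP (Y : CoverData κ A U w) (τ : Fin m → Qbar) (ω : Qbar)
    (x : Fin Y.N → Qbar) : Polynomial Qbar :=
  MvPolynomial.eval₂ (Polynomial.C.comp (algebraMap κ Qbar))
    (Sum.elim (Sum.elim (fun j => Polynomial.C (τ j)) fun _ => Polynomial.C ω)
      (Sum.elim (fun j => Polynomial.C (x j)) fun _ => Polynomial.X)) Y.Φ

private theorem formP_eval (Y : CoverData κ A U w) {t : Fin m → ℂ} (htU : t ∈ U)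
    (τ : Fin m → Qbar) (hτ : ∀ j, ((τ j : Qbar) : ℂ) = t j) (ω : Qbar) (hω : (ω : ℂ) = w t)
    (x : Fin Y.N → Qbar) (z : ℂ) :
    Polynomial.aeval z (formP Y τ ω x) =
      MvPolynomial.aeval (Sum.elim t fun _ => w t) Y.q *
        ∏ a, (z - ∑ i, ((x i : Qbar) : ℂ) * Y.y a i t) := by
  rw [← Y.eqn t htU (fun i => ((x i : Qbar) : ℂ)) z]
  have h1 : Polynomial.aeval z (formP Y τ ω x) =
      (Polynomial.aeval z : Polynomial Qbar →ₐ[Qbar] ℂ).toRingHom (formP Y τ ω x) := rfl
  rw [h1, formP, MvPolynomial.hom_eval₂, MvPolynomial.aeval_def]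
  congr 1
  · ext a
    change Polynomial.aeval z (Polynomial.C (algebraMap κ Qbar a)) = algebraMap κ ℂ a
    rw [Polynomial.aeval_C]
    exact (IsScalarTower.algebraMap_apply κ Qbar ℂ a).symm
  · funext e
    rcases e with (e | e) | (e | e)
    · change Polynomial.aeval z (Polynomial.C (τ e)) = t e
      rw [Polynomial.aeval_C]
      exact hτ e
    · change Polynomial.aeval z (Polynomial.C ω) = w t
      rw [Polynomial.aeval_C]
      exact hω
    · change Polynomial.aeval z (Polynomial.C (x e)) = ((x e : Qbar) : ℂ)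
      rw [Polynomial.aeval_C]
      rfl
    · change Polynomial.aeval z (Polynomial.X : Polynomial Qbar) = z
      rw [Polynomial.aeval_X]

private theorem formP_map (Y : CoverData κ A U w) (σ : Qbar →+* Qbar) (τ : Fin m → Qbar) (ω : Qbar)
    (x : Fin Y.N → Qbar) (hκ : ∀ c : κ, σ (algebraMap κ Qbar c) = algebraMap κ Qbar c)
    (hτ : ∀ j, σ (τ j) = τ j) (hω : σ ω = ω) (hx : ∀ j, σ (x j) = x j) :
    (formP Y τ ω x).map σ = formP Y τ ω x := by
  have h1 : (formP Y τ ω x).map σ = Polynomial.mapRingHom σ (formP Y τ ω x) := rfl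
  rw [h1, formP, MvPolynomial.hom_eval₂]
  congr 1
  · refine RingHom.ext fun a => ?_
    change (Polynomial.C (algebraMap κ Qbar a)).map σ = Polynomial.C (algebraMap κ Qbar a)
    rw [Polynomial.map_C, hκ]
  · funext e
    rcases e with (e | e) | (e | e)
    · change (Polynomial.C (τ e)).map σ = Polynomial.C (τ e)
      rw [Polynomial.map_C, hτ]
    · change (Polynomial.C ω).map σ = Polynomial.C ω
      rw [Polynomial.map_C, hω]
    · change (Polynomial.C (x e)).map σ = Polynomial.C (x e)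
      rw [Polynomial.map_C, hx]
    · change (Polynomial.X : Polynomial Qbar).map σ = Polynomial.X
      rw [Polynomial.map_X]

private theorem normal_K (K : IntermediateField ℚ Qbar) : Normal K Qbar := by
  have h1 : IsAlgClosed Qbar := (algebraicClosure.isAlgClosure ℚ ℂ).isAlgClosed
  have h2 : Algebra.IsAlgebraic ℚ Qbar := (algebraicClosure.isAlgClosure ℚ ℂ).isAlgebraic
  have h3 : Algebra.IsAlgebraic K Qbar := Algebra.IsAlgebraic.tower_top (K := ℚ) K
  exact normal_iff.2 fun x => ⟨(h3.isAlgebraic x).isIntegral, IsAlgClosed.splits _⟩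

/-- the element with the matrix of the powers of the sums -/
private noncomputable def elemMat {N M : ℕ} (x : ℕ) (c : A → ℤ) (π : Fin M → Equiv.Perm A)
    (a : Elem m (A × Fin N)) : Pool.Agent.Helper79.HH.Element m (Fin M) where
  U := a.U
  w := a.w
  P := fun u => Matrix.of fun i b : Fin M =>
    (∑ e, (c e : ℂ) * ∑ j : Fin N, (x : ℂ) ^ (j : ℕ) * a.f (π b e, j) u) ^ (i : ℕ)

private theorem analytic_sum {N : ℕ} (x : ℕ) (c : A → ℤ) (ρ : A → A) {a : Elem m (A × Fin N)}
    (ha : a.IsAnalytic) : AnalyticOnNhd ℂ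
      (fun u => ∑ e, (c e : ℂ) * ∑ j : Fin N, (x : ℂ) ^ (j : ℕ) * a.f (ρ e, j) u) a.U := by
  refine Finset.analyticOnNhd_fun_sum _ fun e _ => ?_
  refine analyticOnNhd_const.mul ?_
  refine Finset.analyticOnNhd_fun_sum _ fun j _ => ?_
  exact analyticOnNhd_const.mul (ha.2.2.2 (ρ e, j))

private theorem elemMat_next {N M : ℕ} (x : ℕ) (c : A → ℤ) (π : Fin M → Equiv.Perm A)
    {a b : Elem m (A × Fin N)} (h : a.Next b) :
    (elemMat x c π a).Next (elemMat x c π b) := by
  obtain ⟨ha, hb, O, hO, hne, hOa, hOb, heq⟩ := h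
  refine ⟨⟨ha.1, ha.2.1, ha.2.2.1, fun i k => ?_⟩, ⟨hb.1, hb.2.1, hb.2.2.1, fun i k => ?_⟩,
    O, hO, hne, hOa, hOb, fun u hu => ⟨(heq u hu).1, ?_⟩⟩
  · exact (analytic_sum x c (fun e => π k e) ha).pow _
  · exact (analytic_sum x c (fun e => π k e) hb).pow _
  · ext i k
    change (∑ e, (c e : ℂ) * ∑ j : Fin N, (x : ℂ) ^ (j : ℕ) * a.f (π k e, j) u) ^ (i : ℕ) =
      (∑ e, (c e : ℂ) * ∑ j : Fin N, (x : ℂ) ^ (j : ℕ) * b.f (π k e, j) u) ^ (i : ℕ)
    simp only [(heq u hu).2]

private theorem analytic_aeval {κ : IntermediateField ℚ Qbar} {N : ℕ} (x : ℕ) (c : A → ℤ)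
    (Q : MvPolynomial ((Fin m ⊕ Unit) ⊕ Unit) κ) {a : Elem m (A × Fin N)} (ha : a.IsAnalytic) :
    AnalyticOnNhd ℂ (fun u => MvPolynomial.aeval (Sum.elim (Sum.elim u fun _ => a.w u) fun _ =>
      ∑ e, (c e : ℂ) * ∑ j : Fin N, (x : ℂ) ^ (j : ℕ) * a.f (e, j) u) Q) a.U := by
  induction Q using MvPolynomial.induction_on with
  | C k =>
    simp only [MvPolynomial.aeval_C]
    exact analyticOnNhd_const
  | add p q hp hq =>
    simp only [map_add]
    exact hp.add hq
  | mul_X p i hp =>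
    simp only [map_mul, MvPolynomial.aeval_X]
    refine hp.mul ?_
    rcases i with (i | i) | i
    · intro y _
      exact (ContinuousLinearMap.proj (R := ℂ) (φ := fun _ : Fin m => ℂ) i).analyticAt y
    · exact ha.2.2.1
    · exact analytic_sum x c (fun e => e) ha

private theorem elem_chain {κ : IntermediateField ℚ Qbar} {N : ℕ} (x : ℕ) (c : A → ℤ)
    (Q : MvPolynomial ((Fin m ⊕ Unit) ⊕ Unit) κ) {a b : Elem m (A × Fin N)}
    (h : Relation.ReflTransGen Elem.Next a b)
    (hQ : ∀ u ∈ a.U, MvPolynomial.aeval (Sum.elim (Sum.elim u fun _ => a.w u) fun _ =>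
      ∑ e, (c e : ℂ) * ∑ j : Fin N, (x : ℂ) ^ (j : ℕ) * a.f (e, j) u) Q = 0) :
    ∀ u ∈ b.U, MvPolynomial.aeval (Sum.elim (Sum.elim u fun _ => b.w u) fun _ =>
      ∑ e, (c e : ℂ) * ∑ j : Fin N, (x : ℂ) ^ (j : ℕ) * b.f (e, j) u) Q = 0 := by
  induction h with
  | refl => exact hQ
  | @tail d e _ hs ih =>
    obtain ⟨hd, he, O, hO, ⟨y, hy⟩, hOd, hOe, heq⟩ := hs
    have h1 := analytic_aeval x c Q he
    have h2 : Set.EqOn (fun u => MvPolynomial.aeval (Sum.elim (Sum.elim u fun _ => e.w u) fun _ =>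
        ∑ k, (c k : ℂ) * ∑ j : Fin N, (x : ℂ) ^ (j : ℕ) * e.f (k, j) u) Q) 0 e.U := by
      refine h1.eqOn_zero_of_preconnected_of_eventuallyEq_zero he.2.1 (hOe hy) ?_
      filter_upwards [hO.mem_nhds hy] with u hu
      obtain ⟨e1, e2⟩ := heq u hu
      have h3 := ih u (hOd hu)
      simp only [e1, e2] at h3
      exact h3
    exact fun u hu => h2 hu

theorem algebraic_point {μ : ℕ} (hw : IsBranchM κ U μ w) (Y : CoverData κ A U w) {t : Fin m → ℂ}
    (htU : t ∈ U) (ht : ∀ i, IsAlgebraic ℚ (t i)) :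
    IsAlgebraic ℚ (w t) ∧ ∀ a i, IsAlgebraic ℚ (Y.y a i t) := by
  obtain ⟨f, hf⟩ := hw.eqn
  have hwt : IsAlgebraic ℚ (w t) := by
    let τ : Fin m → Qbar := fun i => toQ (t i) (ht i)
    let c : Fin μ → Qbar := fun l => MvPolynomial.aeval τ (f l)
    have hc : ∀ l, ((c l : Qbar) : ℂ) = MvPolynomial.aeval t (f l) := fun l =>
      (aeval_coe τ (f l)).symm
    refine alg_of_root (Polynomial.X ^ μ - ∑ l : Fin μ, Polynomial.C (c l) * Polynomial.X ^ (l : ℕ))
      ?_ (w t) ?_
    · intro h0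
      have h1 : (Polynomial.X ^ μ - ∑ l : Fin μ, Polynomial.C (c l) * Polynomial.X ^ (l : ℕ)).coeff μ
          = 1 := by
        rw [Polynomial.coeff_sub, Polynomial.coeff_X_pow, if_pos rfl, Polynomial.finsetSum_coeff,
          Finset.sum_eq_zero, sub_zero]
        intro l _
        rw [Polynomial.coeff_C_mul_X_pow, if_neg]
        exact ne_of_gt l.isLt
      rw [h0, Polynomial.coeff_zero] at h1
      exact zero_ne_one h1
    · rw [map_sub, map_pow, Polynomial.aeval_X, map_sum, hf t htU, sub_eq_zero]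
      refine Finset.sum_congr rfl fun l _ => ?_
      rw [map_mul, map_pow, Polynomial.aeval_X, Polynomial.aeval_C, ← hc]
      rfl
  refine ⟨hwt, fun a i => ?_⟩
  classical
  let τ : Fin m → Qbar := fun j => toQ (t j) (ht j)
  let ω : Qbar := toQ (w t) hwt
  let x : Fin Y.N → Qbar := fun j => if j = i then 1 else 0
  have hsum : ∀ b, ∑ j, ((x j : Qbar) : ℂ) * Y.y b j t = Y.y b i t := by
    intro b
    rw [Finset.sum_eq_single i]
    · have : ((x i : Qbar) : ℂ) = 1 := by
        change (((if i = i then 1 else 0 : Qbar)) : ℂ) = 1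
        rw [if_pos rfl]
        rfl
      rw [this, one_mul]
    · intro j _ hj
      have : ((x j : Qbar) : ℂ) = 0 := by
        change (((if j = i then 1 else 0 : Qbar)) : ℂ) = 0
        rw [if_neg hj]
        rfl
      rw [this, zero_mul]
    · intro h
      exact absurd (Finset.mem_univ i) h
  have hform : ∀ z : ℂ, Polynomial.aeval z (formP Y τ ω x) =
      MvPolynomial.aeval (Sum.elim t fun _ => w t) Y.q * ∏ b, (z - Y.y b i t) := by
    intro z
    rw [formP_eval Y htU τ (fun _ => rfl) ω rfl x z]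
    simp only [hsum]
  refine alg_of_root (formP Y τ ω x) ?_ (Y.y a i t) ?_
  · intro h0
    obtain ⟨z, hz⟩ : ∃ z : ℂ, ∀ b, z ≠ Y.y b i t := by
      obtain ⟨z, hz⟩ := Infinite.exists_notMem_finset (Finset.univ.image fun b => Y.y b i t)
      exact ⟨z, fun b hb => hz (hb ▸ Finset.mem_image_of_mem _ (Finset.mem_univ b))⟩
    have h1 := hform z
    rw [h0, map_zero] at h1
    exact mul_ne_zero (Y.q_ne t htU)
      (Finset.prod_ne_zero_iff.2 fun b _ => sub_ne_zero.2 (hz b)) h1.symm
  · rw [hform, Finset.prod_eq_zero (Finset.mem_univ a) (sub_self _), mul_zero]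

theorem exists_perm_of_gal (Y : CoverData κ A U w) {t : Fin m → ℂ} (htU : t ∈ U)
    (ht : ∀ i, IsAlgebraic ℚ (t i)) (hwt : IsAlgebraic ℚ (w t)) (hy : ∀ a i, IsAlgebraic ℚ (Y.y a i t))
    (σ : Qbar ≃ₐ[kapM κ t (w t)] Qbar) :
    ∃ π : Equiv.Perm A, ∀ a i (u : Qbar), (u : ℂ) = Y.y a i t → ((σ u : Qbar) : ℂ) = Y.y (π a) i t := by
  classical
  let τ : Fin m → Qbar := fun j => toQ (t j) (ht j)
  let ω : Qbar := toQ (w t) hwt
  let y' : A → Fin Y.N → Qbar := fun a i => toQ (Y.y a i t) (hy a i)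
  have hy' : Function.Injective y' := by
    intro a b hab
    apply Y.inj t htU
    funext i
    exact congrArg Subtype.val (congrFun hab i)
  have hfix : ∀ u : Qbar, u ∈ kapM κ t (w t) → σ u = u := fun u hu => σ.commutes ⟨u, hu⟩
  have hτ : ∀ j, σ (τ j) = τ j := fun j => hfix _ (coord_mem κ t (w t) (Or.inl ⟨j, rfl⟩))
  have hω : σ ω = ω := hfix _ (coord_mem κ t (w t) (Or.inr rfl))
  have hκ : ∀ c : κ, σ (algebraMap κ Qbar c) = algebraMap κ Qbar c := fun c =>
    hfix _ ((le_sup_left : κ ≤ kapM κ t (w t)) c.2)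
  let qv : Qbar := MvPolynomial.aeval (Sum.elim τ fun _ => ω) Y.q
  have hqv : ((qv : Qbar) : ℂ) = MvPolynomial.aeval (Sum.elim t fun _ => w t) Y.q := by
    have h1 := aeval_coe (Sum.elim τ fun _ => ω) Y.q
    rw [← h1]
    congr 2
    funext e
    rcases e with e | e <;> rfl
  have hq0 : qv ≠ 0 := by
    intro h0
    apply Y.q_ne t htU
    rw [← hqv, h0]
    rfl
  have hσq : σ qv = qv := by
    refine hfix _ ?_
    exact aeval_mem κ (kapM κ t (w t)) le_sup_left (Sum.elim τ fun _ => ω) (by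
      rintro (e | e)
      · exact coord_mem κ t (w t) (Or.inl ⟨e, rfl⟩)
      · exact coord_mem κ t (w t) (Or.inr rfl)) Y.q
  have hfac : ∀ x : Fin Y.N → Qbar, formP Y τ ω x =
      Polynomial.C qv * ∏ a, (Polynomial.X - Polynomial.C (∑ i, x i * y' a i)) := by
    intro x
    apply Polynomial.map_injective (algebraMap Qbar ℂ) (algebraMap Qbar ℂ).injective
    apply Polynomial.funext
    intro z
    rw [Polynomial.eval_map_algebraMap, Polynomial.eval_map_algebraMap,
      formP_eval Y htU τ (fun _ => rfl) ω rfl x z, map_mul, map_prod, Polynomial.aeval_C]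
    congr 1
    · exact hqv.symm
    · refine Finset.prod_congr rfl fun a _ => ?_
      rw [map_sub, Polynomial.aeval_X, Polynomial.aeval_C, map_sum]
      congr 1
  obtain ⟨π, hπ⟩ := exists_perm (σ : Qbar →+* Qbar) y' hy' (by
    intro x
    have h1 : (formP Y τ ω fun i => (x : Qbar) ^ (i : ℕ)).map (σ : Qbar →+* Qbar) =
        formP Y τ ω fun i => (x : Qbar) ^ (i : ℕ) := by
      refine formP_map Y (σ : Qbar →+* Qbar) τ ω _ hκ hτ hω ?_
      intro i
      change σ ((x : Qbar) ^ (i : ℕ)) = (x : Qbar) ^ (i : ℕ)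
      rw [map_pow, map_natCast]
    rw [hfac, Polynomial.map_mul, Polynomial.map_C] at h1
    have h2 : (σ : Qbar →+* Qbar) qv = qv := hσq
    rw [h2] at h1
    exact mul_left_cancel₀ (Polynomial.C_ne_zero.2 hq0) h1)
  refine ⟨π, fun a i u hu => ?_⟩
  have hu' : u = y' a i := Subtype.ext hu
  have h3 : σ (y' a i) = y' (π a) i := hπ a i
  rw [hu', h3]
  rfl

theorem sigma_of_noRel [DecidableEq A] (Y : CoverData κ A U w) {t : Fin m → ℂ} (htU : t ∈ U)
    (ht : ∀ i, IsAlgebraic ℚ (t i)) (hwt : IsAlgebraic ℚ (w t)) (hy : ∀ a i, IsAlgebraic ℚ (Y.y a i t))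
    (x : ℕ) (c : A → ℤ) (z : Equiv.Perm A → (Fin m → ℂ) → ℂ)
    (hz : ∀ π u, z π u = ∑ a, (c a : ℂ) * ∑ i : Fin Y.N, (x : ℂ) ^ (i : ℕ) * Y.y (π a) i u)
    (hsep : Function.Injective fun π => z π t) {M : ℕ} (π : Fin M → Equiv.Perm A)
    (hπ : Function.Injective π) {b₀ : Fin M} (hb₀ : π b₀ = 1)
    (hconj : ∀ π' : Equiv.Perm A, (∀ Q : MvPolynomial ((Fin m ⊕ Unit) ⊕ Unit) κ,
        (∀ t ∈ U, MvPolynomial.aeval (Sum.elim (Sum.elim t fun _ => w t) fun _ => z 1 t) Q = 0) →
        ∀ t ∈ U, MvPolynomial.aeval (Sum.elim (Sum.elim t fun _ => w t) fun _ => z π' t) Q = 0) →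
        ∃ b, ∀ t ∈ U, z π' t = z (π b) t)
    (hno : ¬ HasRelationM U w (fun u => Matrix.of fun i b : Fin M => z (π b) u ^ (i : ℕ)) t κ
      (Fintype.card A).factorial) {π' : Equiv.Perm A}
    (hchain : Relation.ReflTransGen Elem.Next
      (⟨U, w, fun e : A × Fin Y.N => Y.y e.1 e.2⟩ : Elem m (A × Fin Y.N))
      ⟨U, w, fun e => Y.y (π' e.1) e.2⟩) :
    ∃ σ : Qbar ≃ₐ[kapM κ t (w t)] Qbar, ∀ a i (u : Qbar), (u : ℂ) = Y.y a i t →
      ((σ u : Qbar) : ℂ) = Y.y (π' a) i t := by
  classical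
  let y' : A → Fin Y.N → Qbar := fun a i => toQ (Y.y a i t) (hy a i)
  let Z : Equiv.Perm A → Qbar := fun ρ => ∑ a, (c a : Qbar) * ∑ i : Fin Y.N, (x : Qbar) ^ (i : ℕ) * y' (ρ a) i
  have hZ : ∀ ρ, ((Z ρ : Qbar) : ℂ) = z ρ t := by
    intro ρ
    rw [hz]
    change algebraMap Qbar ℂ (∑ a, (c a : Qbar) * ∑ i : Fin Y.N, (x : Qbar) ^ (i : ℕ) * y' (ρ a) i) = _
    rw [map_sum]
    refine Finset.sum_congr rfl fun a _ => ?_
    rw [map_mul, map_intCast, map_sum]
    congr 1
  have hZinj : ∀ ρ ρ', Z ρ = Z ρ' → ρ = ρ' := by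
    intro ρ ρ' h
    apply hsep
    change z ρ t = z ρ' t
    rw [← hZ, ← hZ, h]
  have hgal : ∀ σ : Qbar ≃ₐ[kapM κ t (w t)] Qbar, ∃ ρ : Equiv.Perm A, σ (Z 1) = Z ρ ∧
      ∀ a i (u : Qbar), (u : ℂ) = Y.y a i t → ((σ u : Qbar) : ℂ) = Y.y (ρ a) i t := by
    intro σ
    obtain ⟨ρ, hρ⟩ := exists_perm_of_gal Y htU ht hwt hy σ
    refine ⟨ρ, ?_, hρ⟩
    change σ (∑ a, (c a : Qbar) * ∑ i : Fin Y.N, (x : Qbar) ^ (i : ℕ) * y' a i) = _
    rw [map_sum]
    refine Finset.sum_congr rfl fun a _ => ?_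
    rw [map_mul, map_intCast, map_sum]
    congr 1
    refine Finset.sum_congr rfl fun i _ => ?_
    rw [map_mul, map_pow, map_natCast]
    congr 1
    exact Subtype.ext (hρ a i (y' a i) rfl)
  rcases Nat.lt_or_ge 1 M with hM | hM
  · -- at least two elements
    let _ : Normal (kapM κ t (w t)) Qbar := normal_K _
    have hint : IsIntegral (kapM κ t (w t)) (Z 1) := (normal_K (kapM κ t (w t))).isIntegral _
    let p := minpoly (kapM κ t (w t)) (Z 1)
    have hdeg : p.natDegree ≤ (Fintype.card A).factorial := by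
      have h1 : Fintype.card (p.rootSet Qbar) = p.natDegree :=
        Polynomial.card_rootSet_eq_natDegree (minpoly.irreducible hint).separable
          ((normal_K (kapM κ t (w t))).splits (Z 1))
      rw [← h1, ← Fintype.card_perm]
      have h2 : ∀ u : p.rootSet Qbar, ∃ ρ : Equiv.Perm A, (u : Qbar) = Z ρ := by
        intro u
        have h3 : Polynomial.aeval (u : Qbar) p = 0 := (Polynomial.mem_rootSet.1 u.2).2
        obtain ⟨σ, hσ⟩ := (isConjRoot_of_aeval_eq_zero hint h3).symm.exists_algEquiv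
        obtain ⟨ρ, hρ, -⟩ := hgal σ
        exact ⟨ρ, by rw [← hσ, hρ]⟩
      choose g hg using h2
      refine Fintype.card_le_of_injective g fun u v huv => Subtype.ext ?_
      rw [hg u, hg v, huv]
    let e0 : Fin M × Fin M := (⟨1, hM⟩, b₀)
    let r : MvPolynomial (Fin M × Fin M) (kapM κ t (w t)) := Polynomial.aeval (MvPolynomial.X e0) p
    have hr : ∀ N : Matrix (Fin M) (Fin M) ℂ, evK (kapM κ t (w t)) r N =
        Polynomial.aeval (N ⟨1, hM⟩ b₀) p := by
      intro N
      change MvPolynomial.aeval (fun p : Fin M × Fin M => N p.1 p.2)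
        (Polynomial.aeval (MvPolynomial.X e0) p) = _
      rw [← Polynomial.aeval_algHom_apply, MvPolynomial.aeval_X]
    have hrdeg : r.totalDegree ≤ (Fintype.card A).factorial := by
      change (Polynomial.aeval (MvPolynomial.X e0) p).totalDegree ≤ _
      rw [Polynomial.aeval_eq_sum_range]
      refine MvPolynomial.totalDegree_finsetSum_le fun k hk => ?_
      refine (MvPolynomial.totalDegree_smul_le _ _).trans ?_
      rw [MvPolynomial.totalDegree_X_pow]
      rw [Finset.mem_range] at hk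
      omega
    have hP : ∀ e : Fin M × Fin M, IsAlgebraic ℚ
        ((Matrix.of fun i b : Fin M => z (π b) t ^ (i : ℕ)) e.1 e.2) := by
      intro e
      change IsAlgebraic ℚ (z (π e.2) t ^ (e.1 : ℕ))
      rw [← hZ]
      exact (mem_algebraicClosure_iff.1 (Z (π e.2)).2).pow _
    have hvan : ∀ N ∈ ZClosure (Matrix.of fun i b : Fin M => z (π b) t ^ (i : ℕ)),
        evK (kapM κ t (w t)) r N = 0 := by
      intro N hN
      have h1 := hN.2 (MvPolynomial.X e0 - MvPolynomial.C (toQ _ (hP e0))) (by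
        rw [map_sub, MvPolynomial.aeval_X, MvPolynomial.aeval_C]
        exact sub_self _)
      rw [map_sub, MvPolynomial.aeval_X, MvPolynomial.aeval_C, sub_eq_zero] at h1
      have h2 : N ⟨1, hM⟩ b₀ = z 1 t := by
        change N e0.1 e0.2 = z 1 t
        rw [h1]
        change z (π b₀) t ^ 1 = z 1 t
        rw [pow_one, hb₀]
      rw [hr, h2, ← hZ]
      change Polynomial.aeval (algebraMap Qbar ℂ (Z 1)) p = 0
      rw [Polynomial.aeval_algebraMap_apply, minpoly.aeval, map_zero]
    have hfib : ∀ N ∈ BFibreM U w (fun u => Matrix.of fun i b : Fin M => z (π b) u ^ (i : ℕ)) t,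
        evK (kapM κ t (w t)) r N = 0 := by
      by_contra hcon
      exact hno ⟨r, hrdeg, hvan, hcon⟩
    have hN₁ : (Matrix.of fun i b : Fin M => z (π' * π b) t ^ (i : ℕ)) ∈
        BFibreM U w (fun u => Matrix.of fun i b : Fin M => z (π b) u ^ (i : ℕ)) t := by
      refine ⟨?_, ?_⟩
      · have h1 : (Matrix.of fun i b : Fin M => z (π' * π b) t ^ (i : ℕ)) =
            (Matrix.vandermonde fun b : Fin M => z (π' * π b) t).transpose := by
          ext i b
          rfl
        rw [h1, Matrix.det_transpose, isUnit_iff_ne_zero, Matrix.det_vandermonde_ne_zero_iff]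
        intro b b' hbb
        have h2 : π' * π b = π' * π b' := hsep hbb
        exact hπ (mul_left_cancel h2)
      · intro q hq
        have h1 := Pool.Agent.Helper79.HH.evP_chain (hchain.lift (elemMat x c π)
          fun a b h => elemMat_next x c π h) q (by
          intro u hu
          have h2 := hq u hu
          have h3 : (elemMat x c π (⟨U, w, fun e : A × Fin Y.N => Y.y e.1 e.2⟩ :
              Elem m (A × Fin Y.N))).P u = Matrix.of fun i b : Fin M => z (π b) u ^ (i : ℕ) := by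
            ext i b
            change (∑ a, (c a : ℂ) * ∑ j : Fin Y.N, (x : ℂ) ^ (j : ℕ) * Y.y (π b a) j u) ^ (i : ℕ) =
              z (π b) u ^ (i : ℕ)
            rw [hz]
          rw [h3]
          exact h2) t htU
        have h4 : (elemMat x c π (⟨U, w, fun e : A × Fin Y.N => Y.y (π' e.1) e.2⟩ :
            Elem m (A × Fin Y.N))).P t = Matrix.of fun i b : Fin M => z (π' * π b) t ^ (i : ℕ) := by
          ext i b
          change (∑ a, (c a : ℂ) * ∑ j : Fin Y.N, (x : ℂ) ^ (j : ℕ) * Y.y (π' (π b a)) j t) ^ (i : ℕ) =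
            z (π' * π b) t ^ (i : ℕ)
          rw [hz]
          rfl
        rw [h4] at h1
        exact h1
    have h5 := hfib _ hN₁
    rw [hr] at h5
    have h6 : (Matrix.of fun i b : Fin M => z (π' * π b) t ^ (i : ℕ)) ⟨1, hM⟩ b₀ =
        algebraMap Qbar ℂ (Z π') := by
      change z (π' * π b₀) t ^ 1 = ((Z π' : Qbar) : ℂ)
      rw [pow_one, hb₀, mul_one, hZ]
    rw [h6, Polynomial.aeval_algebraMap_apply] at h5
    have h7 : Polynomial.aeval (Z π') p = 0 :=
      (algebraMap Qbar ℂ).injective (by rw [h5, map_zero])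
    obtain ⟨σ, hσ⟩ := (isConjRoot_of_aeval_eq_zero hint h7).symm.exists_algEquiv
    obtain ⟨ρ, hρ, hρ'⟩ := hgal σ
    have h8 : π' = ρ := hZinj _ _ (by rw [← hσ, hρ])
    exact ⟨σ, by rw [h8]; exact hρ'⟩
  · -- one element
    obtain ⟨b, hb⟩ := hconj π' (by
      intro Q hQ
      have hQ' : ∀ u ∈ U, MvPolynomial.aeval (Sum.elim (Sum.elim u fun _ => w u) fun _ => z 1 u)
          Q = 0 := hQ
      have key := elem_chain x c Q hchain (by
        intro u hu
        have h1 := hQ' u hu
        rw [hz] at h1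
        exact h1)
      intro u hu
      have h2 := key u hu
      rw [hz]
      exact h2)
    have hb' : b = b₀ := by
      apply Fin.ext
      have h1 := b.isLt
      have h2 := b₀.isLt
      omega
    have h3 : π' = 1 := by
      apply hsep
      change z π' t = z 1 t
      rw [hb t htU, hb', hb₀]
    refine ⟨1, fun a i u hu => ?_⟩
    rw [h3]
    exact hu

end Pool.Agent.Helper79.HG
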