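import Pool.Agent.Helper79.HG.MainV
import Pool.Agent.Helper79.HG.Cover
import Pool.Agent.Helper79.HG.RelG

/-!
# HG-20: quantitative Hilbert irreducibility: the Galois group contains the monodromy group

(helper79)
-/

namespace Pool.Agent.Helper79.HG

open Pool.Agent.Helper79.BB Pool.Agent.Helper79.DD Pool.Agent.Helper64.Per

/-- The integer parameters `a` with coordinates of absolute value at most `X` such that for an algebraic root `θ` of
`F_a` with `G_0(θ) ≠ 0` the point `t = (G_1(θ) / G_0(θ), …, G_m(θ) / G_0(θ))` is in `V`, and there is a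
permutation `π` of the points of the cover over `U` which is given by analytic continuation, but not by
an element of the Galois group of `κ(t, w t)` at `t`. -/
def SmallGal {κ : IntermediateField ℚ Qbar} {J : Type} [Fintype J] (ω : Module.Basis J ℚ κ)
    (N : Finset (ℕ × J)) {m : ℕ} {A : Type} [Fintype A] {U : Set (Fin m → ℂ)}
    {w : (Fin m → ℂ) → ℂ} (Y : CoverData κ A U w) (V : Set (Fin m → ℂ)) (D e X : ℕ) :
    Set (DD.Px m D e J N → ℤ) :=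
  {a | (∀ p, |a p| ≤ X) ∧ ∃ θ : Qbar, polyU ω N a θ = 0 ∧ denU ω N a θ ≠ 0 ∧
    pointU ω N a θ ∈ V ∧ ∃ π : Equiv.Perm A, Relation.ReflTransGen Elem.Next
      (⟨U, w, fun e : A × Fin Y.N => Y.y e.1 e.2⟩ : Elem m (A × Fin Y.N))
      ⟨U, w, fun e => Y.y (π e.1) e.2⟩ ∧
      ¬ ∃ σ : Qbar ≃ₐ[kapM κ (pointU ω N a θ) (w (pointU ω N a θ))] Qbar, ∀ a' i (u : Qbar),
        (u : ℂ) = Y.y a' i (pointU ω N a θ) → ((σ u : Qbar) : ℂ) = Y.y (π a') i (pointU ω N a θ)}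

/-- Finite sums of bounds. -/
theorem sum_bound {I : Type} (S : Finset I) {f : I → ℕ → ℝ} {n : ℝ}
    (h : ∀ s ∈ S, ∃ C θ₀ : ℝ, 0 < θ₀ ∧ ∀ X : ℕ, 1 ≤ X → f s X ≤ C * (X : ℝ) ^ (n - θ₀)) :
    ∃ C θ₀ : ℝ, 0 < θ₀ ∧ ∀ X : ℕ, 1 ≤ X → ∑ s ∈ S, f s X ≤ C * (X : ℝ) ^ (n - θ₀) := by
  classical
  induction S using Finset.induction_on with
  | empty =>
    refine ⟨0, 1, one_pos, fun X _ => ?_⟩
    rw [Finset.sum_empty, zero_mul]
  | insert s S hs ih =>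
    obtain ⟨C₁, θ₁, hθ₁, h₁⟩ := h s (Finset.mem_insert_self _ _)
    obtain ⟨C₂, θ₂, hθ₂, h₂⟩ := ih fun s' hs' => h s' (Finset.mem_insert_of_mem hs')
    refine ⟨|C₁| + |C₂|, min θ₁ θ₂, lt_min hθ₁ hθ₂, fun X hX => ?_⟩
    have hX1 : (1 : ℝ) ≤ X := by exact_mod_cast hX
    rw [Finset.sum_insert hs, add_mul]
    have h3 : ∀ C θ : ℝ, min θ₁ θ₂ ≤ θ → C * (X : ℝ) ^ (n - θ) ≤ |C| * (X : ℝ) ^ (n - min θ₁ θ₂) := by
      intro C θ hθ
      refine (mul_le_mul_of_nonneg_right (le_abs_self C) (by positivity)).trans ?_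
      exact mul_le_mul_of_nonneg_left (Real.rpow_le_rpow_of_exponent_le hX1 (by linarith)) (abs_nonneg _)
    exact add_le_add ((h₁ X hX).trans (h3 _ _ (min_le_left _ _)))
      ((h₂ X hX).trans (h3 _ _ (min_le_right _ _)))

section

variable {κ : IntermediateField ℚ Qbar} {m : ℕ} {A : Type} [Fintype A] {U : Set (Fin m → ℂ)}
  {w : (Fin m → ℂ) → ℂ}

/-- A combination of the coordinates of the points. -/
noncomputable def sc (Y : CoverData κ A U w) (x : ℕ) (a : A) (t : Fin m → ℂ) : ℂ :=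
  ∑ i : Fin Y.N, (x : ℂ) ^ (i : ℕ) * Y.y a i t

/-- A combination of the points. -/
noncomputable def zc (Y : CoverData κ A U w) (e : A → ℕ) (x x' : ℕ) (π : Equiv.Perm A)
    (t : Fin m → ℂ) : ℂ :=
  ∑ a, (((x' : ℤ) ^ e a : ℤ) : ℂ) * sc Y x (π a) t

theorem analytic_sc (Y : CoverData κ A U w) (x : ℕ) (a : A) : AnalyticOnNhd ℂ (sc Y x a) U := by
  have h1 : sc Y x a = ∑ i : Fin Y.N, fun t => (x : ℂ) ^ (i : ℕ) * Y.y a i t := by
    funext t
    rw [Finset.sum_apply]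
    rfl
  rw [h1]
  refine Finset.analyticOnNhd_sum _ fun i _ => ?_
  exact analyticOnNhd_const.mul (Y.analytic a i)

/-- The part of the bad set for the combination with parameters `x`, `x'`. -/
def BadXX {J : Type} [Fintype J] (ω : Module.Basis J ℚ κ) (N : Finset (ℕ × J))
    (Y : CoverData κ A U w) (V : Set (Fin m → ℂ)) (D e : ℕ) (o : A → ℕ) (x x' X : ℕ) :
    Set (DD.Px m D e J N → ℤ) :=
  {a | (∀ p, |a p| ≤ X) ∧ ∃ θ : Qbar, polyU ω N a θ = 0 ∧ denU ω N a θ ≠ 0 ∧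
    pointU ω N a θ ∈ V ∧ (Function.Injective fun a' => sc Y x a' (pointU ω N a θ)) ∧
    (Function.Injective fun π => zc Y o x x' π (pointU ω N a θ)) ∧
    ∃ π : Equiv.Perm A, Relation.ReflTransGen Elem.Next
      (⟨U, w, fun e : A × Fin Y.N => Y.y e.1 e.2⟩ : Elem m (A × Fin Y.N))
      ⟨U, w, fun e => Y.y (π e.1) e.2⟩ ∧
      ¬ ∃ σ : Qbar ≃ₐ[kapM κ (pointU ω N a θ) (w (pointU ω N a θ))] Qbar, ∀ a' i (u : Qbar),
        (u : ℂ) = Y.y a' i (pointU ω N a θ) → ((σ u : Qbar) : ℂ) = Y.y (π a') i (pointU ω N a θ)}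

end

/-- The points considered have algebraic coordinates. -/
theorem algebraic_pointU {κ : IntermediateField ℚ Qbar} {J : Type} [Fintype J]
    (ω : Module.Basis J ℚ κ) (N : Finset (ℕ × J)) {m D e : ℕ} (a : DD.Px m D e J N → ℤ) (θ : Qbar)
    (i : Fin m) : IsAlgebraic ℚ (pointU ω N a θ i) := by
  have hω : ∀ j, algebraMap κ ℂ (ω j) = ((algebraMap κ Qbar (ω j) : Qbar) : ℂ) := fun j => rfl
  have h1 : denU ω N a θ = ((∑ l : N, (a (Sum.inr (Sum.inr l)) : Qbar) * algebraMap κ Qbar (ω l.1.2) *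
      θ ^ l.1.1 : Qbar) : ℂ) := by
    rw [denU]
    push_cast
    rfl
  have h2 : pointU ω N a θ i = ((((∑ l : Fin (e + 1) × J, (a (Sum.inr (Sum.inl (i, l))) : Qbar) *
      algebraMap κ Qbar (ω l.2) * θ ^ (l.1 : ℕ)) / (∑ l : N, (a (Sum.inr (Sum.inr l)) : Qbar) *
      algebraMap κ Qbar (ω l.1.2) * θ ^ l.1.1)) : Qbar) : ℂ) := by
    rw [pointU, h1]
    push_cast
    rfl
  rw [h2]
  exact (mem_algebraicClosure_iff.1 (Subtype.mem _))

theorem badXX_count {κ : IntermediateField ℚ Qbar} [FiniteDimensional ℚ κ] {m : ℕ} (hm : 1 ≤ m)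
    {U : Set (Fin m → ℂ)} (hU : IsOpen U) (hU' : IsPreconnected U) {μ : ℕ}
    {w : (Fin m → ℂ) → ℂ} (hw : IsBranchM κ U μ w) {A : Type} [Fintype A] [DecidableEq A]
    (Y : CoverData κ A U w) {T : MvPolynomial (Fin m) κ} (hT : T ≠ 0) {V : Set (Fin m → ℂ)}
    (hV : DeepW T U V) {J : Type} [Fintype J] (ω : Module.Basis J ℚ κ)
    {D : ℕ} (hD : 1 ≤ D) (e : ℕ) (N : Finset (ℕ × J)) (hN : ∃ j, (0, j) ∈ N) (o : A → ℕ) (x x' : ℕ) :
    ∃ C θ₀ : ℝ, 0 < θ₀ ∧ ∀ X : ℕ, 1 ≤ X → ((BadXX ω N Y V D e o x x' X).ncard : ℝ) ≤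
      C * (X : ℝ) ^ ((((D + 1 + m * (e + 1)) * Module.finrank ℚ κ + N.card : ℕ) : ℝ) - θ₀) := by
  classical
  have hVU := deepW_sub hV
  by_cases hex : ∃ t ∈ U, Function.Injective fun a => sc Y x a t
  swap
  · refine ⟨0, 1, one_pos, fun X _ => ?_⟩
    have : BadXX ω N Y V D e o x x' X = ∅ := by
      rw [Set.eq_empty_iff_forall_notMem]
      rintro a ⟨_, θ, _, _, h2, h3, _⟩
      exact hex ⟨_, hVU h2, h3⟩
    rw [this, Set.ncard_empty, Nat.cast_zero, zero_mul]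
  obtain ⟨t₁, ht₁, hinj₁⟩ := hex
  -- the cover by one function
  set sub : MvPolynomial ((Fin m ⊕ Unit) ⊕ (Fin Y.N ⊕ Unit)) κ →ₐ[κ]
      MvPolynomial ((Fin m ⊕ Unit) ⊕ Unit) κ := MvPolynomial.aeval
    (Sum.elim (fun i => MvPolynomial.X (Sum.inl i))
      (Sum.elim (fun i => MvPolynomial.C ((x : κ) ^ (i : ℕ))) fun _ : Unit => MvPolynomial.X (Sum.inr ()))) with hsub
  have hΦ : ∀ t ∈ U, ∀ Z : ℂ, MvPolynomial.aeval (Sum.elim (Sum.elim t fun _ => w t) fun _ => Z)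
      (sub Y.Φ) = MvPolynomial.aeval (Sum.elim t fun _ => w t) Y.q * ∏ a, (Z - sc Y x a t) := by
    intro t ht Z
    have h1 := Y.eqn t ht (fun i => (x : ℂ) ^ (i : ℕ)) Z
    rw [hsub]
    have h2 : (MvPolynomial.aeval (Sum.elim (Sum.elim t fun _ => w t) fun _ => Z) :
        MvPolynomial ((Fin m ⊕ Unit) ⊕ Unit) κ →ₐ[κ] ℂ).comp (MvPolynomial.aeval
        (Sum.elim (fun i => MvPolynomial.X (Sum.inl i))
        (Sum.elim (fun i : Fin Y.N => MvPolynomial.C ((x : κ) ^ (i : ℕ))) fun _ : Unit => MvPolynomial.X (Sum.inr ())))) =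
        MvPolynomial.aeval (Sum.elim (Sum.elim t fun _ => w t)
          (Sum.elim (fun i : Fin Y.N => (x : ℂ) ^ (i : ℕ)) fun _ : Unit => Z)) := by
      apply MvPolynomial.algHom_ext
      rintro (i | i | i)
      · simp
      · simp
      · simp
    have h3 := congrArg (fun f => f Y.Φ) h2
    simp only [AlgHom.comp_apply] at h3
    rw [h3, h1]
    rfl
  obtain ⟨F, μ', M, E, π, hTF, hw', hP, ⟨b₀, hb₀⟩, hπ, hconj⟩ := exists_cover hU hU' ⟨t₁, ht₁⟩ hw (sc Y x)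
    (analytic_sc Y x) (fun a b hab => ⟨t₁, ht₁, fun h => hab (hinj₁ h)⟩) Y.q (sub Y.Φ)
    ⟨t₁, ht₁, Y.q_ne t₁ ht₁⟩ hΦ (fun a => (x' : ℤ) ^ o a) (zc Y o x x') (fun _ _ => rfl) hT
  have hne : Nonempty (Fin M) := ⟨b₀⟩
  obtain ⟨a₀, ha₀⟩ := mainV E hU hw' hP hm hU' (hV.dvd hTF) ω hN hD e
  set δ : ℕ := (Fintype.card A).factorial with hδ
  refine ⟨Real.exp (((δ : ℝ) + 2) ^ a₀), 1 / ((δ : ℝ) + 2) ^ a₀, by positivity, fun X hX => ?_⟩
  refine le_trans ?_ (ha₀ δ X hX)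
  have hfin : (RelPointV ω N U V w (fun t => Matrix.of fun i b : Fin M => zc Y o x x' (π b) t ^ (i : ℕ))
      δ D e X).Finite := (AA.box_card X _ fun a ha => ha.1).1
  have hsubset : BadXX ω N Y V D e o x x' X ⊆ RelPointV ω N U V w
      (fun t => Matrix.of fun i b : Fin M => zc Y o x x' (π b) t ^ (i : ℕ)) δ D e X := by
    rintro a ⟨ha, θ, hθ, hq, hθV, hs, hz, π', hchain, hσ⟩
    refine ⟨ha, θ, hθ, hq, hθV, ?_, ?_⟩
    · have h1 : (Matrix.of fun i b : Fin M => zc Y o x x' (π b) (pointU ω N a θ) ^ (i : ℕ)) =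
          (Matrix.vandermonde fun b => zc Y o x x' (π b) (pointU ω N a θ)).transpose := by
        ext i b
        rfl
      change IsUnit (Matrix.of fun i b : Fin M => zc Y o x x' (π b) (pointU ω N a θ) ^ (i : ℕ)).det
      rw [h1, Matrix.det_transpose, isUnit_iff_ne_zero, Matrix.det_vandermonde_ne_zero_iff]
      exact hz.comp hπ
    · by_contra hno
      obtain ⟨h1, h2⟩ := algebraic_point hw Y (hVU hθV) (algebraic_pointU ω N a θ)
      exact hσ (sigma_of_noRel Y (hVU hθV) (algebraic_pointU ω N a θ) h1 h2 x (fun a => (x' : ℤ) ^ o a)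
        (zc Y o x x') (fun _ _ => rfl) hz π hπ hb₀ hconj hno hchain)
  exact_mod_cast Set.ncard_le_ncard hsubset hfin

theorem level_count {κ : IntermediateField ℚ Qbar} [FiniteDimensional ℚ κ] {m : ℕ} (hm : 1 ≤ m)
    {U : Set (Fin m → ℂ)} (hU : IsOpen U) (hU' : IsPreconnected U) {μ : ℕ}
    {w : (Fin m → ℂ) → ℂ} (hw : IsBranchM κ U μ w) {A : Type} [Fintype A] [DecidableEq A]
    (Y : CoverData κ A U w) {T : MvPolynomial (Fin m) κ} (hT : T ≠ 0) {V : Set (Fin m → ℂ)}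
    (hV : DeepW T U V) {J : Type} [Fintype J] (ω : Module.Basis J ℚ κ)
    {D : ℕ} (hD : 1 ≤ D) (e : ℕ) (N : Finset (ℕ × J)) (hN : ∃ j, (0, j) ∈ N) :
    ∃ C θ₀ : ℝ, 0 < θ₀ ∧ ∀ X : ℕ, 1 ≤ X → ((SmallGal ω N Y V D e X).ncard : ℝ) ≤
      C * (X : ℝ) ^ ((((D + 1 + m * (e + 1)) * Module.finrank ℚ κ + N.card : ℕ) : ℝ) - θ₀) := by
  classical
  have hVU := deepW_sub hV
  -- a numbering of the points
  set o : A → ℕ := fun a => (Fintype.equivFin A a : ℕ) with ho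
  have ho1 : Function.Injective o := fun a b h => (Fintype.equivFin A).injective (Fin.ext h)
  have ho2 : ∀ a, o a < Fintype.card A := fun a => (Fintype.equivFin A a).2
  set B₁ : ℕ := Fintype.card A ^ 2 * Y.N with hB₁
  set B₂ : ℕ := (Fintype.card A).factorial ^ 2 * Fintype.card A with hB₂
  obtain ⟨C, θ₀, hθ₀, hC⟩ := sum_bound (Finset.range (B₁ + 1) ×ˢ Finset.range (B₂ + 1))
    (f := fun p X => ((BadXX ω N Y V D e o p.1 p.2 X).ncard : ℝ))
    (n := (((D + 1 + m * (e + 1)) * Module.finrank ℚ κ + N.card : ℕ) : ℝ))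
    fun p _ => badXX_count hm hU hU' hw Y hT hV ω hD e N hN o p.1 p.2
  refine ⟨C, θ₀, hθ₀, fun X hX => le_trans ?_ (hC X hX)⟩
  have hsub : SmallGal ω N Y V D e X ⊆
      ⋃ p ∈ Finset.range (B₁ + 1) ×ˢ Finset.range (B₂ + 1), BadXX ω N Y V D e o p.1 p.2 X := by
    rintro a ⟨ha, θ, hθ, hq, hθV, hπ⟩
    obtain ⟨x, hx, hxi⟩ := exists_sep (fun a' i => Y.y a' i (pointU ω N a θ)) (Y.inj _ (hVU hθV))
    obtain ⟨x', hx', hxi'⟩ := exists_sep_perm o ho1 ho2 (fun a' => sc Y x a' (pointU ω N a θ)) hxi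
    rw [Set.mem_iUnion₂]
    refine ⟨(x, x'), ?_, ha, θ, hθ, hq, hθV, hxi, hxi', hπ⟩
    rw [Finset.mem_product, Finset.mem_range, Finset.mem_range]
    exact ⟨by omega, by omega⟩
  have hfin : ∀ p : ℕ × ℕ, (BadXX ω N Y V D e o p.1 p.2 X).Finite := fun p =>
    (AA.box_card X _ fun a ha => ha.1).1
  have h1 : (SmallGal ω N Y V D e X).ncard ≤
      ∑ p ∈ Finset.range (B₁ + 1) ×ˢ Finset.range (B₂ + 1), (BadXX ω N Y V D e o p.1 p.2 X).ncard := by
    refine (Set.ncard_le_ncard hsub (Set.Finite.biUnion (Finset.finite_toSet _) fun p _ => hfin p)).trans ?_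
    exact Finset.set_ncard_biUnion_le _ _
  exact_mod_cast h1

end Pool.Agent.Helper79.HG
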