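import Pool.Agent.Helper79.DD.Final
import Pool.Agent.Helper79.HG.CountW

/-!
# HG: the theorem on period relations at the points where the period matrix is invertible

The proof is that of `Pool.Agent.Helper79.DD.mainU`, which uses the invertibility of the period matrix only at the
points considered; the condition on the set `V` is weaker.
-/

open Polynomial

namespace Pool.Agent.Helper79.HG

open Pool.Agent.Helper79.GX Pool.Agent.Helper64.Per Pool.Agent.Helper79.GA Pool.Agent.Helper79.CU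
  Pool.Agent.Helper79.AA Pool.Agent.Helper79.BB Pool.Agent.Helper79.DD

/-- The integer parameters `a` with coordinates of absolute value at most `X` such that for a root `θ` of
`F_a` with `G_0(θ) ≠ 0` the point `t = (G_1(θ) / G_0(θ), …, G_m(θ) / G_0(θ))` is in `V`, the matrix `P t` is
invertible and there is a relation of degree at most `δ` over `κ(s)` at the point `s = (t, w t)`. -/
def RelPointV {κ : IntermediateField ℚ Qbar} {J : Type} [Fintype J] (ω : Module.Basis J ℚ κ)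
    (N : Finset (ℕ × J)) {m : ℕ} {ι : Type} [Fintype ι] [DecidableEq ι] (U V : Set (Fin m → ℂ))
    (w : (Fin m → ℂ) → ℂ) (P : (Fin m → ℂ) → Matrix ι ι ℂ) (δ D e X : ℕ) :
    Set (DD.Px m D e J N → ℤ) :=
  {a | (∀ p, |a p| ≤ X) ∧ ∃ θ : ℂ, polyU ω N a θ = 0 ∧ denU ω N a θ ≠ 0 ∧
    pointU ω N a θ ∈ V ∧ IsUnit (P (pointU ω N a θ)).det ∧ HasRelationM U w P (pointU ω N a θ) κ δ}

section

variable {κ : IntermediateField ℚ Qbar} {m : ℕ} {F : FamiliesM κ m} {μ r : ℕ} {ι : Type}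
  [Fintype ι] [DecidableEq ι] (E : F.Sub μ r ι) {U : Set (Fin m → ℂ)} (hU : IsOpen U)
  {w : (Fin m → ℂ) → ℂ} (hw : IsBranchM κ U μ w) {P : (Fin m → ℂ) → Matrix ι ι ℂ}
  (hP : E.IsPeriod U w P)

variable [FiniteDimensional ℚ κ] [Nonempty ι] (hm : 1 ≤ m) (hU' : IsPreconnected U)
  {V : Set (Fin m → ℂ)} (hV : DeepW F.T U V) {J : Type}
  [Fintype J] (ω : Module.Basis J ℚ κ) {N : Finset (ℕ × J)} (hN : ∃ j, (0, j) ∈ N)

include hU hw hP hm hU' hV hN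

/-- The theorem on the points of bounded degree, with the constants of the core theorem. -/
theorem mainV₀ {D : ℕ} (hD : 1 ≤ D) (e : ℕ) :
    ∃ (θ₀ C : ℝ) (N₁ s c₁ δ₀ : ℕ), 0 < θ₀ ∧ 0 ≤ C ∧ ∀ δ X : ℕ, 1 ≤ X →
      ((RelPointV ω N U V w P δ D e X).ncard : ℝ) ≤
        C * (X : ℝ) ^ ((Fintype.card (DD.Px m D e J N) : ℝ) - θ₀) +
        C * (bB m (N₁ * (δ + 2) ^ s) δ₀ (c₁ * (δ + 2)) + 1) *
          (X : ℝ) ^ ((Fintype.card (DD.Px m D e J N) : ℝ) -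
            1 / (2 * (bE (N₁ * (δ + 2) ^ s) : ℝ) + 4)) := by
  classical
  have hVU := deepW_sub hV
  obtain ⟨f, hf⟩ := hw.eqn
  rcases U.eq_empty_or_nonempty with hUe | ⟨t₁, ht₁⟩
  · refine ⟨1, 0, 0, 0, 0, 0, one_pos, le_rfl, fun δ X _ => ?_⟩
    have : RelPointV ω N U V w P δ D e X = ∅ := by
      rw [Set.eq_empty_iff_forall_notMem]
      rintro a ⟨_, θ, _, _, h2, _, _⟩
      have h3 := hVU h2
      rw [hUe] at h3
      exact h3
    rw [this, Set.ncard_empty, Nat.cast_zero]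
    simp
  have hμ : 0 < μ := by
    rcases Nat.eq_zero_or_pos μ with h0 | h0
    · subst h0
      have h1 := hf _ ht₁
      simp at h1
    · exact h0
  have hJ : Nonempty J := ω.index_nonempty
  obtain ⟨j₀⟩ := hJ
  obtain ⟨j₁, hj₁⟩ := hN
  set l₀ : N := ⟨(0, j₁), hj₁⟩ with hl₀
  set gd : N → ℕ × J := fun l => l.1 with hgd
  -- the system of the letters
  obtain ⟨𝔇, hstar⟩ := exists_uniM ω gd l₀ (m := m) e hD j₀ F.T_ne
    (A := fun i => wm (SubTensorM.B E i)) fun i => fam_tame_wm F E i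
  set δ₀ : ℕ := 𝔇.Θ.totalDegree + ∑ i, ∑ x, ∑ y, (𝔇.M i x y).totalDegree with hδ₀
  have hδM : ∀ i x y, (𝔇.M i x y).totalDegree ≤ δ₀ := by
    intro i x y
    have h1 : (𝔇.M i x y).totalDegree ≤ ∑ y, (𝔇.M i x y).totalDegree :=
      Finset.single_le_sum (f := fun y => (𝔇.M i x y).totalDegree) (fun _ _ => Nat.zero_le _)
        (Finset.mem_univ y)
    have h2 : ∑ y, (𝔇.M i x y).totalDegree ≤ ∑ x, ∑ y, (𝔇.M i x y).totalDegree :=
      Finset.single_le_sum (f := fun x => ∑ y, (𝔇.M i x y).totalDegree)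
        (fun _ _ => Nat.zero_le _) (Finset.mem_univ x)
    have h3 : ∑ x, ∑ y, (𝔇.M i x y).totalDegree ≤ ∑ i, ∑ x, ∑ y, (𝔇.M i x y).totalDegree :=
      Finset.single_le_sum (f := fun i => ∑ x, ∑ y, (𝔇.M i x y).totalDegree)
        (fun _ _ => Nat.zero_le _) (Finset.mem_univ i)
    omega
  obtain ⟨θ₀, C, hθ₀, hC, hcount⟩ := DD.countXW ω (gd := gd) (T := F.T) F.T_ne hU hU' hm hD hV j₀
    (l₀ := l₀) rfl 𝔇.Θ_ne
  refine ⟨θ₀, C, Fintype.card 𝔇.Γ, Fintype.card (Al μ ι), 6 * (𝔇.c + 1), δ₀, hθ₀, hC,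
    fun δ X hX => ?_⟩
  set ρ : ℕ := δ + 1 with hρ
  obtain ⟨hzan, hzode⟩ := words_sys E hU hw hP hμ ρ
  set 𝔈 := (𝔇.tens hstar ρ).quo (cls (β := Al μ ι) (r := ρ)) rep cls_rep
    (fun i => tensB_qinv (𝔇.M i)) with h𝔈
  have hcard : Fintype.card (𝔈.Γ × Wt (Al μ ι) ρ) ≤
      Fintype.card 𝔇.Γ * (δ + 2) ^ Fintype.card (Al μ ι) := by
    rw [Fintype.card_prod]
    exact Nat.mul_le_mul le_rfl (card_Wt ρ)
  have hbox : DD.BoxC m (Fintype.card 𝔇.Γ * (δ + 2) ^ Fintype.card (Al μ ι)) δ₀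
      (6 * (𝔇.c + 1) * (δ + 2))
      (bB m (Fintype.card 𝔇.Γ * (δ + 2) ^ Fintype.card (Al μ ι)) δ₀ (6 * (𝔇.c + 1) * (δ + 2)))
      (bE (Fintype.card 𝔇.Γ * (δ + 2) ^ Fintype.card (Al μ ι))) :=
    box_coreX m _ δ₀ _ hm
  have hsym : ∀ t ∈ U, ∀ I : Fin ρ → Al μ ι, wd ρ (w t) (P t) I = wd ρ (w t) (P t) (rep (cls I)) :=
    fun t _ I => wd_sym ρ _ _ I
  have hc : 6 * 𝔈.c = 6 * (𝔇.c + 1) * (δ + 2) := by
    change 6 * ((𝔇.c + 1) * (ρ + 1)) = _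
    rw [hρ]
    ring
  have hbox' : DD.BoxC m (Fintype.card (𝔈.Γ × Wt (Al μ ι) ρ)) δ₀ (6 * 𝔈.c)
      (bB m (Fintype.card 𝔇.Γ * (δ + 2) ^ Fintype.card (Al μ ι)) δ₀ (6 * (𝔇.c + 1) * (δ + 2)))
      (bE (Fintype.card 𝔇.Γ * (δ + 2) ^ Fintype.card (Al μ ι))) := by
    rw [hc]
    exact DD.BoxC.mono @hbox hcard
  have hdM : ∀ i x y, (𝔈.M i x y).totalDegree ≤ δ₀ := by
    intro i x y
    change (qM (fun x : 𝔇.Γ × (Fin ρ → Al μ ι) => (x.1, cls x.2))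
      (fun s : 𝔇.Γ × Wt (Al μ ι) ρ => (s.1, rep s.2)) (tensB ρ (𝔇.M i)) x y).totalDegree ≤ δ₀
    exact totalDegree_qM _ _ _ (totalDegree_tensB ρ _ (hδM i)) x y
  have hmain := hcount (Wt (Al μ ι) ρ) _ 𝔈 (fun t s => wd ρ (w t) (P t) (rep s)) rfl
    (fun s => hzan (rep s)) (sys_q hsym hzode) δ₀ _ _
    (by change 𝔇.Θ.totalDegree ≤ δ₀; omega)
    hdM
    @hbox' X hX
  refine le_trans ?_ hmain
  have hfin : {a : DD.Px m D e J N → ℤ | (∀ p, |a p| ≤ X) ∧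
      ∃ θ : ℂ, FvM (fun j => ω j) (fun p => (a p : ℂ)) θ = 0 ∧
      denM (fun j => ω j) gd (fun p => (a p : ℂ)) θ ≠ 0 ∧
      ptM (fun j => ω j) gd (fun p => (a p : ℂ)) θ ∈ V ∧
      KBadM κ U (fun t s => wd (μ := μ) ρ (w t) (P t) (rep s))
        (ptM (fun j => ω j) gd (fun p => (a p : ℂ)) θ)}.Finite :=
    (box_card X _ fun a ha => ha.1).1
  have hsub : RelPointV ω N U V w P δ D e X ⊆ {a : DD.Px m D e J N → ℤ | (∀ p, |a p| ≤ X) ∧
      ∃ θ : ℂ, FvM (fun j => ω j) (fun p => (a p : ℂ)) θ = 0 ∧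
      denM (fun j => ω j) gd (fun p => (a p : ℂ)) θ ≠ 0 ∧
      ptM (fun j => ω j) gd (fun p => (a p : ℂ)) θ ∈ V ∧
      KBadM κ U (fun t s => wd (μ := μ) ρ (w t) (P t) (rep s))
        (ptM (fun j => ω j) gd (fun p => (a p : ℂ)) θ)} := by
    rintro a ⟨ha, θ, hθ, hq, hθV, hdet, hrel⟩
    exact ⟨ha, θ, hθ, hq, hθV, kbad_q cls_rep hsym (hVU hθV)
      (kbadM_of_rel hf (hVU hθV) hdet hrel)⟩
  exact_mod_cast Set.ncard_le_ncard hsub hfin

/-- The theorem on the points of bounded degree, uniform in the degree of the relations. -/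
theorem mainV {D : ℕ} (hD : 1 ≤ D) (e : ℕ) :
    ∃ a : ℕ, ∀ δ X : ℕ, 1 ≤ X → ((RelPointV ω N U V w P δ D e X).ncard : ℝ) ≤
      Real.exp (((δ : ℝ) + 2) ^ a) *
        (X : ℝ) ^ ((((D + 1 + m * (e + 1)) * Module.finrank ℚ κ + N.card : ℕ) : ℝ) -
          1 / ((δ : ℝ) + 2) ^ a) := by
  obtain ⟨θ₀, C, N₁, s, c₁, δ₀, hθ₀, hC, h⟩ := mainV₀ E hU hw hP hm hU' hV ω hN hD e
  have hc : Fintype.card (DD.Px m D e J N) =
      (D + 1 + m * (e + 1)) * Module.finrank ℚ κ + N.card := by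
    rw [Module.finrank_eq_card_basis ω]
    simp only [DD.Px, Fintype.card_sum, Fintype.card_prod, Fintype.card_fin, Fintype.card_coe]
    ring
  rw [← hc]
  obtain ⟨a, ha⟩ := num_final (m := m) (N₁ := N₁) (s := s) (c₁ := c₁) (δ₀ := δ₀)
    (n := (Fintype.card (DD.Px m D e J N) : ℝ)) hθ₀ hC
  exact ⟨a, fun δ X hX => (h δ X hX).trans (ha δ X hX)⟩

end

end Pool.Agent.Helper79.HG
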