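import Pool.Agent.Helper79.BB.StatM

/-!
# HG-01: the ring of analytic functions on a connected open set, its fraction field and its derivations

Proofs.
* `AnU U`: the functions on the set `U` which are restrictions of functions analytic on `U` (a subalgebra: sums,
  products and constants are analytic).
* `exists_mero`. `AnU U` is a domain: it is commutative and nontrivial (`U` is not empty); if `f g = 0` on `U` and `f t₀ ≠ 0` for
  some `t₀ ∈ U`, then `f ≠ 0` near `t₀` (continuity), so `g = 0` near `t₀` and `g = 0` on `U` by the identity theorem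
  (`AnalyticOnNhd.eqOn_zero_of_preconnected_of_eventuallyEq_zero`, used in `Pool.Agent.Helper79.HH.Cont`). The
  partial derivative `pd i` (`Helper79.BB.pd i f u = fderiv ℂ f u (Pi.single i 1)`) maps analytic functions on `U` to
  analytic functions on `U` (`AnalyticOnNhd.fderiv`, composed with the continuous linear map `evaluation at Pi.single i 1`),
  only depends on the restriction to the open set `U` (`Filter.EventuallyEq.fderiv_eq`), is additive, `ℂ`-linear and
  satisfies the Leibniz rule (`fderiv_add`, `fderiv_mul`; analytic functions are differentiable): a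
  derivation `d i` of `AnU U` (choose a representative with `Classical.choose`, all representatives give the same value).
  `𝓜 = FractionRing (AnU U)`, `φ = algebraMap` (injective as `AnU U` is a domain), `D i` the extension of `d i` to the
  fraction field: `Pool.Agent.Helper79.GA.frac_ext` (file `Pool/Agent/Helper79/GA/Frac.lean`; you may copy this lemma to
  avoid the import). The algebra structure of `FractionRing (AnU U)` over `ℂ` is the standard instance.
-/

namespace Pool.Agent.Helper79.HG

open Pool.Agent.Helper79.BB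

variable {m : ℕ}

/-- The ring of the restrictions to `U` of the functions which are analytic on `U`. -/
def AnU (U : Set (Fin m → ℂ)) : Subalgebra ℂ (U → ℂ) where
  carrier := {g | ∃ f : (Fin m → ℂ) → ℂ, AnalyticOnNhd ℂ f U ∧ ∀ t : U, g t = f t}
  mul_mem' := by
    rintro a b ⟨f, hf, ha⟩ ⟨g, hg, hb⟩
    exact ⟨f * g, hf.mul hg, fun t => by rw [Pi.mul_apply, Pi.mul_apply, ha, hb]⟩
  add_mem' := by
    rintro a b ⟨f, hf, ha⟩ ⟨g, hg, hb⟩
    exact ⟨f + g, hf.add hg, fun t => by rw [Pi.add_apply, Pi.add_apply, ha, hb]⟩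
  algebraMap_mem' := by
    intro c
    exact ⟨fun _ => c, analyticOnNhd_const, fun t => rfl⟩

/-- The restriction to `U` of a function which is analytic on `U`. -/
def AnU.mk {U : Set (Fin m → ℂ)} (f : (Fin m → ℂ) → ℂ) (hf : AnalyticOnNhd ℂ f U) : AnU U :=
  ⟨fun t => f t, f, hf, fun _ => rfl⟩

theorem AnU.mk_eq_iff {U : Set (Fin m → ℂ)} {f g : (Fin m → ℂ) → ℂ} (hf : AnalyticOnNhd ℂ f U)
    (hg : AnalyticOnNhd ℂ g U) : AnU.mk f hf = AnU.mk g hg ↔ ∀ t ∈ U, f t = g t := by
  constructor
  · intro h t ht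
    exact congrFun (congrArg Subtype.val h) ⟨t, ht⟩
  · intro h
    apply Subtype.ext
    funext t
    exact h t t.2

theorem AnU.analytic_pd {U : Set (Fin m → ℂ)} {f : (Fin m → ℂ) → ℂ} (hf : AnalyticOnNhd ℂ f U)
    (i : Fin m) : AnalyticOnNhd ℂ (pd i f) U :=
  (ContinuousLinearMap.apply ℂ ℂ (Pi.single i 1 : Fin m → ℂ)).comp_analyticOnNhd hf.fderiv

private theorem an_frac_ext {k A F : Type} [Field k] [CommRing A] [Field F] [Algebra k A]
    [Algebra k F] [Algebra A F] [IsScalarTower k A F] [IsDomain A] [IsFractionRing A F]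
    (d : Derivation k A F) : ∃ D' : Derivation k F F, ∀ a, D' (algebraMap A F a) = d a := by
  have hE : Algebra.FormallyEtale A F := .of_isLocalization (nonZeroDivisors A)
  let e := KaehlerDifferential.tensorKaehlerEquivOfFormallyEtale k A F
  let g : _ →ₗ[F] F := (LinearMap.liftBaseChange F d.liftKaehlerDifferential).comp
    e.symm.toLinearMap
  refine ⟨g.compDer (KaehlerDifferential.D k F), fun a => ?_⟩
  change LinearMap.liftBaseChange F d.liftKaehlerDifferential
      (e.symm (KaehlerDifferential.D k F _)) = _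
  rw [KaehlerDifferential.tensorKaehlerEquivOfFormallyEtale_symm_D_algebraMap]
  simp

private theorem an_exists {U : Set (Fin m → ℂ)} (a : AnU U) :
    ∃ (f : (Fin m → ℂ) → ℂ) (hf : AnalyticOnNhd ℂ f U), a = AnU.mk f hf := by
  obtain ⟨g, f, hf, h⟩ := a
  exact ⟨f, hf, Subtype.ext (funext h)⟩

private theorem an_pd_congr {U : Set (Fin m → ℂ)} (hU : IsOpen U) {f g : (Fin m → ℂ) → ℂ}
    (h : ∀ t ∈ U, f t = g t) (i : Fin m) : ∀ t ∈ U, pd i f t = pd i g t := by
  intro t ht
  have h1 : f =ᶠ[nhds t] g := Filter.mem_of_superset (hU.mem_nhds ht) h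
  unfold pd
  rw [h1.fderiv_eq]

private noncomputable def anD {U : Set (Fin m → ℂ)} (i : Fin m) (a : AnU U) : AnU U :=
  AnU.mk (pd i (Classical.choose (an_exists a)))
    (AnU.analytic_pd (Classical.choose (Classical.choose_spec (an_exists a))) i)

private theorem anD_mk {U : Set (Fin m → ℂ)} (hU : IsOpen U) (i : Fin m) {f : (Fin m → ℂ) → ℂ}
    (hf : AnalyticOnNhd ℂ f U) : anD i (AnU.mk f hf) = AnU.mk (pd i f) (AnU.analytic_pd hf i) := by
  unfold anD
  rw [AnU.mk_eq_iff]
  refine an_pd_congr hU ?_ i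
  have h := Classical.choose_spec (Classical.choose_spec (an_exists (AnU.mk f hf)))
  intro t ht
  exact (((AnU.mk_eq_iff hf _).1 h) t ht).symm

private theorem an_domain {U : Set (Fin m → ℂ)} (hU : IsOpen U) (hU' : IsPreconnected U)
    (hne : U.Nonempty) : IsDomain (AnU U) := by
  have h1 : Nontrivial (AnU U) := by
    obtain ⟨t, ht⟩ := hne
    refine ⟨0, 1, fun h => ?_⟩
    have := congrFun (congrArg Subtype.val h) ⟨t, ht⟩
    exact zero_ne_one this
  have h2 : NoZeroDivisors (AnU U) := by
    refine ⟨fun {a b} hab => ?_⟩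
    by_contra hcon
    push Not at hcon
    obtain ⟨ha, hb⟩ := hcon
    obtain ⟨f, hf, rfl⟩ := an_exists a
    obtain ⟨g, hg, rfl⟩ := an_exists b
    obtain ⟨t, ht, hft⟩ : ∃ t ∈ U, f t ≠ 0 := by
      by_contra hcon
      push Not at hcon
      exact ha (Subtype.ext (funext fun t => hcon t t.2))
    apply hb
    have h3 : ∀ᶠ x in nhds t, f x ≠ 0 := (hf t ht).continuousAt.eventually_ne hft
    have h4 : g =ᶠ[nhds t] 0 := by
      filter_upwards [h3, hU.mem_nhds ht] with x hx hxU
      have h5 : f x * g x = 0 := congrFun (congrArg Subtype.val hab) ⟨x, hxU⟩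
      exact (mul_eq_zero.1 h5).resolve_left hx
    have h6 := hg.eqOn_zero_of_preconnected_of_eventuallyEq_zero hU' ht h4
    exact Subtype.ext (funext fun x => h6 x.2)
  exact ⟨⟩

private theorem an_pd_add {U : Set (Fin m → ℂ)} {f g : (Fin m → ℂ) → ℂ}
    (hf : AnalyticOnNhd ℂ f U) (hg : AnalyticOnNhd ℂ g U) (i : Fin m) :
    ∀ t ∈ U, pd i (f + g) t = (pd i f + pd i g) t := by
  intro t ht
  unfold pd
  rw [fderiv_add (hf t ht).differentiableAt (hg t ht).differentiableAt]
  rfl

private theorem an_pd_smul {U : Set (Fin m → ℂ)} {f : (Fin m → ℂ) → ℂ}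
    (hf : AnalyticOnNhd ℂ f U) (c : ℂ) (i : Fin m) :
    ∀ t ∈ U, pd i (c • f) t = (c • pd i f) t := by
  intro t ht
  unfold pd
  rw [fderiv_const_smul (hf t ht).differentiableAt]
  rfl

private theorem an_pd_mul {U : Set (Fin m → ℂ)} {f g : (Fin m → ℂ) → ℂ}
    (hf : AnalyticOnNhd ℂ f U) (hg : AnalyticOnNhd ℂ g U) (i : Fin m) :
    ∀ t ∈ U, pd i (f * g) t = (f * pd i g + g * pd i f) t := by
  intro t ht
  unfold pd
  rw [fderiv_mul (hf t ht).differentiableAt (hg t ht).differentiableAt]
  simp

/-- The partial derivative as a derivation. -/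
private noncomputable def anDer {U : Set (Fin m → ℂ)} (hU : IsOpen U) (i : Fin m) :
    Derivation ℂ (AnU U) (AnU U) :=
  Derivation.mk'
    { toFun := anD i
      map_add' := by
        intro a b
        obtain ⟨f, hf, rfl⟩ := an_exists a
        obtain ⟨g, hg, rfl⟩ := an_exists b
        have h1 : AnU.mk f hf + AnU.mk g hg = AnU.mk (f + g) (hf.add hg) := rfl
        rw [h1, anD_mk hU, anD_mk hU, anD_mk hU]
        exact Subtype.ext (funext fun t => an_pd_add hf hg i t t.2)
      map_smul' := by
        intro c a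
        obtain ⟨f, hf, rfl⟩ := an_exists a
        have hcf : AnalyticOnNhd ℂ (c • f) U := fun t ht => (hf t ht).const_smul
        have h1 : c • AnU.mk f hf = AnU.mk (c • f) hcf := rfl
        rw [h1, anD_mk hU, anD_mk hU]
        exact Subtype.ext (funext fun t => an_pd_smul hf c i t t.2) }
    (by
      intro a b
      obtain ⟨f, hf, rfl⟩ := an_exists a
      obtain ⟨g, hg, rfl⟩ := an_exists b
      have h1 : AnU.mk f hf * AnU.mk g hg = AnU.mk (f * g) (hf.mul hg) := rfl
      change anD i (AnU.mk f hf * AnU.mk g hg) = AnU.mk f hf • anD i (AnU.mk g hg) +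
        AnU.mk g hg • anD i (AnU.mk f hf)
      rw [h1, anD_mk hU, anD_mk hU, anD_mk hU]
      exact Subtype.ext (funext fun t => an_pd_mul hf hg i t t.2))

theorem exists_mero {U : Set (Fin m → ℂ)} (hU : IsOpen U) (hU' : IsPreconnected U) (hne : U.Nonempty) :
    ∃ (𝓜 : Type) (_ : Field 𝓜) (_ : Algebra ℂ 𝓜) (φ : AnU U →ₐ[ℂ] 𝓜) (D : Fin m → Derivation ℂ 𝓜 𝓜),
      Function.Injective φ ∧ ∀ i f (hf : AnalyticOnNhd ℂ f U),
        D i (φ (AnU.mk f hf)) = φ (AnU.mk (pd i f) (AnU.analytic_pd hf i)) := by
  have := an_domain hU hU' hne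
  have hex : ∀ i : Fin m, ∃ D' : Derivation ℂ (FractionRing (AnU U)) (FractionRing (AnU U)),
      ∀ a : AnU U, D' (algebraMap (AnU U) (FractionRing (AnU U)) a) =
        algebraMap (AnU U) (FractionRing (AnU U)) (anDer hU i a) := by
    intro i
    exact an_frac_ext ((Algebra.linearMap (AnU U) (FractionRing (AnU U))).compDer (anDer hU i))
  choose D hD using hex
  refine ⟨FractionRing (AnU U), inferInstance, inferInstance,
    IsScalarTower.toAlgHom ℂ (AnU U) (FractionRing (AnU U)), D, ?_, ?_⟩
  · exact IsFractionRing.injective (AnU U) (FractionRing (AnU U))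
  · intro i f hf
    refine (hD i (AnU.mk f hf)).trans ?_
    exact congrArg (algebraMap (AnU U) (FractionRing (AnU U))) (anD_mk hU i hf)

end Pool.Agent.Helper79.HG
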