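import Pool.Agent.Helper79.HH.StatM
import Pool.Agent.Helper88.MT.Defs

/-!
# HG: Mumford-Tate groups and Galois representations in families: definitions

`S` is a variety with coordinates `t_1, …, t_m, w` over the number field `κ`; `t ↦ (t, w t)`, `t ∈ U`, is a branch of
`S`. `ℤ^r` is the lattice of (co)cycles of the fibres over `U`, `P t` the matrix of periods, with rows of level
`lev x` (see `Pool.Agent.Helper79.HH.hodgePart`).
-/

namespace Pool.Agent.Helper79.HG

open Matrix Pool.Agent.Helper79.BB Pool.Agent.Helper79.HH Pool.Agent.Helper64.Per Pool.Agent.Helper88.MT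

/-! ### Finite étale covers -/

/-- A finite étale cover of `S` defined over the field `κ`, as a closed subset of `S × A^N`: its points over `(t, w t)`
are the `y a (t) ∈ ℂ^N`, `a ∈ A` (`A` is the set of its points over the branch). They are different, and the form
`∏_a (Y - ∑_i X_i y_(a,i)(t))` is `Φ(t, w t, X, Y) / q(t, w t)` for polynomials `Φ` and `q` over `κ`. -/
structure CoverData (κ : Type) [Field κ] [Algebra κ ℂ] {m : ℕ} (A : Type) [Fintype A]
    (U : Set (Fin m → ℂ)) (w : (Fin m → ℂ) → ℂ) where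
  /-- the number of coordinates -/
  N : ℕ
  /-- the coordinates of the points -/
  y : A → Fin N → (Fin m → ℂ) → ℂ
  /-- the denominator -/
  q : MvPolynomial (Fin m ⊕ Unit) κ
  /-- the form -/
  Φ : MvPolynomial ((Fin m ⊕ Unit) ⊕ (Fin N ⊕ Unit)) κ
  analytic : ∀ a i, AnalyticOnNhd ℂ (y a i) U
  inj : ∀ t ∈ U, Function.Injective fun a i => y a i t
  q_ne : ∀ t ∈ U, MvPolynomial.aeval (Sum.elim t fun _ => w t) q ≠ 0
  eqn : ∀ t ∈ U, ∀ (X : Fin N → ℂ) (Y : ℂ),
    MvPolynomial.aeval (Sum.elim (Sum.elim t fun _ => w t) (Sum.elim X fun _ => Y)) Φ =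
      MvPolynomial.aeval (Sum.elim t fun _ => w t) q * ∏ a, (Y - ∑ i, X i * y a i t)

/-! ### Analytic continuation -/

/-- A function element: a set in `ℂ^m`, a function and a family of functions. -/
structure Elem (m : ℕ) (α : Type) where
  /-- the set -/
  U : Set (Fin m → ℂ)
  /-- the function -/
  w : (Fin m → ℂ) → ℂ
  /-- the family of functions -/
  f : α → (Fin m → ℂ) → ℂ

section

variable {m : ℕ} {α : Type}

/-- The set is open and connected, and the functions are analytic on it. -/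
def Elem.IsAnalytic (a : Elem m α) : Prop :=
  IsOpen a.U ∧ IsPreconnected a.U ∧ AnalyticOnNhd ℂ a.w a.U ∧ ∀ i, AnalyticOnNhd ℂ (a.f i) a.U

/-- The function element `b` is an immediate analytic continuation of `a`: the functions are equal on a
nonempty open set. -/
def Elem.Next (a b : Elem m α) : Prop :=
  a.IsAnalytic ∧ b.IsAnalytic ∧ ∃ O : Set (Fin m → ℂ), IsOpen O ∧ O.Nonempty ∧ O ⊆ a.U ∧ O ⊆ b.U ∧
    ∀ t ∈ O, a.w t = b.w t ∧ ∀ i, a.f i t = b.f i t

end

/-! ### The local system -/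

section

variable {κ : Type} [Field κ] [Algebra κ ℂ] {m r ℓ : ℕ} [Fact ℓ.Prime] {U : Set (Fin m → ℂ)}
  {w : (Fin m → ℂ) → ℂ}

/-- The matrix `γ` modulo `ℓ^k`, applied to the vector `v`. -/
def actZ (γ : Matrix (Fin r) (Fin r) ℤ) {k : ℕ} (v : Fin r → ZMod (ℓ ^ k)) : Fin r → ZMod (ℓ ^ k) :=
  γ.map (Int.cast : ℤ → ZMod (ℓ ^ k)) *ᵥ v

/-- The `ℓ`-adic matrix `g` modulo `ℓ^k`, applied to the vector `v`. -/
noncomputable def actP (g : GL (Fin r) ℤ_[ℓ]) {k : ℕ} (v : Fin r → ZMod (ℓ ^ k)) :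
    Fin r → ZMod (ℓ ^ k) :=
  (g : Matrix (Fin r) (Fin r) ℤ_[ℓ]).map (PadicInt.toZModPow k) *ᵥ v

/-- The functions which are continued: the entries of the period matrix `P` and the coordinates of the points of
the covers `Y k`, whose points over `U` are the elements of `(ℤ / ℓ^k)^r`, after a change of the basis of
`ℤ^r` with the matrix `γ`. -/
noncomputable def fns (P : (Fin m → ℂ) → Matrix (Fin r) (Fin r) ℂ)
    (Y : ∀ k : ℕ, CoverData κ (Fin r → ZMod (ℓ ^ k)) U w) (γ : Matrix (Fin r) (Fin r) ℤ) :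
    (Fin r × Fin r) ⊕ (Σ k : ℕ, (Fin r → ZMod (ℓ ^ k)) × Fin (Y k).N) → (Fin m → ℂ) → ℂ :=
  Sum.elim (fun e t => (P t * γ.map (Int.cast : ℤ → ℂ)) e.1 e.2)
    fun e => (Y e.1).y (actZ γ e.2.1) e.2.2

/-- The monodromy group of the local system `ℤ^r`: the isometries `γ` of the form `ψ` such that a chain of
immediate analytic continuations leads back from `U` to `U`, the branch to the same branch, the period
matrix `P` to `P γ` and the points `y_v` of the covers to `y_(γ v)`. -/
def MonoL (ψ : Matrix (Fin r) (Fin r) ℤ) (P : (Fin m → ℂ) → Matrix (Fin r) (Fin r) ℂ)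
    (Y : ∀ k : ℕ, CoverData κ (Fin r → ZMod (ℓ ^ k)) U w) : Set (Matrix (Fin r) (Fin r) ℤ) :=
  {γ | γᵀ * ψ * γ = ψ ∧ Relation.ReflTransGen Elem.Next ⟨U, w, fns P Y 1⟩ ⟨U, w, fns P Y γ⟩}

/-- The rational vectors fixed by a set of matrices. -/
def fixedPart (Γ : Set (Matrix (Fin r) (Fin r) ℤ)) : Submodule ℚ (Fin r → ℚ) where
  carrier := {v | ∀ γ ∈ Γ, γ.map (Int.cast : ℤ → ℚ) *ᵥ v = v}
  add_mem' := by
    intro u v hu hv γ hγ
    rw [Matrix.mulVec_add, hu γ hγ, hv γ hγ]
  zero_mem' := by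
    intro γ _
    rw [Matrix.mulVec_zero]
  smul_mem' := by
    intro c v hv γ hγ
    rw [Matrix.mulVec_smul, hv γ hγ]

/-- The representation `ρ` of the group `G`, which acts on `Qbar` by `act`, is the action on the points `y k v`,
`v ∈ (ℤ / ℓ^k)^r`, with algebraic coordinates: `σ (y_v) = y_(ρ(σ) v)`. -/
def IsGalRep {G : Type} [Group G] (act : G → Qbar → Qbar) {n : ℕ → ℕ}
    (y : ∀ k, (Fin r → ZMod (ℓ ^ k)) → Fin (n k) → ℂ) (ρ : G →* GL (Fin r) ℤ_[ℓ]) : Prop :=
  ∀ σ k v i (z : Qbar), (z : ℂ) = y k v i → ((act σ z : Qbar) : ℂ) = y k (actP (ρ σ) v) i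

end

/-! ### The Mumford-Tate group -/

section

variable {r : ℕ}

/-- The element of `GL r` over `ℂ` by which the complex number `u` of absolute value one acts on the Hodge
structure of weight zero, that is the Hodge structure given by the period matrix `P`, of weight two up to sign,
twisted by one: it acts on `hodgePart lev 2 P p` as `u ^ (p - 1)`. -/
def IsHodgeElt (lev : Fin r → ℤ) (P : Matrix (Fin r) (Fin r) ℂ) (u : ℂ) (a : GL (Fin r) ℂ) : Prop :=
  ‖u‖ = 1 ∧ ∀ p, ∀ v ∈ hodgePart lev 2 P p, (a : Matrix (Fin r) (Fin r) ℂ) *ᵥ v = u ^ (p - 1) • v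

/-- The group of complex points of the Mumford-Tate group: the smallest subgroup of `GL r` over
`ℂ` which is the set of common zeros of polynomials with rational coefficients and contains the elements by
which the complex numbers of absolute value one act. -/
noncomputable def MTat (lev : Fin r → ℤ) (P : Matrix (Fin r) (Fin r) ℂ) : Subgroup (GL (Fin r) ℂ) :=
  sInf {S : Subgroup (GL (Fin r) ℂ) |
    (∃ Q : Set (GLPoly r ℚ), ∀ a : GL (Fin r) ℂ, a ∈ S ↔ ∀ f ∈ Q, evGL a f = 0) ∧
      ∀ u a, IsHodgeElt lev P u a → a ∈ S}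

end

end Pool.Agent.Helper79.HG
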