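import Pool.Agent.Helper46.GG.SoSimple

/-!
# HG-22: the orthogonal Lie algebra is perfect in dimension different from two
-/

set_option linter.unusedSectionVars false

namespace Pool.Agent.Helper79.HG

open Matrix Module Pool.Agent.Helper88.MT Pool.Agent.Helper46.GG

variable {ι : Type*} [Fintype ι] [DecidableEq ι] {F : Type*} [Field F] [CharZero F]

theorem skewM_sum_left {κ : Type*} (ψ : Matrix ι ι F) (s : Finset κ) (f : κ → ι → F) (a : ι → F) :
    skewM ψ (∑ i ∈ s, f i) a = ∑ i ∈ s, skewM ψ (f i) a := by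
  classical
  induction s using Finset.induction_on with
  | empty =>
    rw [Finset.sum_empty, Finset.sum_empty]
    unfold skewM
    simp
  | insert i s hi ih =>
    rw [Finset.sum_insert hi, Finset.sum_insert hi, ← ih]
    unfold skewM
    rw [mulVec_add, vecMulVec_add, add_vecMulVec]
    abel

/-- The commutators span the orthogonal Lie algebra if the dimension is not two. -/
theorem soT_perfect {ψ : Matrix ι ι F} (hψ : ψᵀ = ψ) (hdet : ψ.det ≠ 0)
    {N : Submodule F (ι → F)} (hN : ∀ v ∈ N, (∀ w ∈ N, bil ψ v w = 0) → v = 0)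
    (hdim : finrank F (orthS ψ N) ≠ 2) {W : Submodule F (Matrix ι ι F)}
    (hW : ∀ x ∈ soT ψ (N : Set (ι → F)), ∀ y ∈ soT ψ (N : Set (ι → F)), x * y - y * x ∈ W) :
    ∀ x ∈ soT ψ (N : Set (ι → F)), x ∈ W := by
  obtain ⟨b, b', hb, hb', h1, h2, h3⟩ := exists_frame hψ hdet hN
  have hmem : ∀ a ∈ orthS ψ N, ∀ c ∈ orthS ψ N, skewM ψ a c ∈ soT ψ (N : Set (ι → F)) :=
    fun a ha c hc => skewM_mem hψ ha hc
  have hself : ∑ i, skewM ψ (b' i) (b i) = 0 := by
    apply eq_of_forall_mulVec
    intro v
    obtain ⟨u, hu, z, hz, rfl⟩ := exists_orth_decomp hψ hN v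
    rw [Matrix.sum_mulVec, zero_mulVec]
    have h4 : ∀ i, skewM ψ (b' i) (b i) *ᵥ (u + z) = bil ψ (b' i) z • b i - bil ψ (b i) z • b' i := by
      intro i
      rw [skewM_mulVec hψ, bil_add_right, bil_add_right, hb' i u hu, hb i u hu, zero_add, zero_add]
    rw [Finset.sum_congr rfl fun i _ => h4 i, Finset.sum_sub_distrib, h1 z hz, h2 z hz, sub_self]
  have hskew : ∀ a ∈ orthS ψ N, ∀ c ∈ orthS ψ N, skewM ψ a c ∈ W := by
    intro a ha c hc
    have h5 : ∀ i, skewM ψ a (b i) * skewM ψ (b' i) c - skewM ψ (b' i) c * skewM ψ a (b i) =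
        bil ψ a (b' i) • skewM ψ (b i) c - bil ψ (b i) (b' i) • skewM ψ a c +
        (bil ψ a c • skewM ψ (b' i) (b i) - bil ψ (b i) c • skewM ψ (b' i) a) := by
      intro i
      rw [bracket_skewM hψ (skewM_skew hψ a (b i)), skewM_mulVec hψ, skewM_mulVec hψ,
        skewM_sub_left, skewM_smul_left, skewM_smul_left, skewM_sub_right, skewM_smul_right,
        skewM_smul_right]
    have h6 : ∑ i, (skewM ψ a (b i) * skewM ψ (b' i) c - skewM ψ (b' i) c * skewM ψ a (b i)) =
        (2 - (finrank F (orthS ψ N) : F)) • skewM ψ a c := by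
      rw [Finset.sum_congr rfl fun i _ => h5 i, Finset.sum_add_distrib, Finset.sum_sub_distrib,
        Finset.sum_sub_distrib, ← Finset.smul_sum, hself, smul_zero, zero_sub]
      have h7 : ∑ i, bil ψ a (b' i) • skewM ψ (b i) c = skewM ψ a c := by
        conv_rhs => rw [← h1 a ha]
        rw [skewM_sum_left]
        refine Finset.sum_congr rfl fun i _ => ?_
        rw [skewM_smul_left, bil_symm hψ a]
      have h8 : ∑ i, bil ψ (b i) c • skewM ψ (b' i) a = skewM ψ c a := by
        conv_rhs => rw [← h2 c hc]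
        rw [skewM_sum_left]
        refine Finset.sum_congr rfl fun i _ => ?_
        rw [skewM_smul_left]
      have h9 : ∑ i, bil ψ (b i) (b' i) • skewM ψ a c = (finrank F (orthS ψ N) : F) • skewM ψ a c := by
        rw [← Finset.sum_smul, ← h3]
        congr 1
        exact Finset.sum_congr rfl fun i _ => bil_symm hψ _ _
      rw [h7, h8, h9, skewM_swap hψ c a]
      module
    have h10 : (2 - (finrank F (orthS ψ N) : F)) • skewM ψ a c ∈ W := by
      rw [← h6]
      exact Submodule.sum_mem _ fun i _ => hW _ (hmem _ ha _ (hb i)) _ (hmem _ (hb' i) _ hc)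
    have h11 : (2 - (finrank F (orthS ψ N) : F)) ≠ 0 := by
      intro h
      apply hdim
      have : ((finrank F (orthS ψ N) : ℕ) : F) = ((2 : ℕ) : F) := by
        push_cast
        linear_combination -h
      exact_mod_cast this
    exact (Submodule.smul_mem_iff _ h11).1 h10
  intro x hx
  have h12 := sum_skewM hψ hN hb hb' h1 h2 hx
  have h13 : (2 : F) • x ∈ W := by
    rw [← h12]
    exact Submodule.sum_mem _ fun i _ => hskew _ (hb' i) _ (soT_mulVec_mem hx (b i))
  exact (Submodule.smul_mem_iff _ two_ne_zero).1 h13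

end Pool.Agent.Helper79.HG
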