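import Mathlib

/-!
# HG-02: the conjugates of a combination of the roots of a polynomial

`z π = ∑ c_a y_(π a)`.

Proof of `roots_perm`. Let `L = IntermediateField.adjoin K (Set.range y)`. It is a splitting field of `Ψ` over `K` (`Ψ` is monic and
its roots in `𝓜` are the `y a`), so it is finite and normal over `K` (`Normal.of_isSplittingField`), and separable (characteristic zero).
`z 1 ∈ L`, and its minimal polynomial `p` over `K` splits in `L` and is separable, so it has `p.natDegree` different roots in `L`
(`Polynomial.card_rootSet_eq_natDegree`), and all its roots in `𝓜` are in `L` (the product of the `X - x`, `x` its roots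
in `L`, is `p`). If `x` is one of them there is an automorphism `τ` of `L` over `K` with `τ (z 1) = x` (`L` is normal: for example
`minpoly.exists_algEquiv_of_root`, or `exists_algHom_of_splits` and `Normal`; look for `IsConjRoot`). `τ (y a)` is a root of `Ψ`, so it is
`y (π a)` for a unique `π a`; `π` is injective as `τ` and `y` are, so it is a permutation (`Equiv.ofBijective`, `Finite.injective_iff_bijective`), and
`x = τ (z 1) = z π`. Number the roots with `Fin p.natDegree` (`Fintype.equivFinOfCardEq`), choose such a `π` for each root, the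
permutation `1` for the root `z 1` (`Function.update` or a case distinction).
-/

open Polynomial

namespace Pool.Agent.Helper79.HG

theorem roots_perm {K 𝓜 : Type} [Field K] [CharZero K] [Field 𝓜] [Algebra K 𝓜] {A : Type} [Fintype A]
    [DecidableEq A] (y : A → 𝓜) (hy : Function.Injective y) (Ψ : K[X])
    (hΨ : Ψ.map (algebraMap K 𝓜) = ∏ a, (X - C (y a))) (c : A → ℤ) (z : Equiv.Perm A → 𝓜)
    (hz : ∀ π, z π = ∑ a, (c a : 𝓜) * y (π a)) :
    IsIntegral K (z 1) ∧ ∃ π : Fin (minpoly K (z 1)).natDegree → Equiv.Perm A, (∃ b₀, π b₀ = 1) ∧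
      (Function.Injective fun b => z (π b)) ∧ (∀ b, aeval (z (π b)) (minpoly K (z 1)) = 0) ∧
      ∀ x : 𝓜, aeval x (minpoly K (z 1)) = 0 → ∃ b, x = z (π b) := by
  classical
  have hspl : (Ψ.map (algebraMap K 𝓜)).Splits := by
    rw [hΨ]
    exact Splits.prod fun a _ => Splits.X_sub_C _
  have hΨ0 : Ψ ≠ 0 := by
    rintro rfl
    rw [Polynomial.map_zero] at hΨ
    exact (Finset.prod_ne_zero_iff.2 fun a _ => X_sub_C_ne_zero (y a)) hΨ.symm
  have hroot : ∀ x : 𝓜, aeval x Ψ = 0 ↔ ∃ a, x = y a := by
    intro x
    have : aeval x Ψ = ∏ a, (x - y a) := by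
      rw [aeval_def, ← eval_map, hΨ, eval_prod]
      simp
    rw [this, Finset.prod_eq_zero_iff]
    simp [sub_eq_zero]
  let L := IntermediateField.adjoin K (Ψ.rootSet 𝓜)
  have : IsSplittingField K L Ψ := IntermediateField.adjoin_rootSet_isSplittingField hspl
  have : Normal K L := Normal.of_isSplittingField Ψ
  have hyL : ∀ a, y a ∈ L := fun a =>
    IntermediateField.subset_adjoin _ _ (mem_rootSet.2 ⟨hΨ0, (hroot _).2 ⟨a, rfl⟩⟩)
  let ya : A → L := fun a => ⟨y a, hyL a⟩
  let w : L := ∑ a, (c a : L) * ya a
  have hw : algebraMap L 𝓜 w = z 1 := by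
    rw [hz]
    simp only [w, map_sum, map_mul, map_intCast]
    rfl
  have hint : IsIntegral K w := Normal.isIntegral inferInstance w
  have hmin : minpoly K (z 1) = minpoly K w := by
    rw [← hw]
    exact minpoly.algebraMap_eq (algebraMap L 𝓜).injective w
  have hp : ((minpoly K w).map (algebraMap K L)).Splits := Normal.splits inferInstance w
  have hsep : (minpoly K w).Separable := (minpoly.irreducible hint).separable
  have hcard := card_rootSet_eq_natDegree hsep hp
  have hex : ∀ x : (minpoly K w).rootSet L, ∃ π : Equiv.Perm A, z π = algebraMap L 𝓜 (x : L) := by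
    intro x
    obtain ⟨σ, hσ⟩ := minpoly.exists_algEquiv_of_root' hint.isAlgebraic (mem_rootSet.1 x.2).2
    have h1 : ∀ a, ∃ b, algebraMap L 𝓜 (σ (ya a)) = y b := by
      intro a
      rw [← hroot]
      have h2 : aeval (ya a) Ψ = 0 := by
        have h3 : algebraMap L 𝓜 (aeval (ya a) Ψ) = 0 := by
          rw [← aeval_algebraMap_apply]
          exact (hroot _).2 ⟨a, rfl⟩
        exact (algebraMap L 𝓜).injective (by rw [h3, map_zero])
      rw [aeval_algebraMap_apply, aeval_algHom_apply, h2, map_zero, map_zero]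
    choose f hf using h1
    have hfi : Function.Injective f := by
      intro a b hab
      have h4 : algebraMap L 𝓜 (σ (ya a)) = algebraMap L 𝓜 (σ (ya b)) := by
        rw [hf a, hf b, hab]
      have h5 : ya a = ya b := σ.injective ((algebraMap L 𝓜).injective h4)
      exact hy (congrArg Subtype.val h5)
    refine ⟨Equiv.ofBijective f (Finite.injective_iff_bijective.1 hfi), ?_⟩
    rw [hz, ← hσ]
    simp only [w, map_sum, map_mul, map_intCast, Equiv.ofBijective_apply, hf]
  choose g hg using hex
  have e : Fin (minpoly K (z 1)).natDegree ≃ (minpoly K w).rootSet L :=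
    (Fintype.equivFinOfCardEq (by rw [hcard, hmin])).symm
  have key : ∀ b, z (if algebraMap L 𝓜 (e b : L) = z 1 then 1 else g (e b)) =
      algebraMap L 𝓜 (e b : L) := by
    intro b
    split_ifs with h
    · exact h.symm
    · exact hg _
  have hwr : w ∈ (minpoly K w).rootSet L :=
    mem_rootSet.2 ⟨minpoly.ne_zero hint, minpoly.aeval K w⟩
  refine ⟨by rw [← hw]; exact hint.algebraMap, fun b => if algebraMap L 𝓜 (e b : L) = z 1 then 1 else g (e b),
    ⟨e.symm ⟨w, hwr⟩, ?_⟩, ?_, ?_, ?_⟩
  · simp [hw]
  · intro b b' hbb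
    simp only [key] at hbb
    exact e.injective (Subtype.ext ((algebraMap L 𝓜).injective hbb))
  · intro b
    rw [key, aeval_algebraMap_apply]
    have h6 : aeval (e b : L) (minpoly K (z 1)) = 0 := by
      have h7 := (mem_rootSet.1 (e b).2).2
      generalize (e b : L) = v at h7 ⊢
      rwa [← hmin] at h7
    rw [h6, map_zero]
  · intro x hx
    have hx2 : x ∈ (minpoly K w).rootSet 𝓜 :=
      mem_rootSet.2 ⟨minpoly.ne_zero hint, by rw [← hmin]; exact hx⟩
    rw [← Splits.image_rootSet_algebraMap (A := L) hp] at hx2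
    obtain ⟨v, hv, rfl⟩ := hx2
    exact ⟨e.symm ⟨v, hv⟩, by rw [key]; simp⟩

end Pool.Agent.Helper79.HG
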