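import Pool.Agent.Helper46.GG.GroupMain

/-!
# HG-15: `ℓ`-adic groups near an integral group with big tangent space

The proof is in `Pool/Agent/Helper46/GG` (the simplicity of the orthogonal Lie algebra in dimension not four, the theorem of Minkowski, the level, and the density).
-/

namespace Pool.Agent.Helper79.HG

open Matrix Module Pool.Agent.Helper88.MT

variable {r : ℕ} {ψ : Matrix (Fin r) (Fin r) ℤ} {N : Submodule ℚ (Fin r → ℚ)}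

theorem group_main (hψ : ψᵀ = ψ) (hdet : ψ.det ≠ 0)
    (hN : ∀ v ∈ N, (∀ w ∈ N, bil (ψ.map (Int.cast : ℤ → ℚ)) v w = 0) → v = 0)
    (h4 : finrank ℚ (orthS (ψ.map (Int.cast : ℤ → ℚ)) N) ≠ 4)
    {Γ : Set (Matrix (Fin r) (Fin r) ℤ)} (h1 : 1 ∈ Γ) (hmul : ∀ γ ∈ Γ, ∀ γ' ∈ Γ, γ * γ' ∈ Γ)
    (hisom : ∀ γ ∈ Γ, γᵀ * ψ * γ = ψ) (hfix : ∀ γ ∈ Γ, ∀ v ∈ N, γ.map (Int.cast : ℤ → ℚ) *ᵥ v = v)
    (hbig : ∀ x ∈ soT (ψ.map (Int.cast : ℤ → ℂ)) (smap ℂ N : Set (Fin r → ℂ)),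
      x ∈ HH.tangent ((fun γ : Matrix (Fin r) (Fin r) ℤ => γ.map (Int.cast : ℤ → ℂ)) '' Γ))
    (ℓ : ℕ) [Fact ℓ.Prime] :
    ∃ k : ℕ, ∀ G : Subgroup (GL (Fin r) ℤ_[ℓ]),
      (∀ g ∈ G, (g : Matrix (Fin r) (Fin r) ℤ_[ℓ])ᵀ * ψ.map (Int.cast : ℤ → ℤ_[ℓ]) * g =
        ψ.map (Int.cast : ℤ → ℤ_[ℓ])) →
      (∀ g ∈ G.map (Matrix.GeneralLinearGroup.map (algebraMap ℤ_[ℓ] ℚ_[ℓ])), ∀ v ∈ smap ℚ_[ℓ] N,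
        (g : Matrix (Fin r) (Fin r) ℚ_[ℓ]) *ᵥ v = v) →
      (∀ γ ∈ Γ, ∃ g ∈ G, ∀ i j, PadicInt.toZModPow k ((g : Matrix (Fin r) (Fin r) ℤ_[ℓ]) i j) =
        ((γ i j : ℤ) : ZMod (ℓ ^ k))) →
      ∀ G' : Subgroup (GL (Fin r) ℤ_[ℓ]), G' ≤ G → (G'.subgroupOf G).FiniteIndex →
        (∀ g ∈ G', (g : Matrix (Fin r) (Fin r) ℤ_[ℓ]).det = 1) →
        ∀ f ∈ van ℚ_[ℓ] (mats (G'.map (Matrix.GeneralLinearGroup.map (algebraMap ℤ_[ℓ] ℚ_[ℓ])))),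
          ∀ M ∈ SOT (ψ.map (Int.cast : ℤ → ℚ_[ℓ])) (smap ℚ_[ℓ] N : Set (Fin r → ℚ_[ℓ])),
            evM M f = 0 :=
  Helper46.GG.group_main hψ hdet hN h4 h1 hmul hisom hfix hbig ℓ

end Pool.Agent.Helper79.HG
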