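import Pool.Agent.Helper79.HG.Lattice

/-!
# HG-18: the equality of the group schemes from the Hodge side and the Galois side

Notation: `H^p = hodgePart lev 2 P p`.

Proofs.
* `lattice_N`: let `v` be a rational vector with `D v = 0`. `𝔤 = {x : x v = 0}` (rational matrices) is a Lie algebra, and its complexification contains every
  complex matrix which kills `v` (the equations `x v = 0` are rational; in particular `2 D`), so by `hMT` all `x ∈ soT ψ N` kill `v`. Write `v = a + b` with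
  `a ∈ N`, `b ∈ T = orthS ψ N` (`exists_orth_decomp`; `ψ` is definite on `N`, as `N ⊆ H^1`). Then `skewM ψ p q` kills `b` for all `p, q ∈ T`: `ψ(p,b) q = ψ(q,b) p`; as `dim T ≥ 2`, for every `p ∈ T` there is
  `q ∈ T` independent of `p`, so `ψ(p,b) = 0` for all `p ∈ T` and `b = 0` (`nondeg_orthS`). So `v ∈ N`. The other inclusion: `hNH`.
* `equality_of_lie`: `exists_lattice` gives `H` with `H.ψ = ψ`, `2 D` the Hodge operator (every `D'` with `IsHodgeOp lev 2 P D'` is `2 D`). `lattice_N`: `H.N = N`.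
  `mem_MTGroup_of_lie` (its hypothesis: `hMT`; `mspan ℂ 𝔤 = cx 𝔤` by definition up to `algebraMap ℚ ℂ = Rat.cast`; `2 D ∈ cx 𝔤` iff `D ∈ cx 𝔤`), then
  `Pool.Agent.Helper88.MT.ideal_eq_iff` with `R = ℤ_ℓ`, `F = ℚ_ℓ` and `MTat_eq`.
-/

namespace Pool.Agent.Helper79.HG

open Matrix Module Pool.Agent.Helper79.HH Pool.Agent.Helper88.MT

variable {r : ℕ} {lev : Fin r → ℤ} {ψ : Matrix (Fin r) (Fin r) ℤ} {P : Matrix (Fin r) (Fin r) ℂ}

/-- The matrices which kill a vector. -/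
private def killS (v : Fin r → ℚ) : Submodule ℚ (Matrix (Fin r) (Fin r) ℚ) where
  carrier := {x | x *ᵥ v = 0}
  add_mem' := by
    intro x y hx hy
    change (x + y) *ᵥ v = 0
    rw [add_mulVec, show x *ᵥ v = 0 from hx, show y *ᵥ v = 0 from hy, add_zero]
  zero_mem' := zero_mulVec v
  smul_mem' := by
    intro c x hx
    change (c • x) *ᵥ v = 0
    rw [smul_mulVec, show x *ᵥ v = 0 from hx, smul_zero]

private theorem mem_killS {v : Fin r → ℚ} {x : Matrix (Fin r) (Fin r) ℚ} :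
    x ∈ killS v ↔ x *ᵥ v = 0 := Iff.rfl

private theorem killS_lie (v : Fin r → ℚ) {x y : Matrix (Fin r) (Fin r) ℚ} (hx : x ∈ killS v)
    (hy : y ∈ killS v) : x * y - y * x ∈ killS v := by
  rw [mem_killS] at hx hy ⊢
  rw [sub_mulVec, ← mulVec_mulVec, ← mulVec_mulVec, hx, hy, mulVec_zero, mulVec_zero, sub_zero]

private theorem cx_eq (𝔤 : Submodule ℚ (Matrix (Fin r) (Fin r) ℚ)) : cx 𝔤 = mspan ℂ 𝔤 := rfl

private theorem mem_cx_killS {v : Fin r → ℚ} {M : Matrix (Fin r) (Fin r) ℂ}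
    (h : M *ᵥ (fun i => ((v i : ℚ) : ℂ)) = 0) : M ∈ cx (killS v) := by
  rw [cx_eq, mspan_map]
  let b := Basis.ofVectorSpace ℚ ℂ
  rw [mem_smap_iff b]
  intro j
  refine ⟨Matrix.of fun a c => b.repr (M a c) j, ?_, ?_⟩
  · change (Matrix.of fun a c => b.repr (M a c) j) *ᵥ v = 0
    funext a
    have h1 := congrFun h a
    rw [mulVec, dotProduct] at h1
    have h2 : (b.repr (∑ c, M a c * ((v c : ℚ) : ℂ))) j = 0 := by
      rw [h1]
      simp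
    rw [map_sum, Finsupp.finsetSum_apply] at h2
    rw [mulVec, dotProduct, Pi.zero_apply, ← h2]
    refine Finset.sum_congr rfl fun c _ => ?_
    have h3 : M a c * ((v c : ℚ) : ℂ) = (v c) • M a c := by
      rw [Rat.smul_def, mul_comm]
    rw [h3, map_smul, Finsupp.smul_apply, smul_eq_mul, mul_comm]
    rfl
  · rfl

/-- A linear map is determined on the Hodge parts. -/
private theorem mulVec_ext_of_hodge {ψ : Matrix (Fin r) (Fin r) ℚ} (hpol : IsPolarized lev 2 ψ P)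
    {A B : Matrix (Fin r) (Fin r) ℂ} (h : ∀ p, ∀ v ∈ hodgePart lev 2 P p, A *ᵥ v = B *ᵥ v) :
    A = B := by
  have h1 : ∀ v : Fin r → ℂ, A *ᵥ v = B *ᵥ v := by
    intro v
    have hv : v ∈ ⨆ p, hodgePart lev 2 P p := by
      rw [hpol.span]
      exact Submodule.mem_top
    refine Submodule.iSup_induction _ (motive := fun v => A *ᵥ v = B *ᵥ v) hv ?_ ?_ ?_
    · intro p x hx
      exact h p x hx
    · rw [mulVec_zero, mulVec_zero]
    · intro x y hx hy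
      rw [mulVec_add, mulVec_add, hx, hy]
  apply Matrix.toLin'.injective
  apply LinearMap.ext
  intro v
  rw [Matrix.toLin'_apply, Matrix.toLin'_apply]
  exact h1 v

private theorem hodgeOp_eq {ψ : Matrix (Fin r) (Fin r) ℚ} (hpol : IsPolarized lev 2 ψ P)
    {D D' : Matrix (Fin r) (Fin r) ℂ}
    (hD : ∀ p, ∀ v ∈ hodgePart lev 2 P p, D *ᵥ v = ((p - 1 : ℤ) : ℂ) • v)
    (hD' : IsHodgeOp lev 2 P D') : D' = (2 : ℂ) • D := by
  apply mulVec_ext_of_hodge hpol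
  intro p v hv
  rw [hD' p v hv, smul_mulVec, hD p v hv, smul_smul]
  congr 1
  push_cast
  ring

private theorem nondeg_of_hodge (hpol : IsPolarized lev 2 (ψ.map (Int.cast : ℤ → ℚ)) P)
    {N : Submodule ℚ (Fin r → ℚ)}
    (hNH : ∀ v ∈ N, (fun i => ((v i : ℚ) : ℂ)) ∈ hodgePart lev 2 P 1) :
    ∀ v ∈ N, (∀ w ∈ N, bil (ψ.map (Int.cast : ℤ → ℚ)) v w = 0) → v = 0 := by
  intro v hv h
  by_contra hne
  have hne' : (fun i => ((v i : ℚ) : ℂ)) ≠ 0 := by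
    intro h0
    apply hne
    funext i
    have h1 := congrFun h0 i
    simp only [Pi.zero_apply] at h1 ⊢
    exact_mod_cast h1
  obtain ⟨c, hc, h1⟩ := hpol.pos 1 _ (hNH v hv) hne'
  have h2 : form (ψ.map (Int.cast : ℤ → ℚ)) (fun i => ((v i : ℚ) : ℂ))
      (star fun i => ((v i : ℚ) : ℂ)) = ((bil (ψ.map (Int.cast : ℤ → ℚ)) v v : ℚ) : ℂ) := by
    have h3 : (star fun i => ((v i : ℚ) : ℂ)) = fun i => ((v i : ℚ) : ℂ) := by
      funext i
      simp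
    rw [h3, form, bil]
    simp [mulVec, dotProduct]
  rw [h2, h v hv, Rat.cast_zero, mul_zero] at h1
  exact hc.ne (by exact_mod_cast h1)

private theorem exists_indep {T : Submodule ℚ (Fin r → ℚ)} (hdim : 2 ≤ finrank ℚ T)
    {p : Fin r → ℚ} (hp : p ∈ T) (hp0 : p ≠ 0) : ∃ q ∈ T, ∀ c : ℚ, c • p ≠ q := by
  by_contra hcon
  push_neg at hcon
  have h1 : T ≤ Submodule.span ℚ {p} := by
    intro q hq
    obtain ⟨c, hc⟩ := hcon q hq
    exact Submodule.mem_span_singleton.2 ⟨c, hc⟩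
  have h2 := Submodule.finrank_mono h1
  rw [finrank_span_singleton hp0] at h2
  omega

theorem lattice_N (hpol : IsPolarized lev 2 (ψ.map (Int.cast : ℤ → ℚ)) P) {H : HodgeLattice r}
    (hψ : H.ψ = ψ) (hD : ∀ p, ∀ v ∈ hodgePart lev 2 P p, H.D *ᵥ v = ((p - 1 : ℤ) : ℂ) • v)
    {N : Submodule ℚ (Fin r → ℚ)} (hNH : ∀ v ∈ N, (fun i => ((v i : ℚ) : ℂ)) ∈ hodgePart lev 2 P 1)
    (hdim : 2 ≤ finrank ℚ (orthS (ψ.map (Int.cast : ℤ → ℚ)) N))
    (hMT : ∀ 𝔤 : Submodule ℚ (Matrix (Fin r) (Fin r) ℚ), (∀ x ∈ 𝔤, ∀ y ∈ 𝔤, x * y - y * x ∈ 𝔤) →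
      (∀ D, IsHodgeOp lev 2 P D → D ∈ cx 𝔤) →
      ∀ x ∈ soT (ψ.map (Int.cast : ℤ → ℚ)) (N : Set (Fin r → ℚ)), x ∈ 𝔤) : H.N = N := by
  have hform : ψ.map (Int.cast : ℤ → ℚ) = H.form ℚ := by
    rw [← hψ]
    rfl
  have hsymm : (ψ.map (Int.cast : ℤ → ℚ))ᵀ = ψ.map (Int.cast : ℤ → ℚ) := by
    rw [hform]
    exact form_symm H ℚ
  have hdet : (ψ.map (Int.cast : ℤ → ℚ)).det ≠ 0 := by
    rw [hform]
    exact form_det H ℚ
  have hN : ∀ v ∈ N, (∀ w ∈ N, bil (ψ.map (Int.cast : ℤ → ℚ)) v w = 0) → v = 0 :=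
    nondeg_of_hodge hpol hNH
  apply le_antisymm
  · intro v hv
    have hDv : H.D *ᵥ (fun i => ((v i : ℚ) : ℂ)) = 0 := hv
    have hkill : ∀ x ∈ soT (ψ.map (Int.cast : ℤ → ℚ)) (N : Set (Fin r → ℚ)), x *ᵥ v = 0 := by
      refine hMT (killS v) (fun x hx y hy => killS_lie v hx hy) ?_
      intro D' hD'
      apply mem_cx_killS
      rw [hodgeOp_eq hpol hD hD', smul_mulVec, hDv, smul_zero]
    obtain ⟨a, ha, b, hb, rfl⟩ := exists_orth_decomp hsymm hN v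
    have hb0 : b = 0 := by
      apply nondeg_orthS hsymm hdet hN b hb
      intro p hp
      by_cases hp0 : p = 0
      · rw [hp0, bil, mulVec_zero, dotProduct_zero]
      obtain ⟨q, hq, hpq⟩ := exists_indep hdim hp hp0
      have h1 := hkill _ (skewM_mem hsymm hp hq)
      rw [skewM_mulVec hsymm, bil_add_right, bil_add_right, hp a ha, hq a ha, zero_add,
        zero_add, sub_eq_zero] at h1
      by_contra hne
      apply hpq (bil (ψ.map (Int.cast : ℤ → ℚ)) q b / bil (ψ.map (Int.cast : ℤ → ℚ)) p b)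
      rw [bil_symm hsymm] at hne
      rw [div_eq_inv_mul, mul_smul, ← h1, smul_smul, inv_mul_cancel₀ hne, one_smul]
    rw [hb0, add_zero]
    exact ha
  · intro v hv
    change H.D *ᵥ (fun i => ((v i : ℚ) : ℂ)) = 0
    rw [hD 1 _ (hNH v hv), sub_self, Int.cast_zero, zero_smul]

/-- The hypotheses on the Hodge side and on the Galois side give the equality of the group schemes. -/
theorem equality_of_lie (hlev : ∀ x, 0 ≤ lev x ∧ lev x ≤ 2) (hP : IsUnit P.det)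
    (hpol : IsPolarized lev 2 (ψ.map (Int.cast : ℤ → ℚ)) P)
    {N : Submodule ℚ (Fin r → ℚ)} (hNH : ∀ v ∈ N, (fun i => ((v i : ℚ) : ℂ)) ∈ hodgePart lev 2 P 1)
    (hdim : 2 ≤ finrank ℚ (orthS (ψ.map (Int.cast : ℤ → ℚ)) N))
    (hMT : ∀ 𝔤 : Submodule ℚ (Matrix (Fin r) (Fin r) ℚ), (∀ x ∈ 𝔤, ∀ y ∈ 𝔤, x * y - y * x ∈ 𝔤) →
      (∀ D, IsHodgeOp lev 2 P D → D ∈ cx 𝔤) →
      ∀ x ∈ soT (ψ.map (Int.cast : ℤ → ℚ)) (N : Set (Fin r → ℚ)), x ∈ 𝔤)
    {ℓ : ℕ} [Fact ℓ.Prime] {Γ : Subgroup (GL (Fin r) ℤ_[ℓ])}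
    (hisom : ∀ g ∈ Γ, (g : Matrix (Fin r) (Fin r) ℤ_[ℓ])ᵀ * ψ.map (Int.cast : ℤ → ℤ_[ℓ]) * g =
      ψ.map (Int.cast : ℤ → ℤ_[ℓ]))
    (hfix : ∀ g ∈ Γ, ∀ v : Fin r → ℤ, (fun i => (v i : ℚ)) ∈ N →
      (g : Matrix (Fin r) (Fin r) ℤ_[ℓ]) *ᵥ (fun i => (v i : ℤ_[ℓ])) = fun i => (v i : ℤ_[ℓ]))
    (hdet1 : ∀ g ∈ Γ, (g : Matrix (Fin r) (Fin r) ℤ_[ℓ]).det = 1)
    (hvan : ∀ f ∈ van ℚ_[ℓ] (mats (Γ.map (Matrix.GeneralLinearGroup.map (algebraMap ℤ_[ℓ] ℚ_[ℓ])))),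
      ∀ M ∈ SOT (ψ.map (Int.cast : ℤ → ℚ_[ℓ])) (smap ℚ_[ℓ] N : Set (Fin r → ℚ_[ℓ])), evM M f = 0) :
    (vanGL ℤ (MTat lev P : Set (GL (Fin r) ℂ))).map (MvPolynomial.map (Int.castRingHom ℤ_[ℓ])) =
      vanGL ℤ_[ℓ] (Γ : Set (GL (Fin r) ℤ_[ℓ])) := by
  obtain ⟨H, hψ, hD⟩ := exists_lattice hlev hP hpol
  have hNN : H.N = N := lattice_N hpol hψ hD hNH hdim hMT
  subst hψ
  rw [MTat_eq hpol hD]
  have hmem : ∀ a : GL (Fin r) ℂ, a ∈ H.MTGroup ↔ a ∈ SOGroup H ℂ := by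
    intro a
    apply mem_MTGroup_of_lie H
    intro 𝔤 hLie hD𝔤 x hx
    refine hMT 𝔤 hLie ?_ x ?_
    · intro D' hD'
      rw [hodgeOp_eq hpol hD hD', cx_eq]
      exact Submodule.smul_mem _ _ hD𝔤
    · rw [← hNN]
      exact hx
  have hΓ : H.Compatible Γ := by
    refine ⟨hisom, hdet1, ?_⟩
    intro γ hγ v hv
    apply hfix γ hγ v
    rw [← hNN]
    change H.D *ᵥ (fun i => (((v i : ℤ) : ℚ) : ℂ)) = 0
    have h1 : (fun i => (((v i : ℤ) : ℚ) : ℂ)) = fun i => ((v i : ℤ) : ℂ) := by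
      funext i
      exact Rat.cast_intCast _
    rw [h1]
    exact hv
  refine (ideal_eq_iff (F := ℚ_[ℓ]) H hmem hΓ).2 ?_
  intro f hf M hM
  refine hvan f hf M ?_
  rw [← hNN]
  exact hM

end Pool.Agent.Helper79.HG
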