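import Pool.Agent.Helper88.MT.Final

/-!
# HG-16: the Mumford-Tate group is the special orthogonal group if its Lie algebra is big

`SOT_subset_of_lie`: copy the proof of `Pool.Agent.Helper88.MT.SOT_subset_of_hodM` (`Pool/Agent/Helper88/MT/HodgeMain.lean`); the part from the comment -- a minimal Lie algebra containing `D` -- to
the comment -- the Lie algebra is everything -- is replaced by `hlie` for `𝔤 = Lk` (`hLlie`, `hDL`). (`hSisom`, `hSfix` may be needed for nothing; they can stay unused.)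
`mem_MTGroup_of_lie`: copy the proof of `Pool.Agent.Helper88.MT.mem_MTGroup_iff` (`Pool/Agent/Helper88/MT/MTGroup.lean`), with
`SOT_subset_of_lie` in place of `SOT_subset_of_hodM`.
-/

set_option linter.unusedSectionVars false

namespace Pool.Agent.Helper79.HG

open Matrix Module Pool.Agent.Helper88.MT

theorem SOT_subset_of_lie {ι : Type*} [Fintype ι] [DecidableEq ι] {k K : Type*} [Field k] [CharZero k]
    [Field K] [Algebra k K] [IsAlgClosed K] {ψ : Matrix ι ι k} (hψ : ψᵀ = ψ) (hdet : ψ.det ≠ 0)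
    {N : Submodule k (ι → k)} (hN : ∀ v ∈ N, (∀ w ∈ N, bil ψ v w = 0) → v = 0)
    {D : Matrix ι ι K}
    (hlie : ∀ 𝔤 : Submodule k (Matrix ι ι k), (∀ x ∈ 𝔤, ∀ y ∈ 𝔤, x * y - y * x ∈ 𝔤) →
      D ∈ mspan K 𝔤 → ∀ x ∈ soT ψ (N : Set (ι → k)), x ∈ 𝔤)
    {S : Set (Matrix ι ι K)} {Q : Set (MvPolynomial (ι × ι) k)}
    (hS : ∀ M, M ∈ S ↔ ∀ q ∈ Q, evM M q = 0) (hS1 : (1 : Matrix ι ι K) ∈ S)
    (hmul : ∀ M ∈ S, ∀ M' ∈ S, M * M' ∈ S)
    {Z : Set K} (hZ : Z.Infinite) (hZ0 : (0 : K) ∉ Z) (hhod : ∀ u ∈ Z, hodM D u ∈ S) :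
    ∀ M ∈ SOT (ψ.map (algebraMap k K)) (smap K N : Set (ι → K)), M ∈ S := by
  have hKchar : CharZero K := charZero_of_injective_algebraMap (algebraMap k K).injective
  -- the ideal
  let 𝓘 : Submodule k (MvPolynomial (ι × ι) k) :=
    { carrier := {f | ∀ M ∈ S, evM (R := K) M f = 0}
      add_mem' := by
        intro f g hf hg M hM
        rw [map_add, hf M hM, hg M hM, add_zero]
      zero_mem' := by intro M _; rw [map_zero]
      smul_mem' := by intro c f hf M hM; rw [map_smul, hf M hM, smul_zero] }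
  have h𝓘 : ∀ f, f ∈ 𝓘 ↔ ∀ M ∈ S, evM (R := K) M f = 0 := fun f ↦ Iff.rfl
  -- the Lie algebra
  let Lk : Submodule k (Matrix ι ι k) :=
    { carrier := {x | ∀ f ∈ 𝓘, der x f ∈ 𝓘}
      add_mem' := by
        intro x y hx hy f hf
        rw [der_add, Derivation.add_apply]
        exact 𝓘.add_mem (hx f hf) (hy f hf)
      zero_mem' := by
        intro f _
        rw [der_zero, Derivation.zero_apply]
        exact 𝓘.zero_mem
      smul_mem' := by
        intro c x hx f hf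
        rw [der_smul, Derivation.smul_apply]
        exact 𝓘.smul_mem c (hx f hf) }
  have hLk : ∀ x, x ∈ Lk ↔ ∀ f ∈ 𝓘, der x f ∈ 𝓘 := fun x ↦ Iff.rfl
  have hLlie : ∀ x ∈ Lk, ∀ y ∈ Lk, x * y - y * x ∈ Lk := by
    intro x hx y hy f hf
    rw [der_comm]
    exact 𝓘.sub_mem (hx _ (hy f hf)) (hy _ (hx f hf))
  -- `D` lies in the span of the Lie algebra
  let LK : Submodule K (Matrix ι ι K) :=
    { carrier := {x | ∀ f ∈ 𝓘, ∀ M ∈ S,
        evM (F := K) M (der x (MvPolynomial.map (algebraMap k K) f)) = 0}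
      add_mem' := by
        intro x y hx hy f hf M hM
        rw [der_add, Derivation.add_apply, map_add, hx f hf M hM, hy f hf M hM, add_zero]
      zero_mem' := by
        intro f _ M _
        rw [der_zero, Derivation.zero_apply, map_zero]
      smul_mem' := by
        intro c x hx f hf M hM
        rw [der_smul, Derivation.smul_apply, map_smul, hx f hf M hM, smul_zero] }
  have hLK : ∀ x, x ∈ LK ↔ ∀ f ∈ 𝓘, ∀ M ∈ S,
      evM (F := K) M (der x (MvPolynomial.map (algebraMap k K) f)) = 0 := fun x ↦ Iff.rfl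
  have hSσ : ∀ σ : K ≃ₐ[k] K, ∀ M ∈ S, M.map σ ∈ S := by
    intro σ M hM
    rw [hS] at hM ⊢
    intro q hq
    rw [evM_algEquiv, hM q hq, map_zero]
  have hLKσ : ∀ σ : K ≃ₐ[k] K, ∀ x ∈ LK, x.map σ ∈ LK := by
    intro σ x hx f hf M hM
    have h1 := hx f hf (M.map σ.symm) (hSσ σ.symm M hM)
    have h2 := evM_mapHom (σ : K →+* K) (M.map σ.symm)
      (der x (MvPolynomial.map (algebraMap k K) f))
    rw [h1, map_zero, ← der_mapHom] at h2
    have h3 : (M.map σ.symm).map (σ : K →+* K) = M := by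
      ext i j; simp
    have h4 : MvPolynomial.map (σ : K →+* K) (MvPolynomial.map (algebraMap k K) f) =
        MvPolynomial.map (algebraMap k K) f := by
      rw [MvPolynomial.map_map]
      have h5 : (σ : K →+* K).comp (algebraMap k K) = algebraMap k K := by
        ext c
        simp
      rw [h5]
    rw [h3, h4] at h2
    exact h2
  have hLKk : LK ≤ mspan K Lk := by
    refine le_mspan_of_stable hLKσ ?_
    intro x hx f hf M hM
    have h1 := hx f hf M hM
    rw [der_map, evM_mapAlg] at h1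
    exact h1
  have hDLK : D ∈ LK := by
    intro f hf M hM
    apply evM_der_hodM hZ hZ0
    intro u hu
    rw [evM_mapAlg]
    exact (h𝓘 f).mp hf _ (hmul M hM _ (hhod u hu))
  have hDL : D ∈ mspan K Lk := hLKk hDLK
  -- the Lie algebra is everything
  have hall : ∀ x ∈ soT ψ (N : Set (ι → k)), x ∈ Lk := hlie Lk hLlie hDL
  -- conclusion
  have h𝓘1 : ∀ f ∈ 𝓘, evM (1 : Matrix ι ι k) f = 0 := by
    intro f hf
    have h1 := (h𝓘 f).mp hf 1 hS1
    have h2 : evM (F := k) (1 : Matrix ι ι K) f = algebraMap k K (evM (1 : Matrix ι ι k) f) := by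
      rw [← evM_map, Matrix.map_one _ (map_zero _) (map_one _), evM_mapAlg]
    rw [h2] at h1
    exact (map_eq_zero _).mp h1
  have h𝓘van : ∀ g ∈ SOT ψ (N : Set (ι → k)), ∀ f ∈ 𝓘, evM g f = 0 := by
    intro g hg f hf
    exact evM_eq_zero_of_mem_SOT hψ hdet hN (𝓘 := (𝓘 : Set (MvPolynomial (ι × ι) k)))
      (fun x hx f hf ↦ (hLk x).mp (hall x hx) f hf) h𝓘1 hg f hf
  intro M hM
  rw [hS]
  intro q hq
  have hq𝓘 : q ∈ 𝓘 := fun M' hM' ↦ (hS M').mp hM' q hq
  have h1 : MvPolynomial.map (algebraMap k K) q ∈ van K (SOT ψ (N : Set (ι → k))) := by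
    intro g hg
    rw [evM_map, h𝓘van g hg q hq𝓘, map_zero]
  have h2 := evM_eq_zero_of_mem_van_SOT hψ hdet hN h1 hM
  rwa [evM_mapAlg] at h2

theorem mem_MTGroup_of_lie {r : ℕ} (H : HodgeLattice r)
    (hlie : ∀ 𝔤 : Submodule ℚ (Matrix (Fin r) (Fin r) ℚ), (∀ x ∈ 𝔤, ∀ y ∈ 𝔤, x * y - y * x ∈ 𝔤) →
      H.D ∈ mspan ℂ 𝔤 → ∀ x ∈ soT (H.form ℚ) (H.N : Set (Fin r → ℚ)), x ∈ 𝔤) {a : GL (Fin r) ℂ} :
    a ∈ H.MTGroup ↔ a ∈ SOGroup H ℂ := by
  constructor
  · intro ha
    rw [HodgeLattice.MTGroup, Subgroup.mem_sInf] at ha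
    apply ha
    refine ⟨⟨(MvPolynomial.rename some) '' (soEqs H), ?_⟩, ?_⟩
    · intro a
      rw [mem_SOGroup, ← soEqs_iff]
      constructor
      · rintro h _ ⟨p, hp, rfl⟩
        rw [evGL_rename]
        exact h p hp
      · intro h p hp
        have := h _ ⟨p, hp, rfl⟩
        rwa [evGL_rename] at this
    · rintro u a ⟨hu, ha⟩
      rw [mem_SOGroup, ha]
      exact hodge_elt_mem H hu
  · intro ha
    rw [HodgeLattice.MTGroup, Subgroup.mem_sInf]
    rintro S ⟨⟨P, hP⟩, hS⟩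
    let S' : Set (Matrix (Fin r) (Fin r) ℂ) :=
      {M | M ∈ SOT (H.form ℂ) (smap ℂ H.N : Set (Fin r → ℂ)) ∧
        ∀ f ∈ P, MvPolynomial.aeval (pt1 M) f = 0}
    have hSS : ∀ b : GL (Fin r) ℂ, (b : Matrix (Fin r) (Fin r) ℂ) ∈ S' →  b ∈ S := by
      rintro b ⟨hb1, hb2⟩
      rw [hP]
      intro f hf
      rw [evGL_of_det hb1.2.1]
      exact hb2 f hf
    have hSS' : ∀ b : GL (Fin r) ℂ, b ∈ S → b ∈ SOGroup H ℂ →
        (b : Matrix (Fin r) (Fin r) ℂ) ∈ S' := by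
      intro b hb hb'
      refine ⟨hb', fun f hf ↦ ?_⟩
      rw [← evGL_of_det hb'.2.1]
      exact (hP b).mp hb f hf
    have hkey := SOT_subset_of_lie (k := ℚ) (K := ℂ) (ψ := H.form ℚ) (N := H.N) (D := H.D)
      (form_symm H ℚ) (form_det H ℚ) (nondeg_N H) hlie (S := S')
      (Q := soEqs H ∪ (toLin '' P)) ?_ ?_ ?_ (Z := {u : ℂ | ‖u‖ = 1}) infinite_circle ?_ ?_
    · rw [form_map] at hkey
      exact hSS a (hkey _ ha)
    · intro M
      constructor
      · rintro ⟨hM1, hM2⟩ q (hq | ⟨f, hf, rfl⟩)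
        · exact (soEqs_iff H).mpr hM1 q hq
        · rw [evM_toLin]
          exact hM2 f hf
      · intro h
        refine ⟨(soEqs_iff H).mp fun p hp ↦ h p (Or.inl hp), fun f hf ↦ ?_⟩
        rw [← evM_toLin]
        exact h _ (Or.inr ⟨f, hf, rfl⟩)
    · have h1 : ((1 : GL (Fin r) ℂ) : Matrix (Fin r) (Fin r) ℂ) ∈ S' :=
        hSS' 1 S.one_mem (SOGroup H ℂ).one_mem
      exact h1
    · intro M hM M' hM'
      have h1 := hSS (ofDet M hM.1.2.1) hM
      have h2 := hSS (ofDet M' hM'.1.2.1) hM'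
      exact hSS' (ofDet M hM.1.2.1 * ofDet M' hM'.1.2.1) (S.mul_mem h1 h2)
        ((SOGroup H ℂ).mul_mem hM.1 hM'.1)
    · intro h
      have h0 : ‖(0 : ℂ)‖ = 1 := h
      rw [norm_zero] at h0
      exact zero_ne_one h0
    · intro u hu
      have h1 := hodge_elt_mem H hu
      exact hSS' (ofDet (hodM H.D u) h1.2.1) (hS u _ ⟨hu, rfl⟩) h1

end Pool.Agent.Helper79.HG
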