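import Pool.Agent.Helper79.HG.Defs
import Pool.Agent.Helper79.HG.MTLie
import Pool.Agent.Helper79.HH.Exist

/-!
# HG-17: the Mumford-Tate group of a polarised Hodge structure given by a period matrix

Notation: `H^p = hodgePart lev 2 P p`. The `H^p` span `ℂ^r` and are independent (`hpol`; see `Pool/Agent/Helper79/HH/Exist.lean`: `exists_basis` gives an invertible
matrix `Q` whose `i`-th column is in `H^(deg i)`, `polFrame` gives a `PolFrame`, `coord_eq_zero`: for `v ∈ H^p` the coordinates `(Q⁻¹ v) i` with `deg i ≠ p` are zero).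

Proofs.
* `deg i ∈ {0, 1, 2}`: for `p < 0` the condition `p < lev x` holds for all `x`, so `P v = 0` and `v = 0` for `v ∈ H^p`; for `p > 2` the condition `2 - p < lev x` holds for all `x`,
  so `P (star v) = 0` and `v = 0`. The columns of `Q` are not zero.
* `exists_lattice`: `D = Q diag(deg i - 1) Q⁻¹`: `D v = (p - 1) v` for `v ∈ H^p`. `D^3 = D` as `deg i - 1 ∈ {-1, 0, 1}`. `star` maps `H^p` to `H^(2-p)` (definition of
  `hodgePart`), so `conj D = - D` (check on the columns of `Q`, which span). `ψ` is symmetric: for `u ∈ H^p`, `v ∈ H^q`: `form ψ u (star v) = 0` for `p ≠ q`, and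
  for `p = q` `(-1)^(p-1) form ψ u (star u)` is real and positive (`I^(2p-2) = (-1)^(p-1)`): so the form `h(u, v) = form ψ u (star v)` is Hermitian on `ℂ^r` (polarisation; or
  use the fields of `PolFrame`: `Qᵀ Ψ conj Q` is block diagonal and, up to signs, positive definite, so Hermitian), hence the real matrix `ψ` is symmetric. It is
  nondegenerate (`PolFrame.unitΨ`). `compat`: `ψ(Du, v) = - ψ(u, Dv)` for `u ∈ H^p`, `v ∈ H^q`: `ψ(u, v) = h(u, star v)`, `star v ∈ H^(2-q)`, zero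
  unless `p = 2 - q`, that is `p - 1 = -(q - 1)`. `nondeg`: an integral `v` with `D v = 0` is in `H^1` (coordinates), and `ψ(v, v) = form ψ v (star v) > 0` if `v ≠ 0`.
* `MTat_eq`: the two groups are defined by the same conditions if `H.IsHodgeElement u a ↔ IsHodgeElt lev P u a`: for `‖u‖ = 1` both say that `a` acts as
  `u^(p-1)` on `H^p` (`p = 0, 1, 2`; `hodM D u` acts in this way, and the `H^p` span).
-/

namespace Pool.Agent.Helper79.HG

open Matrix Module Pool.Agent.Helper79.HH Pool.Agent.Helper88.MT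

variable {r : ℕ} {lev : Fin r → ℤ} {ψ : Matrix (Fin r) (Fin r) ℤ} {P : Matrix (Fin r) (Fin r) ℂ}

private theorem ext_cols {Q M N : Matrix (Fin r) (Fin r) ℂ} (hQu : IsUnit Q.det)
    (h : ∀ i, M *ᵥ (fun x => Q x i) = N *ᵥ (fun x => Q x i)) : M = N := by
  have h1 : M * Q = N * Q := by
    ext x i
    exact congrFun (h i) x
  calc M = M * Q * Q⁻¹ := by rw [Matrix.mul_assoc, Matrix.mul_nonsing_inv _ hQu, Matrix.mul_one]
    _ = N * Q * Q⁻¹ := by rw [h1]
    _ = N := by rw [Matrix.mul_assoc, Matrix.mul_nonsing_inv _ hQu, Matrix.mul_one]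

private theorem col_ne {Q : Matrix (Fin r) (Fin r) ℂ} (hQu : IsUnit Q.det) (i : Fin r) :
    (fun x => Q x i) ≠ 0 := by
  intro h
  have h0 : Q.det = 0 := Matrix.det_eq_zero_of_column_eq_zero i fun x => congrFun h x
  rw [h0] at hQu
  exact not_isUnit_zero hQu

private theorem deg_mem (hlev : ∀ x, 0 ≤ lev x ∧ lev x ≤ 2) (hP : IsUnit P.det)
    {v : Fin r → ℂ} (hv0 : v ≠ 0) {p : ℤ} (hv : v ∈ hodgePart lev 2 P p) : 0 ≤ p ∧ p ≤ 2 := by
  have hinj : ∀ w : Fin r → ℂ, P *ᵥ w = 0 → w = 0 := by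
    intro w hw
    calc w = (P⁻¹ * P) *ᵥ w := by rw [Matrix.nonsing_inv_mul _ hP, Matrix.one_mulVec]
      _ = 0 := by rw [← Matrix.mulVec_mulVec, hw, Matrix.mulVec_zero]
  constructor
  · by_contra hp
    apply hv0
    apply hinj
    funext x
    exact (hv x).1 (by have := (hlev x).1; omega)
  · by_contra hp
    apply hv0
    have h1 : star v = 0 := by
      apply hinj
      funext x
      exact (hv x).2 (by have := (hlev x).1; omega)
    rw [← star_star v, h1, star_zero]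

private theorem cast_eq (ψ : Matrix (Fin r) (Fin r) ℤ) :
    qc (ψ.map (Int.cast : ℤ → ℚ)) = ψ.map (Int.cast : ℤ → ℂ) := by
  ext i k
  simp [qc]

open scoped ComplexOrder in
private theorem gram_herm {Q : Matrix (Fin r) (Fin r) ℂ} {deg : Fin r → ℤ}
    {Ψ : Matrix (Fin r) (Fin r) ℂ} (F : PolFrame 2 Ψ Q deg) (i k : Fin r) :
    (Qᵀ * Ψ * cj Q) i k = star ((Qᵀ * Ψ * cj Q) k i) := by
  by_cases hik : deg i = deg k
  · have h1 := F.pos.isHermitian
    have h2 := congrFun (congrFun h1 k) i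
    rw [Matrix.conjTranspose_apply, Matrix.transpose_apply, Matrix.transpose_apply,
      Matrix.diagonal_mul, Matrix.diagonal_mul, hik] at h2
    have h3 : Complex.I ^ (2 * deg k - 2) = (-1 : ℂ) ^ (deg k - 1) := by
      rw [show 2 * deg k - 2 = 2 * (deg k - 1) by ring, _root_.zpow_mul]
      congr 1
      exact_mod_cast Complex.I_sq
    have h4 : star ((-1 : ℂ) ^ (deg k - 1)) = (-1 : ℂ) ^ (deg k - 1) := by
      rcases Int.even_or_odd (deg k - 1) with h | h
      · rw [h.neg_one_zpow, star_one]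
      · rw [h.neg_one_zpow, star_neg, star_one]
    have h5 : (-1 : ℂ) ^ (deg k - 1) ≠ 0 := zpow_ne_zero _ (by norm_num)
    rw [h3, star_mul', h4] at h2
    exact (mul_left_cancel₀ h5 h2).symm
  · rw [F.orth i k hik, F.orth k i (Ne.symm hik), star_zero]

theorem exists_lattice (hlev : ∀ x, 0 ≤ lev x ∧ lev x ≤ 2) (hP : IsUnit P.det)
    (hpol : IsPolarized lev 2 (ψ.map (Int.cast : ℤ → ℚ)) P) :
    ∃ H : HodgeLattice r, H.ψ = ψ ∧
      ∀ p, ∀ v ∈ hodgePart lev 2 P p, H.D *ᵥ v = ((p - 1 : ℤ) : ℂ) • v := by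
  obtain ⟨Q, deg, hQu, hQ⟩ := exists_basis hpol.span
  have F := polFrame hpol hQu hQ
  set Ψ : Matrix (Fin r) (Fin r) ℂ := ψ.map (Int.cast : ℤ → ℂ) with hΨ
  rw [cast_eq] at F
  set a : Fin r → ℂ := fun i => ((deg i - 1 : ℤ) : ℂ) with ha
  obtain ⟨D, hDdef⟩ : ∃ D : Matrix (Fin r) (Fin r) ℂ, D = Q * diagonal a * Q⁻¹ := ⟨_, rfl⟩
  have hDQ : D * Q = Q * diagonal a := by
    rw [hDdef, Matrix.mul_assoc, Matrix.nonsing_inv_mul _ hQu, Matrix.mul_one]
  have hD : ∀ p, ∀ v ∈ hodgePart lev 2 P p, D *ᵥ v = ((p - 1 : ℤ) : ℂ) • v := by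
    intro p v hv
    obtain ⟨c, hc⟩ : ∃ c, c = Q⁻¹ *ᵥ v := ⟨_, rfl⟩
    have hvc : v = Q *ᵥ c := by
      rw [hc, Matrix.mulVec_mulVec, Matrix.mul_nonsing_inv _ hQu, Matrix.one_mulVec]
    have h0 : ∀ i, deg i ≠ p → c i = 0 := fun i hi => by
      rw [hc]
      exact coord_eq_zero hpol hQu hQ hv i hi
    have h1 : diagonal a *ᵥ c = ((p - 1 : ℤ) : ℂ) • c := by
      funext i
      rw [Matrix.mulVec_diagonal, Pi.smul_apply, smul_eq_mul]
      by_cases hi : deg i = p
      · rw [ha]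
        simp only [hi]
      · rw [h0 i hi, mul_zero, mul_zero]
    calc D *ᵥ v = D *ᵥ (Q *ᵥ c) := by rw [← hvc]
      _ = (D * Q) *ᵥ c := by rw [Matrix.mulVec_mulVec]
      _ = Q *ᵥ (diagonal a *ᵥ c) := by rw [hDQ, Matrix.mulVec_mulVec]
      _ = ((p - 1 : ℤ) : ℂ) • v := by rw [h1, Matrix.mulVec_smul, ← hvc]
  have hdeg : ∀ i, 0 ≤ deg i ∧ deg i ≤ 2 := fun i => deg_mem hlev hP (col_ne hQu i) (hQ i)
  have hconj : D.map (starRingEnd ℂ) = - D := by
    apply ext_cols hQu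
    intro i
    have h1 : D.map (starRingEnd ℂ) *ᵥ (fun x => Q x i) = star (D *ᵥ star (fun x => Q x i)) := by
      funext x
      simp [Matrix.mulVec, dotProduct]
    rw [h1, hD _ _ (star_mem (hQ i)), Matrix.neg_mulVec, hD _ _ (hQ i)]
    funext x
    simp only [Pi.star_apply, Pi.smul_apply, smul_eq_mul, Pi.neg_apply, star_mul', star_star]
    have h2 : star (((2 - deg i - 1 : ℤ) : ℂ)) = ((2 - deg i - 1 : ℤ) : ℂ) := by
      simp
    rw [h2]
    push_cast
    ring
  have hsymm : ψᵀ = ψ := by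
    have h1 : Qᵀ * Ψ * cj Q = Qᵀ * Ψᵀ * cj Q := by
      have h2 : Qᵀ * Ψᵀ * cj Q = (Qᵀ * Ψ * cj Q)ᴴ := by
        have h3 : (cj Q)ᴴ = Qᵀ := by
          ext x y
          simp [cj]
        have h4 : Ψᴴ = Ψᵀ := by
          ext x y
          simp [hΨ]
        have h5 : (Qᵀ)ᴴ = cj Q := by
          ext x y
          simp [cj]
        rw [Matrix.conjTranspose_mul, Matrix.conjTranspose_mul, h3, h4, h5, Matrix.mul_assoc]
      rw [h2]
      ext i k
      rw [Matrix.conjTranspose_apply]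
      exact gram_herm F i k
    have hcj := cj_det Q hQu
    have hQt : IsUnit (Qᵀ).det := by rwa [Matrix.det_transpose]
    have h2 : Ψ = Ψᵀ := by
      calc Ψ = (Qᵀ)⁻¹ * (Qᵀ * Ψ * cj Q) * (cj Q)⁻¹ := by
            rw [Matrix.mul_assoc Qᵀ, ← Matrix.mul_assoc (Qᵀ)⁻¹, Matrix.nonsing_inv_mul _ hQt,
              Matrix.one_mul, Matrix.mul_assoc, Matrix.mul_nonsing_inv _ hcj, Matrix.mul_one]
        _ = (Qᵀ)⁻¹ * (Qᵀ * Ψᵀ * cj Q) * (cj Q)⁻¹ := by rw [h1]
        _ = Ψᵀ := by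
            rw [Matrix.mul_assoc Qᵀ, ← Matrix.mul_assoc (Qᵀ)⁻¹, Matrix.nonsing_inv_mul _ hQt,
              Matrix.one_mul, Matrix.mul_assoc, Matrix.mul_nonsing_inv _ hcj, Matrix.mul_one]
    ext i k
    have h3 := congrFun (congrFun h2 i) k
    rw [Matrix.transpose_apply, hΨ, Matrix.map_apply, Matrix.map_apply] at h3
    rw [Matrix.transpose_apply]
    exact_mod_cast h3.symm
  have hdet : ψ.det ≠ 0 := by
    intro h0
    have h1 := F.unitΨ
    have h2 : Ψ.det = ((ψ.det : ℤ) : ℂ) := by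
      rw [hΨ]
      have := (Int.castRingHom ℂ).map_det ψ
      rw [RingHom.mapMatrix_apply] at this
      exact this.symm
    rw [h2, h0, Int.cast_zero] at h1
    exact not_isUnit_zero h1
  have hcube : D ^ 3 = D := by
    apply ext_cols hQu
    intro i
    have h1 : D ^ 3 = D * (D * D) := by rw [pow_succ, pow_two, Matrix.mul_assoc]
    rw [h1, ← Matrix.mulVec_mulVec, ← Matrix.mulVec_mulVec, hD _ _ (hQ i), Matrix.mulVec_smul,
      Matrix.mulVec_smul, hD _ _ (hQ i), Matrix.mulVec_smul, hD _ _ (hQ i), smul_smul, smul_smul]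
    congr 1
    obtain ⟨h2, h3⟩ := hdeg i
    have h4 : deg i = 0 ∨ deg i = 1 ∨ deg i = 2 := by omega
    rcases h4 with h4 | h4 | h4 <;> rw [h4] <;> norm_num
  have hcompat : Dᵀ * Ψ + Ψ * D = 0 := by
    have hcj := cj_det Q hQu
    have hQt : IsUnit (Qᵀ).det := by rwa [Matrix.det_transpose]
    have h1 : D * cj Q = - (cj Q * diagonal a) := by
      have h2 : cj (D * Q) = cj Q * diagonal a := by
        rw [hDQ, cj_mul]
        congr 1
        ext x y
        by_cases hxy : x = y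
        · subst hxy
          simp [cj, ha]
        · simp [cj, hxy]
      rw [cj_mul] at h2
      have h3 : cj D = - D := hconj
      rw [h3, Matrix.neg_mul] at h2
      rw [← h2, neg_neg]
    have h2 : Qᵀ * (Dᵀ * Ψ + Ψ * D) * cj Q = 0 := by
      have h3 : Qᵀ * (Dᵀ * Ψ + Ψ * D) * cj Q =
          diagonal a * (Qᵀ * Ψ * cj Q) - (Qᵀ * Ψ * cj Q) * diagonal a := by
        have h4 : Qᵀ * Dᵀ = diagonal a * Qᵀ := by
          rw [← Matrix.transpose_mul, hDQ, Matrix.transpose_mul, Matrix.diagonal_transpose]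
        calc Qᵀ * (Dᵀ * Ψ + Ψ * D) * cj Q
            = (Qᵀ * Dᵀ) * Ψ * cj Q + Qᵀ * Ψ * (D * cj Q) := by
              simp only [Matrix.mul_add, Matrix.add_mul, Matrix.mul_assoc]
          _ = _ := by
              rw [h4, h1]
              simp only [Matrix.mul_neg, Matrix.mul_assoc, sub_eq_add_neg]
      rw [h3]
      ext i k
      rw [Matrix.sub_apply, Matrix.diagonal_mul, Matrix.mul_diagonal, Matrix.zero_apply]
      by_cases hik : deg i = deg k
      · simp only [ha, hik]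
        ring
      · rw [F.orth i k hik]
        ring
    calc Dᵀ * Ψ + Ψ * D = (Qᵀ)⁻¹ * (Qᵀ * (Dᵀ * Ψ + Ψ * D) * cj Q) * (cj Q)⁻¹ := by
          rw [Matrix.mul_assoc Qᵀ, ← Matrix.mul_assoc (Qᵀ)⁻¹, Matrix.nonsing_inv_mul _ hQt,
            Matrix.one_mul, Matrix.mul_assoc, Matrix.mul_nonsing_inv _ hcj, Matrix.mul_one]
      _ = 0 := by rw [h2, Matrix.mul_zero, Matrix.zero_mul]
  have hnondeg : ∀ v : Fin r → ℤ, D *ᵥ (fun i ↦ (v i : ℂ)) = 0 →
      (∀ w : Fin r → ℤ, D *ᵥ (fun i ↦ (w i : ℂ)) = 0 → v ⬝ᵥ (ψ *ᵥ w) = 0) → v = 0 := by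
    intro v hv hw
    by_contra hv0
    set V : Fin r → ℂ := fun i ↦ (v i : ℂ) with hV
    have hVne : V ≠ 0 := by
      intro h0
      apply hv0
      funext i
      have := congrFun h0 i
      rw [hV] at this
      simpa using this
    obtain ⟨c, hc⟩ : ∃ c, c = Q⁻¹ *ᵥ V := ⟨_, rfl⟩
    have hvc : V = Q *ᵥ c := by
      rw [hc, Matrix.mulVec_mulVec, Matrix.mul_nonsing_inv _ hQu, Matrix.one_mulVec]
    have h1 : diagonal a *ᵥ c = 0 := by
      have h2 : Q *ᵥ (diagonal a *ᵥ c) = 0 := by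
        rw [Matrix.mulVec_mulVec, ← hDQ, ← Matrix.mulVec_mulVec, ← hvc, hv]
      calc diagonal a *ᵥ c = (Q⁻¹ * Q) *ᵥ (diagonal a *ᵥ c) := by
            rw [Matrix.nonsing_inv_mul _ hQu, Matrix.one_mulVec]
        _ = 0 := by rw [← Matrix.mulVec_mulVec, h2, Matrix.mulVec_zero]
    have h2 : ∀ i, deg i ≠ 1 → c i = 0 := by
      intro i hi
      have h3 := congrFun h1 i
      rw [Matrix.mulVec_diagonal, Pi.zero_apply, mul_eq_zero] at h3
      rcases h3 with h3 | h3
      · exfalso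
        apply hi
        simp only [ha] at h3
        have h4 : deg i - 1 = 0 := by exact_mod_cast h3
        omega
      · exact h3
    have h3 : V ∈ hodgePart lev 2 P 1 := by
      rw [hvc]
      exact mulVec_mem hQ h2
    obtain ⟨b, hb, h4⟩ := hpol.pos 1 V h3 hVne
    have h5 : form (ψ.map (Int.cast : ℤ → ℚ)) V (star V) = ((v ⬝ᵥ (ψ *ᵥ v) : ℤ) : ℂ) := by
      rw [form]
      simp only [dotProduct, Matrix.mulVec, hV, Matrix.map_apply, Pi.star_apply]
      push_cast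
      simp
    rw [h5, hw v hv, Int.cast_zero, mul_zero] at h4
    have : b = 0 := by exact_mod_cast h4.symm
    exact hb.ne' this
  exact ⟨⟨ψ, D, hsymm, hdet, hcube, hconj, hcompat, hnondeg⟩, rfl, hD⟩

theorem MTat_eq (hpol : IsPolarized lev 2 (ψ.map (Int.cast : ℤ → ℚ)) P) {H : HodgeLattice r}
    (hD : ∀ p, ∀ v ∈ hodgePart lev 2 P p, H.D *ᵥ v = ((p - 1 : ℤ) : ℂ) • v) :
    MTat lev P = H.MTGroup := by
  obtain ⟨Q, deg, hQu, hQ⟩ := exists_basis hpol.span
  have key : ∀ u : ℂ, ‖u‖ = 1 → ∀ p, ∀ v ∈ hodgePart lev 2 P p,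
      ((1 - H.D ^ 2) + u • ((2 : ℂ)⁻¹ • (H.D ^ 2 + H.D)) +
        u⁻¹ • ((2 : ℂ)⁻¹ • (H.D ^ 2 - H.D))) *ᵥ v = u ^ (p - 1) • v := by
    intro u hu p v hv
    have h1 : H.D *ᵥ v = ((p - 1 : ℤ) : ℂ) • v := hD p v hv
    have h2 : H.D ^ 2 *ᵥ v = (((p - 1 : ℤ) : ℂ) * ((p - 1 : ℤ) : ℂ)) • v := by
      rw [pow_two, ← Matrix.mulVec_mulVec, h1, Matrix.mulVec_smul, h1, smul_smul]
    by_cases hv0 : v = 0
    · rw [hv0, Matrix.mulVec_zero, smul_zero]
    have h3 : ((p - 1 : ℤ) : ℂ) ^ 3 = ((p - 1 : ℤ) : ℂ) := by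
      have h4 : H.D ^ 3 *ᵥ v = H.D *ᵥ v := by rw [H.cube]
      rw [pow_succ, ← Matrix.mulVec_mulVec, h1, Matrix.mulVec_smul, h2, smul_smul] at h4
      obtain ⟨x, hx⟩ := Function.ne_iff.mp hv0
      have h5 := congrFun h4 x
      simp only [Pi.smul_apply, smul_eq_mul] at h5
      have h6 := mul_right_cancel₀ hx h5
      linear_combination h6
    have h4 : (p - 1) ^ 3 = p - 1 := by exact_mod_cast h3
    have h5 : p = 0 ∨ p = 1 ∨ p = 2 := by
      have h6 : p * ((p - 1) * (p - 2)) = 0 := by linear_combination h4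
      rcases mul_eq_zero.mp h6 with h | h
      · exact Or.inl h
      rcases mul_eq_zero.mp h with h | h
      · exact Or.inr (Or.inl (by omega))
      · exact Or.inr (Or.inr (by omega))
    rw [Matrix.add_mulVec, Matrix.add_mulVec, Matrix.sub_mulVec, Matrix.one_mulVec,
      Matrix.smul_mulVec, Matrix.smul_mulVec, Matrix.smul_mulVec,
      Matrix.smul_mulVec, Matrix.add_mulVec, Matrix.sub_mulVec, h1, h2]
    have hu0 : u ≠ 0 := by
      intro h0
      rw [h0, norm_zero] at hu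
      exact zero_ne_one hu
    funext x
    simp only [Pi.add_apply, Pi.sub_apply, Pi.smul_apply, smul_eq_mul]
    rcases h5 with h5 | h5 | h5
    · subst h5
      rw [show (0 : ℤ) - 1 = -1 by norm_num, _root_.zpow_neg_one]
      push_cast
      ring
    · subst h5
      rw [show (1 : ℤ) - 1 = 0 by norm_num, zpow_zero]
      push_cast
      ring
    · subst h5
      rw [show (2 : ℤ) - 1 = 1 by norm_num, zpow_one]
      push_cast
      ring
  have hiff : ∀ u a, IsHodgeElt lev P u a ↔ H.IsHodgeElement u a := by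
    intro u a
    constructor
    · rintro ⟨hu, ha⟩
      refine ⟨hu, ?_⟩
      apply ext_cols hQu
      intro i
      rw [ha _ _ (hQ i), key u hu _ _ (hQ i)]
    · rintro ⟨hu, ha⟩
      refine ⟨hu, fun p v hv => ?_⟩
      rw [ha]
      exact key u hu p v hv
  rw [MTat, HodgeLattice.MTGroup]
  congr 1
  ext S
  simp only [Set.mem_ofPred_eq, hiff]

end Pool.Agent.Helper79.HG
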