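import Pool.Agent.Helper79.HG.Level
import Pool.Agent.Helper79.HG.Conn
import Pool.Agent.Helper79.HG.NS
import Pool.Agent.Helper79.HG.Der
import Pool.Agent.Helper79.HG.Mon
import Pool.Agent.Helper79.HG.LatEq
import Pool.Agent.Helper79.HG.Group
import Pool.Agent.Helper79.HH.Count

/-!
# HG-24: the Mumford-Tate conjecture for most of the fibres

(helper79)
-/

namespace Pool.Agent.Helper79.HG

open Matrix Module Pool.Agent.Helper79.BB Pool.Agent.Helper79.HH Pool.Agent.Helper64.Per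
  Pool.Agent.Helper88.MT Pool.Agent.Helper79.DD

section Group

variable {r ℓ : ℕ} [Fact ℓ.Prime] {ψ : Matrix (Fin r) (Fin r) ℤ} {N : Submodule ℚ (Fin r → ℚ)}

theorem toQl_val (g : GL (Fin r) ℤ_[ℓ]) : ((toQl g : GL (Fin r) ℚ_[ℓ]) : Matrix (Fin r) (Fin r) ℚ_[ℓ]) =
    (g : Matrix (Fin r) (Fin r) ℤ_[ℓ]).map (algebraMap ℤ_[ℓ] ℚ_[ℓ]) := rfl

theorem det_toQl (g : GL (Fin r) ℤ_[ℓ]) : (toQl g : Matrix (Fin r) (Fin r) ℚ_[ℓ]).det =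
    algebraMap ℤ_[ℓ] ℚ_[ℓ] (g : Matrix (Fin r) (Fin r) ℤ_[ℓ]).det := by
  rw [toQl_val]
  exact (RingHom.map_det (algebraMap ℤ_[ℓ] ℚ_[ℓ]) (g : Matrix (Fin r) (Fin r) ℤ_[ℓ])).symm

/-- The determinant of an isometry is one or minus one. -/
theorem det_isom {R : Type*} [CommRing R] [IsDomain R] {Ψ g : Matrix (Fin r) (Fin r) R} (hΨ : Ψ.det ≠ 0)
    (hg : gᵀ * Ψ * g = Ψ) : g.det = 1 ∨ g.det = -1 := by
  have h1 := congrArg Matrix.det hg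
  rw [Matrix.det_mul, Matrix.det_mul, Matrix.det_transpose] at h1
  have h2 : Ψ.det * (g.det * g.det) = Ψ.det * 1 := by linear_combination h1
  exact mul_self_eq_one_iff.1 (mul_left_cancel₀ hΨ h2)

theorem det_map_ne {R : Type*} [CommRing R] [CharZero R] (hdet : ψ.det ≠ 0) :
    (ψ.map (Int.cast : ℤ → R)).det ≠ 0 := by
  have h1 : (ψ.map (Int.cast : ℤ → R)).det = ((ψ.det : ℤ) : R) := (RingHom.map_det (Int.castRingHom R) ψ).symm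
  rw [h1]
  exact_mod_cast hdet

/-- A matrix which fixes the integral vectors of `N` fixes the `ℓ`-adic span of `N`. -/
theorem fix_smap {g : Matrix (Fin r) (Fin r) ℤ_[ℓ]}
    (h : ∀ v : Fin r → ℤ, rv v ∈ N → g *ᵥ lv ℓ v = lv ℓ v) {x : Fin r → ℚ_[ℓ]} (hx : x ∈ smap ℚ_[ℓ] N) :
    g.map (algebraMap ℤ_[ℓ] ℚ_[ℓ]) *ᵥ x = x := by
  unfold smap at hx
  induction hx using Submodule.span_induction with
  | mem x hx =>
    obtain ⟨n, hn, rfl⟩ := hx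
    obtain ⟨d, hd, v, hv⟩ := exists_integral n
    have h1 : rv v = (d : ℚ) • n := by
      funext i
      exact hv i
    have h2 := h v (by rw [h1]; exact N.smul_mem _ hn)
    have h3 : (d : ℚ_[ℓ]) • vmap ℚ_[ℓ] n = fun i => algebraMap ℤ_[ℓ] ℚ_[ℓ] (lv ℓ v i) := by
      funext i
      have h4 := congrArg (fun q : ℚ => (q : ℚ_[ℓ])) (hv i)
      simpa [vmap, lv] using h4.symm
    have h5 : g.map (algebraMap ℤ_[ℓ] ℚ_[ℓ]) *ᵥ ((d : ℚ_[ℓ]) • vmap ℚ_[ℓ] n) =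
        (d : ℚ_[ℓ]) • vmap ℚ_[ℓ] n := by
      rw [h3]
      conv_rhs => rw [← h2]
      funext i
      simp [mulVec, dotProduct]
    rw [mulVec_smul] at h5
    exact smul_right_injective _ (by exact_mod_cast hd) h5
  | zero => exact mulVec_zero _
  | add x y _ _ hx hy => rw [mulVec_add, hx, hy]
  | smul c x _ hx => rw [mulVec_smul, hx]

/-- Connected groups of isometries which permute the integral vectors of `N`. -/
theorem of_isConn (hψ : ψᵀ = ψ) (hdet : ψ.det ≠ 0)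
    (hpos : ∀ v ∈ N, v ≠ 0 → 0 < bil (ψ.map (Int.cast : ℤ → ℚ)) v v)
    {G : Subgroup (GL (Fin r) ℤ_[ℓ])}
    (hisom : ∀ g ∈ G, (g : Matrix (Fin r) (Fin r) ℤ_[ℓ])ᵀ * ψ.map (Int.cast : ℤ → ℤ_[ℓ]) * g =
      ψ.map (Int.cast : ℤ → ℤ_[ℓ]))
    (hN : ∀ g ∈ G, ∀ v : Fin r → ℤ, rv v ∈ N → ∃ u : Fin r → ℤ, rv u ∈ N ∧
      (g : Matrix (Fin r) (Fin r) ℤ_[ℓ]) *ᵥ lv ℓ v = lv ℓ u)
    (hconn : IsConn (toQl '' (G : Set (GL (Fin r) ℤ_[ℓ])))) :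
    ∀ g ∈ G, (g : Matrix (Fin r) (Fin r) ℤ_[ℓ]).det = 1 ∧
      ∀ v : Fin r → ℤ, rv v ∈ N → (g : Matrix (Fin r) (Fin r) ℤ_[ℓ]) *ᵥ lv ℓ v = lv ℓ v := by
  classical
  have h1 : (1 : GL (Fin r) ℚ_[ℓ]) ∈ toQl '' (G : Set (GL (Fin r) ℤ_[ℓ])) :=
    ⟨1, G.one_mem, map_one _⟩
  intro g hg
  constructor
  · have h2 := det_eq_one_of_isConn hconn h1 ?_ (toQl g) ⟨g, hg, rfl⟩
    · rw [det_toQl, ← map_one (algebraMap ℤ_[ℓ] ℚ_[ℓ])] at h2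
      exact IsFractionRing.injective ℤ_[ℓ] ℚ_[ℓ] h2
    · rintro _ ⟨g, hg, rfl⟩
      rw [det_toQl]
      rcases det_isom (det_map_ne hdet) (hisom g hg) with h | h
      · left; rw [h, map_one]
      · right; rw [h, map_neg, map_one]
  · intro v hv
    have hval : ∀ g : GL (Fin r) ℤ_[ℓ], (toQl g : Matrix (Fin r) (Fin r) ℚ_[ℓ]) *ᵥ
        (fun i => algebraMap ℤ_[ℓ] ℚ_[ℓ] (lv ℓ v i)) =
        fun i => algebraMap ℤ_[ℓ] ℚ_[ℓ] (((g : Matrix (Fin r) (Fin r) ℤ_[ℓ]) *ᵥ lv ℓ v) i) := by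
      intro g
      funext i
      simp [toQl_val, mulVec, dotProduct]
    have h2 := mulVec_eq_of_isConn hconn h1 (fun i => algebraMap ℤ_[ℓ] ℚ_[ℓ] (lv ℓ v i)) ?_ (toQl g)
      ⟨g, hg, rfl⟩
    · rw [hval] at h2
      funext i
      exact IsFractionRing.injective ℤ_[ℓ] ℚ_[ℓ] (congrFun h2 i)
    · refine Set.Finite.subset ((finite_norm hψ hpos
        (bil (ψ.map (Int.cast : ℤ → ℚ)) (rv v) (rv v))).image
          fun u i => algebraMap ℤ_[ℓ] ℚ_[ℓ] (lv ℓ u i)) ?_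
      rintro _ ⟨_, ⟨g, hg, rfl⟩, rfl⟩
      obtain ⟨u, hu, hgu⟩ := hN g hg v hv
      refine ⟨u, ⟨hu, ?_⟩, ?_⟩
      · have hcast : ∀ v : Fin r → ℤ, bil (ψ.map (Int.cast : ℤ → ℤ_[ℓ])) (lv ℓ v) (lv ℓ v) =
            ((v ⬝ᵥ (ψ *ᵥ v) : ℤ) : ℤ_[ℓ]) := by
          intro v
          simp [bil, lv, mulVec, dotProduct]
        have h3 := bil_mulVec (hisom g hg) (lv ℓ v) (lv ℓ v)
        rw [hgu, hcast, hcast] at h3
        rw [bil_rv, bil_rv]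
        exact_mod_cast h3
      · change _ = (toQl g : Matrix (Fin r) (Fin r) ℚ_[ℓ]) *ᵥ _
        rw [hval, hgu]

/-- The level `ℓ^k` suffices for the group `Γ`. -/
def GroupLevel (ψ : Matrix (Fin r) (Fin r) ℤ) (N : Submodule ℚ (Fin r → ℚ))
    (Γ : Set (Matrix (Fin r) (Fin r) ℤ)) (ℓ : ℕ) [Fact ℓ.Prime] (k : ℕ) : Prop :=
  ∀ G : Subgroup (GL (Fin r) ℤ_[ℓ]),
    (∀ g ∈ G, (g : Matrix (Fin r) (Fin r) ℤ_[ℓ])ᵀ * ψ.map (Int.cast : ℤ → ℤ_[ℓ]) * g =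
      ψ.map (Int.cast : ℤ → ℤ_[ℓ])) →
    (∀ g ∈ G.map (Matrix.GeneralLinearGroup.map (algebraMap ℤ_[ℓ] ℚ_[ℓ])), ∀ v ∈ smap ℚ_[ℓ] N,
      (g : Matrix (Fin r) (Fin r) ℚ_[ℓ]) *ᵥ v = v) →
    (∀ γ ∈ Γ, ∃ g ∈ G, ∀ i j, PadicInt.toZModPow k ((g : Matrix (Fin r) (Fin r) ℤ_[ℓ]) i j) =
      ((γ i j : ℤ) : ZMod (ℓ ^ k))) →
    ∀ G' : Subgroup (GL (Fin r) ℤ_[ℓ]), G' ≤ G → (G'.subgroupOf G).FiniteIndex →
      (∀ g ∈ G', (g : Matrix (Fin r) (Fin r) ℤ_[ℓ]).det = 1) →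
      ∀ f ∈ van ℚ_[ℓ] (mats (G'.map (Matrix.GeneralLinearGroup.map (algebraMap ℤ_[ℓ] ℚ_[ℓ])))),
        ∀ M ∈ SOT (ψ.map (Int.cast : ℤ → ℚ_[ℓ])) (smap ℚ_[ℓ] N : Set (Fin r → ℚ_[ℓ])),
          evM M f = 0

/-- The level `ℓ^k` suffices for the vectors of `N`. -/
def FixLevel (ψ : Matrix (Fin r) (Fin r) ℤ) (N : Submodule ℚ (Fin r → ℚ)) (ℓ : ℕ) [Fact ℓ.Prime]
    (k : ℕ) : Prop :=
  ∀ g : Matrix (Fin r) (Fin r) ℤ_[ℓ],
    gᵀ * ψ.map (Int.cast : ℤ → ℤ_[ℓ]) * g = ψ.map (Int.cast : ℤ → ℤ_[ℓ]) →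
    (∀ v : Fin r → ℤ, rv v ∈ N → ∃ u : Fin r → ℤ, rv u ∈ N ∧ g *ᵥ lv ℓ v = lv ℓ u) →
    ∀ γ : Matrix (Fin r) (Fin r) ℤ, (∀ v : Fin r → ℤ, rv v ∈ N → γ *ᵥ v = v) →
    (∀ i j, PadicInt.toZModPow k (g i j) = ((γ i j : ℤ) : ZMod (ℓ ^ k))) →
    ∀ v : Fin r → ℤ, rv v ∈ N → g *ᵥ lv ℓ v = lv ℓ v

/-- The elements of `G` which fix the integral vectors of `N`. -/
def fixer (N : Submodule ℚ (Fin r → ℚ)) (G : Subgroup (GL (Fin r) ℤ_[ℓ])) :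
    Subgroup (GL (Fin r) ℤ_[ℓ]) where
  carrier := {g | g ∈ G ∧ ∀ v : Fin r → ℤ, rv v ∈ N →
    (g : Matrix (Fin r) (Fin r) ℤ_[ℓ]) *ᵥ lv ℓ v = lv ℓ v}
  mul_mem' := by
    rintro a b ⟨ha, ha'⟩ ⟨hb, hb'⟩
    refine ⟨G.mul_mem ha hb, fun v hv => ?_⟩
    rw [Units.val_mul, ← mulVec_mulVec, hb' v hv, ha' v hv]
  one_mem' := ⟨G.one_mem, fun v _ => by rw [Units.val_one, one_mulVec]⟩
  inv_mem' := by
    rintro a ⟨ha, ha'⟩
    refine ⟨G.inv_mem ha, fun v hv => ?_⟩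
    conv_lhs => rw [← ha' v hv]
    rw [mulVec_mulVec, ← Units.val_mul, inv_mul_cancel, Units.val_one, one_mulVec]

/-- The group part of the proof at a point. -/
theorem vanishing_of_level (hψ : ψᵀ = ψ) (hdet : ψ.det ≠ 0)
    (hpos : ∀ v ∈ N, v ≠ 0 → 0 < bil (ψ.map (Int.cast : ℤ → ℚ)) v v)
    {Γ : Set (Matrix (Fin r) (Fin r) ℤ)} (hΓ : ∀ γ ∈ Γ, ∀ v : Fin r → ℤ, rv v ∈ N → γ *ᵥ v = v)
    {k : ℕ} (hk : GroupLevel ψ N Γ ℓ k) {K : ℕ} (hkK : k ≤ K) (hK : FixLevel ψ N ℓ K)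
    {G : Subgroup (GL (Fin r) ℤ_[ℓ])}
    (hisom : ∀ g ∈ G, (g : Matrix (Fin r) (Fin r) ℤ_[ℓ])ᵀ * ψ.map (Int.cast : ℤ → ℤ_[ℓ]) * g =
      ψ.map (Int.cast : ℤ → ℤ_[ℓ]))
    (hGN : ∀ g ∈ G, ∀ v : Fin r → ℤ, rv v ∈ N → ∃ u : Fin r → ℤ, rv u ∈ N ∧
      (g : Matrix (Fin r) (Fin r) ℤ_[ℓ]) *ᵥ lv ℓ v = lv ℓ u)
    (hcong : ∀ γ ∈ Γ, ∃ g ∈ G, ∀ i j, PadicInt.toZModPow K ((g : Matrix (Fin r) (Fin r) ℤ_[ℓ]) i j) =
      ((γ i j : ℤ) : ZMod (ℓ ^ K)))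
    {G' : Subgroup (GL (Fin r) ℤ_[ℓ])} (hG' : G' ≤ G) (hfin : G'.relIndex G ≠ 0)
    (hconn : IsConn (toQl '' (G' : Set (GL (Fin r) ℤ_[ℓ])))) :
    ∀ f ∈ van ℚ_[ℓ] (mats (G'.map (Matrix.GeneralLinearGroup.map (algebraMap ℤ_[ℓ] ℚ_[ℓ])))),
      ∀ M ∈ SOT (ψ.map (Int.cast : ℤ → ℚ_[ℓ])) (smap ℚ_[ℓ] N : Set (Fin r → ℚ_[ℓ])), evM M f = 0 := by
  have hc := of_isConn hψ hdet hpos (fun g hg => hisom g (hG' hg)) (fun g hg => hGN g (hG' hg)) hconn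
  have hle : G' ≤ fixer N G := fun g hg => ⟨hG' hg, (hc g hg).2⟩
  refine hk (fixer N G) (fun g hg => hisom g hg.1) ?_ ?_ G' hle ?_ fun g hg => (hc g hg).1
  · rintro _ ⟨g, hg, rfl⟩ v hv
    exact fix_smap hg.2 hv
  · intro γ hγ
    obtain ⟨g, hg, hgγ⟩ := hcong γ hγ
    refine ⟨g, ⟨hg, hK _ (hisom g hg) (hGN g hg) γ (hΓ γ hγ) hgγ⟩, fun i j => ?_⟩
    have h1 := congrArg (ZMod.castHom (pow_dvd_pow ℓ hkK) (ZMod (ℓ ^ k))) (hgγ i j)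
    rw [map_intCast] at h1
    rw [← h1, ← PadicInt.zmod_cast_comp_toZModPow k K hkK]
    rfl
  · rw [← Subgroup.isFiniteRelIndex_iff_finiteIndex]
    have : G'.IsFiniteRelIndex G := Subgroup.isFiniteRelIndex_iff_relIndex_ne_zero.2 hfin
    exact Subgroup.isFiniteRelIndex_of_le_right G' fun g hg => hg.1

end Group

section Hodge

variable {r : ℕ} {lev : Fin r → ℤ} {ψ : Matrix (Fin r) (Fin r) ℤ} {P : Matrix (Fin r) (Fin r) ℂ}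
  {N : Submodule ℚ (Fin r → ℚ)}

/-- The form is positive on the rational vectors of type `(0, 0)`. -/
theorem pos_of_hodge (hpol : IsPolarized lev 2 (ψ.map (Int.cast : ℤ → ℚ)) P)
    (hNH : ∀ v ∈ N, (fun i => ((v i : ℚ) : ℂ)) ∈ hodgePart lev 2 P 1) :
    ∀ v ∈ N, v ≠ 0 → 0 < bil (ψ.map (Int.cast : ℤ → ℚ)) v v := by
  intro v hv hne
  have hne' : (fun i => ((v i : ℚ) : ℂ)) ≠ 0 := by
    intro h0
    apply hne
    funext i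
    have h1 := congrFun h0 i
    simp only [Pi.zero_apply] at h1 ⊢
    exact_mod_cast h1
  obtain ⟨c, hc, h1⟩ := hpol.pos 1 _ (hNH v hv) hne'
  have h2 : form (ψ.map (Int.cast : ℤ → ℚ)) (fun i => ((v i : ℚ) : ℂ))
      (star fun i => ((v i : ℚ) : ℂ)) = ((bil (ψ.map (Int.cast : ℤ → ℚ)) v v : ℚ) : ℂ) := by
    have h3 : (star fun i => ((v i : ℚ) : ℂ)) = fun i => ((v i : ℚ) : ℂ) := by
      funext i
      simp
    rw [h3, form, bil]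
    simp [mulVec, dotProduct]
  rw [h2] at h1
  norm_num at h1
  have h3 : (((bil (ψ.map (Int.cast : ℤ → ℚ)) v v : ℚ) : ℝ) : ℂ) = (c : ℂ) := by
    rw [← h1]
    norm_cast
  have h4 : ((bil (ψ.map (Int.cast : ℤ → ℚ)) v v : ℚ) : ℝ) = c := by exact_mod_cast h3
  have h5 : (0 : ℝ) < ((bil (ψ.map (Int.cast : ℤ → ℚ)) v v : ℚ) : ℝ) := by rw [h4]; exact hc
  exact_mod_cast h5

/-- The Lie algebra of the Mumford-Tate group contains the orthogonal Lie algebra. -/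
theorem lie_of_mtContains (hψ : ψᵀ = ψ) (hdet : ψ.det ≠ 0)
    (hN : ∀ v ∈ N, (∀ w ∈ N, bil (ψ.map (Int.cast : ℤ → ℚ)) v w = 0) → v = 0)
    (hdim : finrank ℚ (orthS (ψ.map (Int.cast : ℤ → ℚ)) N) ≠ 2) {h : Set (Matrix (Fin r) (Fin r) ℂ)}
    (hMT : MTContains lev 2 P h)
    (hh : ∀ x ∈ soT (ψ.map (Int.cast : ℤ → ℂ)) (smap ℂ N : Set (Fin r → ℂ)), x ∈ h)
    (𝔤 : Submodule ℚ (Matrix (Fin r) (Fin r) ℚ)) (hlie : ∀ x ∈ 𝔤, ∀ y ∈ 𝔤, x * y - y * x ∈ 𝔤)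
    (hD : ∀ D, IsHodgeOp lev 2 P D → D ∈ cx 𝔤) :
    ∀ x ∈ soT (ψ.map (Int.cast : ℤ → ℚ)) (N : Set (Fin r → ℚ)), x ∈ 𝔤 := by
  set Ψ := ψ.map (Int.cast : ℤ → ℚ) with hΨ
  have hΨs : Ψᵀ = Ψ := by rw [hΨ, ← Matrix.transpose_map, hψ]
  have hΨd : Ψ.det ≠ 0 := det_map_ne hdet
  have hΨC : ψ.map (Int.cast : ℤ → ℂ) = Ψ.map (algebraMap ℚ ℂ) := by
    ext i j
    simp [hΨ]
  rw [hΨC] at hh
  have hCs : (Ψ.map (algebraMap ℚ ℂ))ᵀ = Ψ.map (algebraMap ℚ ℂ) := by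
    rw [← Matrix.transpose_map, hΨs]
  have hCd : (Ψ.map (algebraMap ℚ ℂ)).det ≠ 0 := by
    rw [← hΨC]
    exact det_map_ne hdet
  intro x hx
  have h1 := soT_perfect hCs hCd (nondeg_smap hN) (W := cx 𝔤) ?_
    (fun x hx y hy => hMT 𝔤 hlie hD x (hh x hx) y (hh y hy)) _ (map_mem_soT (K := ℂ) hx)
  · exact mem_of_map_mem_mspan h1
  · rw [orthS_smap, finrank_smap]
    exact hdim

end Hodge

section Point

variable {κ : IntermediateField ℚ Qbar} {m r ℓ : ℕ} [Fact ℓ.Prime] {U : Set (Fin m → ℂ)}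
  {w : (Fin m → ℂ) → ℂ}

/-- The matrix of an isometry permutes the vectors modulo `ℓ^k`. -/
theorem exists_perm_actZ {ψ : Matrix (Fin r) (Fin r) ℤ} (hdet : ψ.det ≠ 0) {γ : Matrix (Fin r) (Fin r) ℤ}
    (hγ : γᵀ * ψ * γ = ψ) (k : ℕ) :
    ∃ π : Equiv.Perm (Fin r → ZMod (ℓ ^ k)), ∀ v, π v = actZ γ v := by
  have h1 : IsUnit (γ.map (Int.cast : ℤ → ZMod (ℓ ^ k))).det := by
    have h2 : (γ.map (Int.cast : ℤ → ZMod (ℓ ^ k))).det = ((γ.det : ℤ) : ZMod (ℓ ^ k)) :=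
      (RingHom.map_det (Int.castRingHom (ZMod (ℓ ^ k))) γ).symm
    rw [h2]
    rcases det_isom hdet hγ with h | h
    · rw [h]
      simp
    · rw [h]
      simp
  have h3 : Function.Injective (actZ γ : (Fin r → ZMod (ℓ ^ k)) → Fin r → ZMod (ℓ ^ k)) := by
    intro v v' h
    have h4 := congrArg (fun u => (γ.map (Int.cast : ℤ → ZMod (ℓ ^ k)))⁻¹ *ᵥ u) h
    simp only [actZ] at h4
    rw [mulVec_mulVec, mulVec_mulVec, Matrix.nonsing_inv_mul _ h1, one_mulVec, one_mulVec] at h4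
    exact h4
  exact ⟨Equiv.ofBijective _ (Finite.injective_iff_bijective.1 h3), fun v => rfl⟩

/-- The proof at a point. -/
theorem mtEq_of {μ : ℕ} (hw : IsBranchM κ U μ w) {P : (Fin m → ℂ) → Matrix (Fin r) (Fin r) ℂ}
    {lev : Fin r → ℤ} (hlev : ∀ x, 0 ≤ lev x ∧ lev x ≤ 2) {ψ : Matrix (Fin r) (Fin r) ℤ}
    {Y : ∀ k : ℕ, CoverData κ (Fin r → ZMod (ℓ ^ k)) U w} {N : Submodule ℚ (Fin r → ℚ)}
    (hN : N = fixedPart (MonoL ψ P Y))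
    (hdim : 3 ≤ finrank ℚ (orthS (ψ.map (Int.cast : ℤ → ℚ)) N))
    (hbig : ∀ x ∈ soT (ψ.map (Int.cast : ℤ → ℂ)) (smap ℂ N : Set (Fin r → ℂ)),
      x ∈ HH.tangent ((fun γ : Matrix (Fin r) (Fin r) ℤ => γ.map (Int.cast : ℤ → ℂ)) '' MonoL ψ P Y))
    (hψ : ψᵀ = ψ) (hdet : ψ.det ≠ 0)
    {k : ℕ} (hk : GroupLevel ψ N (MonoL ψ P Y) ℓ k) {K : ℕ} (hkK : k ≤ K) (hK : FixLevel ψ N ℓ K)
    {t : Fin m → ℂ} (htU : t ∈ U) (ht : ∀ i, IsAlgebraic ℚ (t i)) (hP : IsUnit (P t).det)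
    (hpol : IsPolarized lev 2 (ψ.map (Int.cast : ℤ → ℚ)) (P t))
    (hNH : ∀ v ∈ N, (fun i => ((v i : ℚ) : ℂ)) ∈ hodgePart lev 2 (P t) 1)
    (hMT : MTContains lev 2 (P t) (HH.tangent (Mono (ψ.map (Int.cast : ℤ → ℚ)) U w P)))
    (hgal : ∀ π : Equiv.Perm (Fin r → ZMod (ℓ ^ K)), Relation.ReflTransGen Elem.Next
      (⟨U, w, fun e : (Fin r → ZMod (ℓ ^ K)) × Fin (Y K).N => (Y K).y e.1 e.2⟩ :
        Elem m ((Fin r → ZMod (ℓ ^ K)) × Fin (Y K).N))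
      ⟨U, w, fun e => (Y K).y (π e.1) e.2⟩ →
      ∃ σ : Qbar ≃ₐ[kapM κ t (w t)] Qbar, ∀ a' i (u : Qbar),
        (u : ℂ) = (Y K).y a' i t → ((σ u : Qbar) : ℂ) = (Y K).y (π a') i t) :
    MTEq Y lev ψ N P t := by
  classical
  intro ρ hρ hisom hGN G' hG' hconn
  have hpos := pos_of_hodge hpol hNH
  have hNn : ∀ v ∈ N, (∀ w ∈ N, bil (ψ.map (Int.cast : ℤ → ℚ)) v w = 0) → v = 0 := by
    intro v hv h
    by_contra hne
    have h1 := hpos v hv hne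
    rw [h v hv] at h1
    exact lt_irrefl _ h1
  -- the monodromy group fixes `N`
  have hΓ : ∀ γ ∈ MonoL ψ P Y, ∀ v : Fin r → ℤ, rv v ∈ N → γ *ᵥ v = v := by
    intro γ hγ v hv
    rw [hN] at hv
    have h1 : γ.map (Int.cast : ℤ → ℚ) *ᵥ rv v = rv v := hv γ hγ
    funext i
    have h2 := congrFun h1 i
    have h3 : (γ.map (Int.cast : ℤ → ℚ) *ᵥ rv v) i = (((γ *ᵥ v) i : ℤ) : ℚ) := by
      simp [rv, mulVec, dotProduct]
    rw [h3] at h2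
    change (((γ *ᵥ v) i : ℤ) : ℚ) = ((v i : ℤ) : ℚ) at h2
    exact_mod_cast h2
  -- the image contains the monodromy group modulo `ℓ^K`
  have hcong : ∀ γ ∈ MonoL ψ P Y, ∃ g ∈ ρ.range, ∀ i j,
      PadicInt.toZModPow K ((g : Matrix (Fin r) (Fin r) ℤ_[ℓ]) i j) = ((γ i j : ℤ) : ZMod (ℓ ^ K)) := by
    intro γ hγ
    obtain ⟨π, hπ⟩ := exists_perm_actZ (ℓ := ℓ) hdet hγ.1 K
    have h1 := chain_of_monoL hγ K
    have h2 : (⟨U, w, fun e => (Y K).y (actZ γ e.1) e.2⟩ :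
        Elem m ((Fin r → ZMod (ℓ ^ K)) × Fin (Y K).N)) = ⟨U, w, fun e => (Y K).y (π e.1) e.2⟩ := by
      congr 1
      funext e
      rw [hπ]
    rw [h2] at h1
    obtain ⟨σ, hσ⟩ := hgal π h1
    refine ⟨ρ σ, ⟨σ, rfl⟩, ?_⟩
    obtain ⟨-, h3⟩ := algebraic_point hw (Y K) htU ht
    have h4 : ∀ v : Fin r → ZMod (ℓ ^ K), actP (ρ σ) v = actZ γ v := by
      intro v
      apply (Y K).inj t htU
      funext i
      have h5 : (((⟨(Y K).y v i t, mem_algebraicClosure_iff.2 (h3 v i)⟩ : Qbar) : Qbar) : ℂ) =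
          (Y K).y v i t := rfl
      have h6 : (((σ ⟨(Y K).y v i t, mem_algebraicClosure_iff.2 (h3 v i)⟩ : Qbar) : Qbar) : ℂ) =
          (Y K).y (actP (ρ σ) v) i t := hρ σ K v i _ h5
      rw [hσ v i _ h5, hπ] at h6
      exact h6.symm
    intro i j
    have h7 := congrFun (h4 (Pi.single j 1)) i
    rw [actP, actZ, mulVec_single_one, mulVec_single_one] at h7
    exact h7
  have hfin : (G'.map ρ).relIndex ρ.range ≠ 0 := by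
    rw [MonoidHom.range_eq_map, Subgroup.relIndex_map_map, top_sup_eq, Subgroup.relIndex_top_right]
    have : (G' ⊔ ρ.ker).FiniteIndex := Subgroup.finiteIndex_of_le le_sup_left
    exact this.index_ne_zero
  have hrange : ∀ g ∈ ρ.range, (g : Matrix (Fin r) (Fin r) ℤ_[ℓ])ᵀ *
      ψ.map (Int.cast : ℤ → ℤ_[ℓ]) * g = ψ.map (Int.cast : ℤ → ℤ_[ℓ]) := by
    rintro _ ⟨σ, rfl⟩
    exact hisom σ
  have hrangeN : ∀ g ∈ ρ.range, ∀ v : Fin r → ℤ, rv v ∈ N → ∃ u : Fin r → ℤ, rv u ∈ N ∧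
      (g : Matrix (Fin r) (Fin r) ℤ_[ℓ]) *ᵥ lv ℓ v = lv ℓ u := by
    rintro _ ⟨σ, rfl⟩
    exact hGN σ
  have hle : G'.map ρ ≤ ρ.range := by
    rw [MonoidHom.range_eq_map]
    exact Subgroup.map_mono le_top
  have hvan := vanishing_of_level hψ hdet hpos hΓ hk hkK hK hrange hrangeN hcong hle hfin hconn
  have hc := of_isConn hψ hdet hpos (fun g hg => hrange g (hle hg)) (fun g hg => hrangeN g (hle hg)) hconn
  refine equality_of_lie hlev hP hpol hNH (by omega)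
    (lie_of_mtContains hψ hdet hNn (by omega) hMT fun x hx => ?_)
    (fun g hg => hrange g (hle hg)) (fun g hg v hv => (hc g hg).2 v hv) (fun g hg => (hc g hg).1) hvan
  -- the tangent spaces
  intro q hq
  refine hbig x hx q ?_
  rintro _ ⟨γ, hγ, rfl⟩
  exact hq _ (mono_of_monoL hγ)

end Point

/-- The Mumford-Tate conjecture at `ℓ` for most fibres of a family with big monodromy. -/
theorem eq_count {κ : IntermediateField ℚ Qbar} [FiniteDimensional ℚ κ] {m : ℕ} (hm : 1 ≤ m)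
    {F : FamiliesM κ m} {μ r₀ r : ℕ} (E : F.Sub μ r₀ (Fin r)) {U : Set (Fin m → ℂ)} (hU : IsOpen U)
    (hU' : IsPreconnected U) {w : (Fin m → ℂ) → ℂ} (hw : IsBranchM κ U μ w)
    {P : (Fin m → ℂ) → Matrix (Fin r) (Fin r) ℂ} (hP : E.IsPeriod U w P) {V : Set (Fin m → ℂ)}
    (hV : DeepW F.T U V ∨ IsCompact V ∧ V ⊆ U) (hdet : ∀ t ∈ V, IsUnit (P t).det)
    {lev : Fin r → ℤ} (hlev : ∀ x, 0 ≤ lev x ∧ lev x ≤ 2) {ψ : Matrix (Fin r) (Fin r) ℤ}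
    (hpol : ∀ t ∈ V, IsPolarized lev 2 (ψ.map (Int.cast : ℤ → ℚ)) (P t))
    {ℓ : ℕ} [Fact ℓ.Prime] (Y : ∀ k : ℕ, CoverData κ (Fin r → ZMod (ℓ ^ k)) U w)
    {N : Submodule ℚ (Fin r → ℚ)} (hN : N = fixedPart (MonoL ψ P Y))
    (hNH : ∀ t ∈ V, ∀ v ∈ N, (fun i => ((v i : ℚ) : ℂ)) ∈ hodgePart lev 2 (P t) 1)
    (hdim : 3 ≤ finrank ℚ (orthS (ψ.map (Int.cast : ℤ → ℚ)) N))
    (hdim' : finrank ℚ (orthS (ψ.map (Int.cast : ℤ → ℚ)) N) ≠ 4)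
    (hbig : ∀ x ∈ soT (ψ.map (Int.cast : ℤ → ℂ)) (smap ℂ N : Set (Fin r → ℂ)),
      x ∈ HH.tangent ((fun γ : Matrix (Fin r) (Fin r) ℤ => γ.map (Int.cast : ℤ → ℂ)) '' MonoL ψ P Y))
    {J : Type} [Fintype J] (ω : Module.Basis J ℚ κ)
    {D : ℕ} (hD : 1 ≤ D) (e : ℕ) (N' : Finset (ℕ × J)) (hN' : ∃ j, (0, j) ∈ N') :
    ∃ C θ₀ : ℝ, 0 < θ₀ ∧ ∀ X : ℕ, 1 ≤ X → ((SmallEq ω N' V Y lev ψ N P D e X).ncard : ℝ) ≤
      C * (X : ℝ) ^ ((((D + 1 + m * (e + 1)) * Module.finrank ℚ κ + N'.card : ℕ) : ℝ) - θ₀) := by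
  classical
  rcases Set.eq_empty_or_nonempty V with hVe | ⟨t₀, ht₀⟩
  · refine ⟨0, 1, one_pos, fun X _ => ?_⟩
    have : SmallEq ω N' V Y lev ψ N P D e X = ∅ := by
      rw [Set.eq_empty_iff_forall_notMem]
      rintro a ⟨_, θ, _, _, h2, _⟩
      rw [hVe] at h2
      exact h2
    rw [this, Set.ncard_empty, Nat.cast_zero, zero_mul]
  have hV' : DeepW F.T U V := by
    rcases hV with h | ⟨h1, h2⟩
    · exact h
    · exact deepW_compact F.T hU h1 h2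
  have hVU := deepW_sub hV'
  obtain ⟨H, hHψ, -⟩ := exists_lattice hlev (hdet t₀ ht₀) (hpol t₀ ht₀)
  have hψ : ψᵀ = ψ := by rw [← hHψ]; exact H.symm
  have hψd : ψ.det ≠ 0 := by rw [← hHψ]; exact H.det_ne_zero
  have hpos := pos_of_hodge (hpol t₀ ht₀) (hNH t₀ ht₀)
  have hNn : ∀ v ∈ N, (∀ w ∈ N, bil (ψ.map (Int.cast : ℤ → ℚ)) v w = 0) → v = 0 := by
    intro v hv h
    by_contra hne
    have h1 := hpos v hv hne
    rw [h v hv] at h1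
    exact lt_irrefl _ h1
  obtain ⟨k, hk⟩ : ∃ k, GroupLevel ψ N (MonoL ψ P Y) ℓ k := by
    refine group_main hψ hψd hNn hdim' monoL_one (fun γ hγ γ' hγ' => monoL_mul hγ hγ')
      (fun γ hγ => hγ.1) ?_ hbig ℓ
    intro γ hγ v hv
    rw [hN] at hv
    exact hv γ hγ
  obtain ⟨k₁, hk₁⟩ := exists_level_fix (ℓ := ℓ) hψ hpos
  set K := max k k₁ with hK
  have hr : 0 < r := by
    rcases Nat.eq_zero_or_pos r with h | h
    · exfalso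
      have h1 : finrank ℚ (orthS (ψ.map (Int.cast : ℤ → ℚ)) N) ≤ finrank ℚ (Fin r → ℚ) :=
        Submodule.finrank_le _
      rw [Module.finrank_fin_fun] at h1
      omega
    · exact h
  have : Nonempty (Fin r) := ⟨⟨0, hr⟩⟩
  obtain ⟨C₁, θ₁, hθ₁, h₁⟩ := small_count hm E hU hU' hw hP (Or.inl hV') hdet hpol ω hD e N' hN'
  obtain ⟨C₂, θ₂, hθ₂, h₂⟩ := level_count hm hU hU' hw (Y K) F.T_ne hV' ω hD e N' hN'
  obtain ⟨C, θ₀, hθ₀, hC⟩ := sum_bound (Finset.univ : Finset (Fin 2))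
    (f := fun p X => if p = 0 then
      ((SmallMT ω N' U V w P lev 2 (ψ.map (Int.cast : ℤ → ℚ)) D e X).ncard : ℝ)
      else ((SmallGal ω N' (Y K) V D e X).ncard : ℝ))
    (n := (((D + 1 + m * (e + 1)) * Module.finrank ℚ κ + N'.card : ℕ) : ℝ)) (by
      intro p _
      fin_cases p
      · exact ⟨C₁, θ₁, hθ₁, h₁⟩
      · exact ⟨C₂, θ₂, hθ₂, h₂⟩)
  refine ⟨C, θ₀, hθ₀, fun X hX => le_trans ?_ (hC X hX)⟩
  rw [Fin.sum_univ_two]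
  simp only [if_true, Fin.isValue, one_ne_zero, if_false]
  have hsub : SmallEq ω N' V Y lev ψ N P D e X ⊆
      SmallMT ω N' U V w P lev 2 (ψ.map (Int.cast : ℤ → ℚ)) D e X ∪ SmallGal ω N' (Y K) V D e X := by
    rintro a ⟨ha, θ, hθ, hq, hθV, hne⟩
    by_contra hcon
    rw [Set.mem_union, not_or] at hcon
    obtain ⟨hA, hB⟩ := hcon
    refine hne (mtEq_of hw hlev hN (by omega) hbig hψ hψd hk (le_max_left k k₁)
      (hk₁ K (le_max_right k k₁)) (hVU hθV) (algebraic_pointU ω N' a θ) (hdet _ hθV) (hpol _ hθV)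
      (hNH _ hθV) ?_ ?_)
    · by_contra hno
      exact hA ⟨ha, θ, hθ, hq, hθV, hno⟩
    · intro π hπ
      by_contra hno
      exact hB ⟨ha, θ, hθ, hq, hθV, π, hπ, hno⟩
  have hfin : (SmallMT ω N' U V w P lev 2 (ψ.map (Int.cast : ℤ → ℚ)) D e X ∪
      SmallGal ω N' (Y K) V D e X).Finite := by
    refine Set.Finite.union ?_ ?_
    · exact (AA.box_card X _ fun a ha => ha.1).1
    · exact (AA.box_card X _ fun a ha => ha.1).1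
  have h3 := (Set.ncard_le_ncard hsub hfin).trans (Set.ncard_union_le _ _)
  exact_mod_cast h3

end Pool.Agent.Helper79.HG
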